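import Pool.Agent.Work.MP_909527_an.Defs2
import Pool.Agent.Work.MP_909527_an_helper80.G2

/-! # From the coordinate definitions to the operator ones -/

set_option autoImplicit false
set_option maxSynthPendingDepth 3

open MeasureTheory Set Filter Topology
open scoped ContDiff InnerProductSpace

namespace Pool.Agent.MP909527

namespace Bridge

open Geo

variable {N : ℕ} (M : NC.NormalMetric N)

theorem e_eq (i : Fin N) : (NC.e i : E N) = e i := rfl

theorem g_zero_left (x w : E N) : M.g x 0 w = 0 := by
  have := M.smul_left x 0 0 w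
  simpa using this

theorem g_sum_left {ι : Type*} (s : Finset ι) (x w : E N) (f : ι → E N) :
    M.g x (∑ i ∈ s, f i) w = ∑ i ∈ s, M.g x (f i) w := by
  classical
  induction s using Finset.induction_on with
  | empty => simp [g_zero_left]
  | insert a s ha ih => rw [Finset.sum_insert ha, Finset.sum_insert ha, M.add_left, ih]

theorem g_eq (x v w : E N) : M.g x v w = ∑ i, ∑ j, M.g x (e i) (e j) * (v i * w j) := by
  conv_lhs => rw [e_decomp v, g_sum_left]
  refine Finset.sum_congr rfl fun i _ => ?_
  rw [M.smul_left, M.symm]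
  conv_lhs => rw [e_decomp w, g_sum_left]
  rw [Finset.mul_sum]
  refine Finset.sum_congr rfl fun j _ => ?_
  rw [M.smul_left, M.symm x (e j)]
  ring

/-- coordinate functional -/
noncomputable def co (i : Fin N) : E N →L[ℝ] ℝ := EuclideanSpace.proj i

/-- `(v, w) ↦ v_i w_j` -/
noncomputable def bb (i j : Fin N) : E N →L[ℝ] E N →L[ℝ] ℝ :=
  (co i).smulRight (co j)

theorem bb_apply (i j : Fin N) (v w : E N) : bb i j v w = v i * w j := by
  simp [bb, co]

/-- the metric as a bilinear form -/
noncomputable def G (x : E N) : E N →L[ℝ] E N →L[ℝ] ℝ :=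
  ∑ i, ∑ j, M.g x (e i) (e j) • bb i j

theorem G_apply (x v w : E N) : G M x v w = M.g x v w := by
  rw [g_eq, G]
  simp only [sum_apply, smul_apply, bb_apply, smul_eq_mul]

theorem smooth_G : ContDiff ℝ ∞ (G M) := by
  unfold G
  refine ContDiff.sum fun i _ => ContDiff.sum fun j _ => ?_
  exact (M.smooth _ _).smul contDiff_const

/-- the old structure -/
noncomputable def toOld : NormalMetric N where
  g := G M
  smooth := smooth_G M
  symm x v w := by rw [G_apply, G_apply, M.symm]
  pos x v hv := by rw [G_apply]; exact M.pos x v hv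
  gauss x v := by rw [G_apply]; exact M.gauss x v

theorem toOld_g (x v w : E N) : (toOld M).g x v w = M.g x v w := G_apply M x v w

theorem mat_eq (x : E N) : M.mat x = Gm (toOld M) x := by
  ext i j
  simp only [NC.NormalMetric.mat, Gm, Matrix.of_apply, toOld_g]
  rfl

theorem g_sharp (x v : E N) (l : E N →L[ℝ] ℝ) : (toOld M).g x (M.sharp x fun z => l z) v = l v := by
  have hdet : IsUnit (M.mat x).det := by
    rw [mat_eq]; exact (det_pos (toOld M) x).ne'.isUnit
  have h1 : ∀ k, (toOld M).g x (M.sharp x fun z => l z) (e k) = l (e k) := by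
    intro k
    rw [NC.NormalMetric.sharp]
    simp only [map_sum, map_smul, sum_apply, smul_apply, smul_eq_mul, toOld_g]
    have h2 : ∀ i, M.g x (NC.e i) (e k) = M.mat x i k := fun i => rfl
    simp only [h2, Finset.sum_mul]
    rw [Finset.sum_comm]
    have h3 : ∀ j, ∑ i, (M.mat x)⁻¹ i j * l (NC.e j) * M.mat x i k
        = l (NC.e j) * ∑ i, M.mat x k i * (M.mat x)⁻¹ i j := by
      intro j
      rw [Finset.mul_sum]
      refine Finset.sum_congr rfl fun i _ => ?_
      have : M.mat x i k = M.mat x k i := by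
        simp only [NC.NormalMetric.mat, Matrix.of_apply]
        exact M.symm _ _ _
      rw [this]; ring
    simp only [h3]
    have h4 : ∀ j, ∑ i, M.mat x k i * (M.mat x)⁻¹ i j = (1 : Matrix (Fin N) (Fin N) ℝ) k j := by
      intro j
      rw [← Matrix.mul_nonsing_inv _ hdet, Matrix.mul_apply]
    simp only [h4, Matrix.one_apply, mul_ite, mul_one, mul_zero, Finset.sum_ite_eq,
      Finset.mem_univ, if_true]
    rfl
  conv_lhs => rw [e_decomp v]
  conv_rhs => rw [e_decomp v]
  simp only [map_sum, map_smul, smul_eq_mul, h1]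

theorem sharp_eq (x : E N) (l : E N →L[ℝ] ℝ) :
    (M.sharp x fun z => l z) = ((toOld M).g x).inverse l := by
  apply g_inj (toOld M) x
  rw [g_inverse]
  ext v
  exact g_sharp M x v l

theorem fderiv_g (x u v w : E N) :
    fderiv ℝ (toOld M).g x u v w = M.dg x u v w := by
  have h1 := hasFDerivAt_g (toOld M) x
  have h2 := (((ContinuousLinearMap.apply ℝ ℝ w).comp
      (ContinuousLinearMap.apply ℝ (E N →L[ℝ] ℝ) v)).hasFDerivAt).comp x h1
  have h3 : (fun y => M.g y v w) = ((ContinuousLinearMap.apply ℝ ℝ w).comp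
      (ContinuousLinearMap.apply ℝ (E N →L[ℝ] ℝ) v)) ∘ (toOld M).g := by
    ext y
    exact (toOld_g M y v w).symm
  have h4 : DifferentiableAt ℝ (fun y => M.g y v w) x := by
    rw [h3]; exact h2.differentiableAt
  rw [NC.NormalMetric.dg, h4.lineDeriv_eq_fderiv, h3, h2.fderiv]
  rfl

theorem christoffel_eq (x v w : E N) : M.christoffel x v w = (toOld M).christoffel x v w := by
  rw [NC.NormalMetric.christoffel, NormalMetric.christoffel, ← sharp_eq]
  congr 1
  ext z
  simp only [smul_apply, add_apply, sub_apply, ContinuousLinearMap.flip_apply, smul_eq_mul,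
    fderiv_g]
  ring

theorem dchristoffel_eq (x u v w : E N) :
    M.dchristoffel x u v w = fderiv ℝ (fun y => (toOld M).christoffel y v w) x u := by
  have h1 : (fun y => M.christoffel y v w) = fun y => (toOld M).christoffel y v w := by
    ext1 y
    exact christoffel_eq M y v w
  have h2 : ContDiff ℝ ∞ fun y => Gc (toOld M) y v w :=
    ((smooth_Gc (toOld M)).clm_apply contDiff_const).clm_apply contDiff_const
  have h3 : DifferentiableAt ℝ (fun y => (toOld M).christoffel y v w) x :=
    (h2.differentiable (by simp)) x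
  rw [NC.NormalMetric.dchristoffel, h1, h3.lineDeriv_eq_fderiv]

theorem curv_eq (x u v w : E N) : M.curv x u v w = (toOld M).curv x u v w := by
  simp only [NC.NormalMetric.curv, NormalMetric.curv, dchristoffel_eq, christoffel_eq]

theorem sec_eq (x u v : E N) : M.sec x u v = (toOld M).sec x u v := by
  simp only [NC.NormalMetric.sec, NormalMetric.sec, curv_eq, toOld_g]

theorem dens_eq' (x : E N) : M.dens x = (toOld M).dens x := by
  rw [NC.NormalMetric.dens, Geo.dens_eq, mat_eq]

theorem vol_eq : M.vol = (toOld M).vol := by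
  simp only [NC.NormalMetric.vol, NormalMetric.vol, dens_eq']

theorem grad_eq {φ : E N → ℝ} {x : E N} (h : DifferentiableAt ℝ φ x) :
    M.grad φ x = (toOld M).grad φ x := by
  rw [NC.NormalMetric.grad, NormalMetric.grad, ← sharp_eq]
  congr 1
  ext1 v
  exact h.lineDeriv_eq_fderiv

theorem lap_eq {φ : E N → ℝ} (hφ : ContDiff ℝ ∞ φ) (x : E N) :
    M.lap φ x = (toOld M).lap φ x := by
  have h1 : ∀ y, M.grad φ y = (toOld M).grad φ y := fun y =>
    grad_eq M (hφ.differentiable (by simp) y)
  have h2 : ContDiff ℝ ∞ fun y => (toOld M).grad φ y :=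
    (smooth_inverse (toOld M)).clm_apply (hφ.fderiv_right (m := ∞) (by simp))
  simp only [NC.NormalMetric.lap, NormalMetric.lap, h1, dens_eq', e_eq]
  congr 1
  refine Finset.sum_congr rfl fun i _ => ?_
  have h3 : ContDiff ℝ ∞ fun y => (toOld M).dens y * (toOld M).grad φ y i := by
    refine (smooth_dens (toOld M)).mul ?_
    have h4 : ContDiff ℝ ∞ fun z : E N => z i := by fun_prop
    exact h4.comp h2
  exact ((h3.differentiable (by simp)) x).lineDeriv_eq_fderiv

theorem sol {m p : ℝ} {u₀ : E N → ℝ} {u : ℝ → E N → ℝ} (h : M.IsGlobalSolution m p u₀ u) :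
    (toOld M).IsGlobalSolution m p u₀ u := by
  refine ⟨h.cont, h.nonneg, ?_, h.bounded, ?_⟩
  · have := h.memLm
    rwa [vol_eq] at this
  · intro T hT φ h1 h2 h3
    have := h.weak T hT φ h1 h2 h3
    have h4 : ∀ t, ContDiff ℝ ∞ (φ t) := fun t =>
      h1.comp (contDiff_const.prodMk contDiff_id)
    have h5 : ∀ t x, M.lap (φ t) x = (toOld M).lap (φ t) x := fun t x => lap_eq M (h4 t) x
    simp only [vol_eq, h5] at this
    exact this

end Bridge

end Pool.Agent.MP909527
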