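import Pool.Agent.Work.MP_909527_an.Comp5
import Pool.Agent.Work.MP_909527_an_helper80.M
import Pool.Agent.Work.MP_909527_an_helper80.G2
import Pool.Agent.Work.MP_909527_an_helper82.S
import Pool.Agent.Work.MP_909527_an_helper74.T

/-! # MP_909527_an: final assembly -/

set_option autoImplicit false

open MeasureTheory Set Filter Topology
open scoped ContDiff InnerProductSpace ENNReal

namespace Pool.Agent.MP909527

variable {N : ℕ}

/-- Positivity expands. -/
theorem expand (c : Coef N) (hN : 0 < N) {m p : ℝ} (hp : 1 < p) (hpm : p < m)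
    {u : ℝ → E N → ℝ} (hcont : ContinuousOn (fun q : ℝ × E N => u q.1 q.2) (Ioi 0 ×ˢ univ))
    (hu0 : ∀ t > 0, ∀ x, 0 ≤ u t x)
    (hVW : ∀ t₀ t₁, 0 < t₀ → t₀ < t₁ → VeryWeak c m p u t₀ t₁)
    {ρ : E N → ℝ} (hρ : ContDiff ℝ ∞ ρ) (hρ0 : ∀ x, 0 ≤ ρ x)
    {a C γ δ : ℝ} {b : EReal} (ha : 0 < a) (hγ : 0 < γ) (hδ : 0 < δ)
    (hsubl : ∀ B : ℝ, (B : EReal) < b → ∃ R > 0, ∀ x, ρ x ≤ B → ‖x‖ < R)
    (hLρ : ∀ x, ((ρ x : ℝ) : EReal) < b → c.L ρ x ≤ C * c.w x)
    (hAρ : ∀ x, ((ρ x : ℝ) : EReal) < b → a - δ < ρ x →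
      γ * c.w x ≤ ⟪c.A x (gradient ρ x), gradient ρ x⟫_ℝ)
    {t₀ θ : ℝ} (ht₀ : 0 < t₀) (hθ : 0 < θ) (hpos : ∀ x, ρ x ≤ a → θ ≤ u t₀ x) :
    ∃ κ > 0, ∃ σ > 0, ∀ t > t₀, ((a + σ * (t - t₀) : ℝ) : EReal) < b →
      ∀ x, κ * (max (a + σ * (t - t₀) - ρ x) 0) ^ (1 / (m - 1)) ≤ u t x := by
  have hm : 1 < m := hp.trans hpm
  have hα : 0 < 1 / (m - 1) := by
    have : 0 < m - 1 := by linarith
    positivity
  obtain ⟨κ₀, hκ₀, h⟩ := stmt_S N c m p hp hpm ρ hρ a C γ δ b hγ hδ hsubl hLρ hAρ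
  set κ := min κ₀ (θ / a ^ (1 / (m - 1))) with hκdef
  have hκ : 0 < κ := by positivity
  obtain ⟨σ, hσ, h'⟩ := h κ hκ (min_le_left _ _)
  refine ⟨κ, hκ, σ, hσ, fun t ht hb x => ?_⟩
  obtain ⟨R, hR, hsub⟩ := h' t₀ t ht hb
  refine stmt_C stmt_M N hN c m p u _ t₀ t R hm hp.le hpm.le ht hR ?_ ?_ (hVW t₀ t ht₀ ht) hsub ?_
    t ⟨ht.le, le_rfl⟩ x
  · refine hcont.mono ?_
    rintro ⟨s, y⟩ ⟨hs, -⟩
    exact ⟨lt_of_lt_of_le ht₀ hs.1, mem_univ _⟩
  · intro s hs y
    exact hu0 s (lt_of_lt_of_le ht₀ hs.1) y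
  · intro y
    simp only [sub_self, mul_zero, add_zero]
    rcases le_or_gt (ρ y) a with hy | hy
    · refine le_trans ?_ (hpos y hy)
      have h1 : max (a - ρ y) 0 ^ (1 / (m - 1)) ≤ a ^ (1 / (m - 1)) :=
        Real.rpow_le_rpow (le_max_right _ _) (max_le (by linarith [hρ0 y]) ha.le) hα.le
      have h2 : κ ≤ θ / a ^ (1 / (m - 1)) := min_le_right _ _
      have h3 : 0 < a ^ (1 / (m - 1)) := by positivity
      calc κ * max (a - ρ y) 0 ^ (1 / (m - 1)) ≤ κ * a ^ (1 / (m - 1)) :=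
            mul_le_mul_of_nonneg_left h1 hκ.le
        _ ≤ θ / a ^ (1 / (m - 1)) * a ^ (1 / (m - 1)) := mul_le_mul_of_nonneg_right h2 h3.le
        _ = θ := by field_simp
    · rw [max_eq_right (by linarith), Real.zero_rpow hα.ne', mul_zero]
      exact hu0 t₀ ht₀ y

/-- Stage 1: positivity reaches every ball. -/
theorem stage1 (c : Coef N) (hN : 0 < N) {m p : ℝ} (hp : 1 < p) (hpm : p < m)
    {u : ℝ → E N → ℝ} (hcont : ContinuousOn (fun q : ℝ × E N => u q.1 q.2) (Ioi 0 ×ˢ univ))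
    (hu0 : ∀ t > 0, ∀ x, 0 ≤ u t x)
    (hVW : ∀ t₀ t₁, 0 < t₀ → t₀ < t₁ → VeryWeak c m p u t₀ t₁)
    {t₀ : ℝ} (ht₀ : 0 < t₀) {x₀ : E N} (hx₀ : 0 < u t₀ x₀) (r : ℝ) (hr : 0 < r) :
    ∃ t₁ > 0, ∀ x, ‖x‖ ≤ r → 0 < u t₁ x := by
  -- a small ball
  have hut : ∀ t > 0, Continuous (u t) := by
    intro t ht
    have h1 : Continuous fun x : E N => (t, x) := Continuous.prodMk_right t
    exact hcont.comp_continuous h1 fun x => ⟨ht, mem_univ _⟩
  have hev : ∀ᶠ x in 𝓝 x₀, u t₀ x₀ / 2 < u t₀ x :=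
    (hut t₀ ht₀).continuousAt.eventually (lt_mem_nhds (by linarith))
  obtain ⟨s, hs, hball⟩ := Metric.eventually_nhds_iff_ball.1 hev
  set a : ℝ := min 1 ((s / 2) ^ 2) with ha
  have ha0 : 0 < a := by positivity
  have ha1 : a ≤ 1 := min_le_left _ _
  set ρ : E N → ℝ := fun x => ‖x - x₀‖ ^ 2 with hρ
  have hρs : ContDiff ℝ ∞ ρ := (contDiff_id.sub contDiff_const).norm_sq ℝ
  set b : ℝ := (r + ‖x₀‖ + 1) ^ 2 + 1 with hb
  set b' : ℝ := (r + ‖x₀‖ + 1) ^ 2 with hb'
  have hb'1 : 1 ≤ b' := by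
    rw [hb']
    have := norm_nonneg x₀
    nlinarith
  -- everything happens in a ball
  set R : ℝ := ‖x₀‖ + b + 1 with hR
  have hRb : ∀ x, ρ x < b → ‖x‖ < R := by
    intro x hx
    have h1 : ‖x - x₀‖ ≤ b := by
      have h3 : 1 ≤ b := by rw [hb]; nlinarith [sq_nonneg (r + ‖x₀‖ + 1)]
      by_contra hcon
      rw [not_le] at hcon
      simp only [hρ] at hx
      nlinarith
    have h2 : ‖x‖ ≤ ‖x - x₀‖ + ‖x₀‖ := by
      have := norm_add_le (x - x₀) x₀
      rwa [sub_add_cancel] at this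
    rw [hR]; linarith
  obtain ⟨lam, hlam, hell⟩ := elliptic c R
  obtain ⟨Wb, hWb, hwb⟩ := w_bound c R
  have hLc : Continuous (c.L ρ) := by
    have h1 : ContDiff ℝ ∞ fun y => c.A y (gradient ρ y) :=
      c.smoothA.clm_apply (contDiff_gradient hρs)
    unfold Coef.L
    refine continuous_finsetSum _ fun i _ => ?_
    have h2 : ContDiff ℝ ∞ fun y => (c.A y (gradient ρ y)) i := by
      have h3 : ContDiff ℝ ∞ fun z : E N => z i := by fun_prop
      exact h3.comp h1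
    exact (h2.continuous_fderiv (by simp)).clm_apply continuous_const
  obtain ⟨CL, hCL⟩ := (isCompact_closedBall (0 : E N) R).exists_bound_of_continuousOn
    (hLc.div c.smoothw.continuous (fun x => (c.wpos x).ne')).continuousOn
  have hgrad : ∀ x, gradient ρ x = (2 : ℝ) • (x - x₀) := by
    intro x
    apply ext_inner_right ℝ
    intro v
    rw [inner_gradient]
    have h1 : HasFDerivAt (fun y : E N => y - x₀) (ContinuousLinearMap.id ℝ (E N)) x :=
      (hasFDerivAt_id x).sub_const x₀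
    have h2 := h1.norm_sq
    rw [hρ, h2.fderiv, real_inner_smul_left]
    simp [inner_sub_left]
  obtain ⟨κ, hκ, σ, hσ, h⟩ := expand c hN hp hpm hcont hu0 hVW hρs (fun x => by positivity)
    (a := a) (C := CL) (γ := 2 * lam * a / Wb) (δ := a / 2) (b := (b : EReal)) ha0
    (by positivity) (by positivity)
    (by
      intro B hB
      have hB' : B < b := by exact_mod_cast hB
      refine ⟨R, by positivity, fun x hx => hRb x (lt_of_le_of_lt hx hB')⟩)
    (by
      intro x hx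
      have hx' : ρ x < b := by exact_mod_cast hx
      have h1 := hCL x (by rw [mem_closedBall_zero_iff]; exact (hRb x hx').le)
      rw [Real.norm_eq_abs] at h1
      have h2 : c.L ρ x / c.w x ≤ CL := (le_abs_self _).trans h1
      rwa [div_le_iff₀ (c.wpos x)] at h2)
    (by
      intro x hx hax
      have hx' : ρ x < b := by exact_mod_cast hx
      have hxR : x ∈ Metric.closedBall (0 : E N) R := by
        rw [mem_closedBall_zero_iff]; exact (hRb x hx').le
      have h1 := hell x hxR (gradient ρ x)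
      refine le_trans ?_ h1
      rw [hgrad, norm_smul, mul_pow]
      have h2 : a / 2 < ‖x - x₀‖ ^ 2 := by
        simp only [hρ] at hax
        linarith
      have h3 := hwb x hxR
      rw [abs_of_pos (c.wpos x)] at h3
      have h4 : 2 * lam * a / Wb * c.w x ≤ 2 * lam * a := by
        rw [div_mul_eq_mul_div, div_le_iff₀ hWb]
        exact mul_le_mul_of_nonneg_left h3 (by positivity)
      have h5 : ‖(2 : ℝ)‖ ^ 2 = 4 := by norm_num
      rw [h5]
      nlinarith)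
    ht₀ (θ := u t₀ x₀ / 2) (by positivity) (by
      intro x hx
      refine (hball x ?_).le
      rw [mem_ball_iff_norm]
      have h1 : ‖x - x₀‖ ^ 2 ≤ (s / 2) ^ 2 := hx.trans (min_le_right _ _)
      have h2 := abs_le_of_sq_le_sq h1 (by positivity)
      have h3 := le_abs_self (‖x - x₀‖)
      linarith)
  refine ⟨t₀ + (b' + 1 / 2 - a) / σ, ?_, fun x hx => ?_⟩
  · have : 0 < (b' + 1 / 2 - a) / σ := div_pos (by linarith) hσ
    linarith
  · have hd : 0 < (b' + 1 / 2 - a) / σ := div_pos (by linarith) hσ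
    have h1 : a + σ * (t₀ + (b' + 1 / 2 - a) / σ - t₀) = b' + 1 / 2 := by
      field_simp; ring
    have h2 := h (t₀ + (b' + 1 / 2 - a) / σ) (by linarith) (by
      rw [h1]
      have : b' + 1 / 2 < b := by rw [hb]; linarith
      exact_mod_cast this) x
    rw [h1] at h2
    refine lt_of_lt_of_le ?_ h2
    have h3 : ρ x ≤ b' := by
      simp only [hρ, hb']
      have h4 := norm_sub_le x x₀
      have h5 := norm_nonneg (x - x₀)
      nlinarith
    have h6 : 0 < max (b' + 1 / 2 - ρ x) 0 := lt_max_of_lt_left (by linarith)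
    positivity

theorem stmt_Final : Stmt_Final := by
  intro N hN M c₁ c₂ hc₂ hc₁₂ hsec m p hp hpm u₀ hu₀ hu₀n hne u hu x
  have hN0 : 0 < N := by omega
  have hm : 1 < m := hp.trans hpm
  have hα : 0 < 1 / (m - 1) := by
    have : 0 < m - 1 := by linarith
    positivity
  obtain ⟨c, hc⟩ := stmt_G1 N M
  obtain ⟨hVW, hposi⟩ := stmt_T N M c hc m p hp hpm u₀ u hu₀ hu
  obtain ⟨t₀, ht₀, x₀, hx₀⟩ := hposi hne
  obtain ⟨t₁, ht₁, hpos1⟩ := stage1 c hN0 hp hpm hu.cont hu.nonneg hVW ht₀ hx₀ 3 (by norm_num)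
  have hut : Continuous (u t₁) := by
    have h1 : Continuous fun x : E N => (t₁, x) := Continuous.prodMk_right t₁
    exact hu.cont.comp_continuous h1 fun x => ⟨ht₁, mem_univ _⟩
  obtain ⟨y₀, hy₀, hmin⟩ := (isCompact_closedBall (0 : E N) 3).exists_isMinOn
    ⟨0, by simp⟩ hut.continuousOn
  have hθ : 0 < u t₁ y₀ := hpos1 y₀ (by rwa [mem_closedBall_zero_iff] at hy₀)
  obtain ⟨hLap, hgr⟩ := stmt_G2 N M c hc c₁ (by linarith) fun x u v huv => (hsec x u v huv).1
  set ρ : E N → ℝ := fun y => √(1 + ‖y‖ ^ 2) with hρ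
  have hρs : ContDiff ℝ ∞ ρ := by
    have h1 : ContDiff ℝ ∞ fun y : E N => 1 + ‖y‖ ^ 2 := contDiff_const.add (contDiff_norm_sq ℝ)
    exact h1.sqrt fun y => by positivity
  have hρn : ∀ y, ‖y‖ ≤ ρ y := by
    intro y
    apply Real.le_sqrt_of_sq_le
    linarith
  obtain ⟨κ, hκ, σ, hσ, h⟩ := expand c hN0 hp hpm hu.cont hu.nonneg hVW hρs
    (fun y => Real.sqrt_nonneg _)
    (a := 3) (C := N + N * √c₁) (γ := 1 / 2) (δ := 1) (b := ⊤) (by norm_num)
    (by norm_num) (by norm_num)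
    (by
      intro B _
      refine ⟨|B| + 1, by positivity, fun y hy => ?_⟩
      have := hρn y
      have := le_abs_self B
      linarith)
    (fun y _ => hLap y)
    (by
      intro y _ hy
      rw [hgr y, mul_comm]
      refine mul_le_mul_of_nonneg_left ?_ (c.wpos y).le
      have h1 : (2 : ℝ) < √(1 + ‖y‖ ^ 2) := by
        have : (3 : ℝ) - 1 < ρ y := hy
        simp only [hρ] at this
        linarith
      have h2 : (4 : ℝ) < 1 + ‖y‖ ^ 2 := by
        have h3 := Real.lt_sqrt (x := 2) (y := 1 + ‖y‖ ^ 2) (by norm_num)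
        have := h3.1 h1
        linarith
      rw [div_le_div_iff₀ (by norm_num) (by positivity)]
      linarith)
    ht₁ hθ (by
      intro y hy
      exact hmin (by
        rw [mem_closedBall_zero_iff]
        exact (hρn y).trans hy))
  -- conclusion
  have hlim : Tendsto (fun t : ℝ => κ * (3 + σ * (t - t₁) - ρ x) ^ (1 / (m - 1))) atTop atTop := by
    refine Tendsto.const_mul_atTop hκ ?_
    refine (tendsto_rpow_atTop hα).comp ?_
    refine tendsto_atTop_add_const_right _ _ ?_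
    refine tendsto_atTop_add_const_left _ _ ?_
    refine Tendsto.const_mul_atTop hσ ?_
    exact tendsto_atTop_add_const_right _ _ tendsto_id
  refine tendsto_atTop_mono' _ ?_ hlim
  filter_upwards [eventually_gt_atTop (t₁ + ρ x / σ), eventually_gt_atTop t₁] with t ht ht'
  have h1 := h t ht' (EReal.coe_lt_top _) x
  refine le_trans (le_of_eq ?_) h1
  rw [max_eq_left]
  have h2 : ρ x < σ * (t - t₁) := by
    have h3 : ρ x / σ < t - t₁ := by linarith
    rw [div_lt_iff₀ hσ] at h3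
    linarith
  linarith

end Pool.Agent.MP909527
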