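import Pool.Agent.Work.MP_909527_an.Chain

/-! # The regularised nonlinearity and the truncation profiles -/

set_option autoImplicit false

open MeasureTheory Set Filter Topology
open scoped ContDiff InnerProductSpace ENNReal

namespace Pool.Agent.MP909527

/-- `β_ε`, the inverse of `Φ_ε(r) = (r+ε)^m - ε^m` on `[0,∞)`. -/
noncomputable def beta (m ε s : ℝ) : ℝ := (max s 0 + ε ^ m) ^ (1 / m) - ε + min s 0

/-- `Φ_ε(r) = (r+ε)^m - ε^m`. -/
noncomputable def Phi (m ε r : ℝ) : ℝ := (r + ε) ^ m - ε ^ m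

section

variable {m ε : ℝ}

theorem root_pow (hm : 1 < m) (hε : 0 < ε) {s : ℝ} (hs : 0 ≤ s) :
    ((s + ε ^ m) ^ (1 / m)) ^ m = s + ε ^ m := by
  rw [← Real.rpow_mul (by positivity), one_div_mul_cancel (by linarith), Real.rpow_one]

theorem le_root (hm : 1 < m) (hε : 0 < ε) {s : ℝ} (hs : 0 ≤ s) :
    ε ≤ (s + ε ^ m) ^ (1 / m) := by
  have h1 : ε = (ε ^ m) ^ (1 / m) := by
    rw [← Real.rpow_mul hε.le, mul_one_div_cancel (by linarith), Real.rpow_one]
  conv_lhs => rw [h1]
  exact Real.rpow_le_rpow (by positivity) (by linarith) (by positivity)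

theorem root_mono (hm : 1 < m) (hε : 0 < ε) {s t : ℝ} (hs : 0 ≤ s) (hst : s ≤ t) :
    (s + ε ^ m) ^ (1 / m) ≤ (t + ε ^ m) ^ (1 / m) :=
  Real.rpow_le_rpow (by positivity) (by linarith) (by positivity)

theorem root_lip (hm : 1 < m) (hε : 0 < ε) {s t : ℝ} (hs : 0 ≤ s) (hst : s ≤ t) :
    (t + ε ^ m) ^ (1 / m) - (s + ε ^ m) ^ (1 / m) ≤ (ε ^ (m - 1))⁻¹ * (t - s) := by
  set A := (t + ε ^ m) ^ (1 / m)
  set B := (s + ε ^ m) ^ (1 / m)
  have hA : A ^ m = t + ε ^ m := root_pow hm hε (hs.trans hst)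
  have hB : B ^ m = s + ε ^ m := root_pow hm hε hs
  have hBA : B ≤ A := root_mono hm hε hs hst
  have hεA : ε ≤ A := le_root hm hε (hs.trans hst)
  have hB0 : 0 < B := lt_of_lt_of_le hε (le_root hm hε hs)
  have hA0 : 0 < A := lt_of_lt_of_le hε hεA
  have e1 : A ^ m = A * A ^ (m - 1) := by
    rw [← Real.rpow_one_add' hA0.le (by linarith)]; congr 1; ring
  have e2 : B ^ m = B * B ^ (m - 1) := by
    rw [← Real.rpow_one_add' hB0.le (by linarith)]; congr 1; ring
  have e3 : B ^ (m - 1) ≤ A ^ (m - 1) := Real.rpow_le_rpow hB0.le hBA (by linarith)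
  have e4 : ε ^ (m - 1) ≤ A ^ (m - 1) := Real.rpow_le_rpow hε.le hεA (by linarith)
  have hpos : 0 < ε ^ (m - 1) := by positivity
  have e5 : ε ^ (m - 1) * (A - B) ≤ t - s := by
    have h1 : t - s = A * A ^ (m - 1) - B * B ^ (m - 1) := by rw [← e1, ← e2, hA, hB]; ring
    rw [h1]
    nlinarith [mul_le_mul_of_nonneg_left e3 hB0.le,
      mul_le_mul_of_nonneg_right e4 (sub_nonneg.2 hBA)]
  calc A - B = (ε ^ (m - 1))⁻¹ * (ε ^ (m - 1) * (A - B)) := by field_simp
    _ ≤ _ := mul_le_mul_of_nonneg_left e5 (by positivity)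

theorem beta_mono (hm : 1 < m) (hε : 0 < ε) : Monotone (beta m ε) := by
  intro s t hst
  have h1 := root_mono hm hε (le_max_right s 0) (max_le_max_right 0 hst)
  have h2 := min_le_min_right 0 hst
  simp only [beta]
  linarith

theorem beta_lip (hm : 1 < m) (hε : 0 < ε) (s t : ℝ) :
    |beta m ε s - beta m ε t| ≤ ((ε ^ (m - 1))⁻¹ + 1) * |s - t| := by
  wlog hst : t ≤ s generalizing s t
  · have := this t s (le_of_not_ge hst)
    rwa [abs_sub_comm (beta m ε t), abs_sub_comm t] at this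
  rw [abs_of_nonneg (sub_nonneg.2 (beta_mono hm hε hst)), abs_of_nonneg (sub_nonneg.2 hst)]
  have h1 := root_lip hm hε (le_max_right t 0) (max_le_max_right 0 hst)
  have h2 : max s 0 - max t 0 ≤ s - t := by
    rcases le_total s 0 with h | h <;> rcases le_total t 0 with h' | h' <;>
      simp [h, h'] <;> linarith
  have h3 : min s 0 - min t 0 ≤ s - t := by
    rcases le_total s 0 with h | h <;> rcases le_total t 0 with h' | h' <;>
      simp [h, h'] <;> linarith
  have hpos : 0 < (ε ^ (m - 1))⁻¹ := by positivity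
  have h4 := mul_le_mul_of_nonneg_left h2 hpos.le
  simp only [beta]
  nlinarith

theorem beta_continuous (hm : 1 < m) (hε : 0 < ε) : Continuous (beta m ε) := by
  have : LipschitzWith (Real.toNNReal ((ε ^ (m - 1))⁻¹ + 1)) (beta m ε) := by
    refine LipschitzWith.of_dist_le_mul fun s t => ?_
    rw [Real.dist_eq, Real.dist_eq, Real.coe_toNNReal _ (by positivity)]
    exact beta_lip hm hε s t
  exact this.continuous

theorem beta_of_nonneg {s : ℝ} (hs : 0 ≤ s) : beta m ε s = (s + ε ^ m) ^ (1 / m) - ε := by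
  simp [beta, hs]

theorem beta_zero (hm : 1 < m) (hε : 0 < ε) : beta m ε 0 = 0 := by
  rw [beta_of_nonneg le_rfl, zero_add, ← Real.rpow_mul hε.le, mul_one_div_cancel (by linarith),
    Real.rpow_one, sub_self]

theorem beta_nonneg (hm : 1 < m) (hε : 0 < ε) {s : ℝ} (hs : 0 ≤ s) : 0 ≤ beta m ε s := by
  rw [← beta_zero hm hε]; exact beta_mono hm hε hs

theorem beta_neg (hm : 1 < m) (hε : 0 < ε) {s : ℝ} (hs : s < 0) : beta m ε s < 0 := by
  have h1 : beta m ε s = s := by
    have h2 := beta_zero hm hε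
    rw [beta_of_nonneg le_rfl] at h2
    simp only [beta, max_eq_right hs.le, min_eq_left hs.le]
    linarith
  rw [h1]; exact hs

theorem Phi_beta (hm : 1 < m) (hε : 0 < ε) {s : ℝ} (hs : 0 ≤ s) : Phi m ε (beta m ε s) = s := by
  rw [Phi, beta_of_nonneg hs, sub_add_cancel, root_pow hm hε hs]
  ring

/-- `v^m - ε^m > s ↔ v - ε > β(s)` for `v ≥ 0`, `s ≥ 0`. -/
theorem lt_beta_iff (hm : 1 < m) (hε : 0 < ε) {s v : ℝ} (hs : 0 ≤ s) (hv : 0 ≤ v) :
    0 < v ^ m - (s + ε ^ m) ↔ 0 < v - ε - beta m ε s := by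
  rw [beta_of_nonneg hs]
  have h1 : (0 < v - ε - ((s + ε ^ m) ^ (1 / m) - ε)) ↔ (s + ε ^ m) ^ (1 / m) < v := by
    constructor <;> intro h <;> linarith
  rw [h1, sub_pos]
  have h2 : s + ε ^ m = ((s + ε ^ m) ^ (1 / m)) ^ m := (root_pow hm hε hs).symm
  conv_lhs => rw [h2]
  exact Real.rpow_lt_rpow_iff (by positivity) hv (by linarith)

/-- superadditivity of `x ^ m` -/
theorem rpow_sub_le (hm : 1 < m) {a b : ℝ} (hb : 0 ≤ b) (hab : b ≤ a) :
    (a - b) ^ m ≤ a ^ m - b ^ m := by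
  have h := Real.add_rpow_le_rpow_add (sub_nonneg.2 hab) hb hm.le
  rw [sub_add_cancel] at h
  linarith

theorem Phi_mono_lower (hm : 1 < m) (hε : 0 < ε) {r s : ℝ} (hr : 0 ≤ r) (hs : 0 ≤ s) :
    |r - s| ^ (m + 1) ≤ (r - s) * (Phi m ε r - Phi m ε s) := by
  wlog h : s ≤ r generalizing r s
  · have := this hs hr (le_of_not_ge h)
    rw [abs_sub_comm] at this
    nlinarith
  rw [abs_of_nonneg (sub_nonneg.2 h)]
  have h1 : (r - s) ^ m ≤ Phi m ε r - Phi m ε s := by
    have := rpow_sub_le hm (a := r + ε) (b := s + ε) (by linarith) (by linarith)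
    simp only [Phi]
    have e : r + ε - (s + ε) = r - s := by ring
    rw [e] at this
    linarith
  have h2 : (r - s) ^ (m + 1) = (r - s) * (r - s) ^ m := by
    rw [← Real.rpow_one_add' (sub_nonneg.2 h) (by linarith)]; congr 1; ring
  rw [h2]
  exact mul_le_mul_of_nonneg_left h1 (sub_nonneg.2 h)

end

/-! ## truncation profiles -/

/-- `q_δ(s)`: smooth, `0` for `s ≤ 0`, `1` for `s ≥ δ`. -/
noncomputable def qd (δ s : ℝ) : ℝ := Real.smoothTransition (s / δ)

theorem deriv_smoothTransition_bound : ∃ C, ∀ s, |deriv Real.smoothTransition s| ≤ C := by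
  have hc : ContDiff ℝ 1 Real.smoothTransition := Real.smoothTransition.contDiff
  obtain ⟨C, hC⟩ := (isCompact_Icc (a := (0 : ℝ)) (b := 1)).exists_bound_of_continuousOn
    (hc.continuous_deriv le_rfl).continuousOn
  refine ⟨max C 0, fun s => ?_⟩
  by_cases hs : s ∈ Icc (0 : ℝ) 1
  · exact (hC s hs).trans (le_max_left _ _)
  · have h0 : deriv Real.smoothTransition s = 0 := by
      rw [mem_Icc, not_and_or, not_le, not_le] at hs
      rcases hs with hs | hs
      · have : Real.smoothTransition =ᶠ[𝓝 s] fun _ => 0 := by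
          filter_upwards [Iio_mem_nhds hs] with t ht
          exact Real.smoothTransition.zero_of_nonpos (le_of_lt ht)
        rw [this.deriv_eq]; simp
      · have : Real.smoothTransition =ᶠ[𝓝 s] fun _ => 1 := by
          filter_upwards [Ioi_mem_nhds hs] with t ht
          exact Real.smoothTransition.one_of_one_le (le_of_lt ht)
        rw [this.deriv_eq]; simp
    rw [h0, abs_zero]
    exact le_max_right _ _

theorem qd_trunc {δ : ℝ} (hδ : 0 < δ) : ∃ C, Trunc (qd δ) C := by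
  obtain ⟨C, hC⟩ := deriv_smoothTransition_bound
  have hd : ∀ s, deriv (qd δ) s = deriv Real.smoothTransition (s / δ) * δ⁻¹ := by
    intro s
    have h1 : HasDerivAt Real.smoothTransition (deriv Real.smoothTransition (s / δ)) (s / δ) :=
      ((Real.smoothTransition.contDiff (n := 1)).differentiable (by simp) _).hasDerivAt
    have h2 : HasDerivAt (fun t : ℝ => t / δ) (δ⁻¹) s := by
      simpa [div_eq_mul_inv] using (hasDerivAt_id s).mul_const δ⁻¹
    exact (h1.comp s h2).deriv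
  refine ⟨C * δ⁻¹, ?_, ?_, ?_, ?_⟩
  · exact (Real.smoothTransition.contDiff (n := 1)).comp (contDiff_id.div_const δ)
  · intro s hs
    exact Real.smoothTransition.zero_of_nonpos (div_nonpos_of_nonpos_of_nonneg hs hδ.le)
  · intro s
    exact Real.smoothTransition.nonneg _
  · intro s
    rw [hd, abs_mul, abs_of_pos (inv_pos.2 hδ)]
    exact mul_le_mul_of_nonneg_right (hC _) (inv_pos.2 hδ).le

theorem qd_mono {δ : ℝ} (hδ : 0 < δ) : Monotone (qd δ) := by
  intro s t hst
  exact Real.smoothTransition.monotone (div_le_div_of_nonneg_right hst hδ.le)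

theorem qd_deriv_nonneg {δ : ℝ} (hδ : 0 < δ) (s : ℝ) : 0 ≤ deriv (qd δ) s :=
  (qd_mono hδ).deriv_nonneg

theorem qd_pos {δ : ℝ} (hδ : 0 < δ) {s : ℝ} (hs : 0 < s) : 0 < qd δ s :=
  Real.smoothTransition.pos_of_pos (div_pos hs hδ)

theorem qd_le_one (δ s : ℝ) : qd δ s ≤ 1 := Real.smoothTransition.le_one _

theorem qd_nonneg (δ s : ℝ) : 0 ≤ qd δ s := Real.smoothTransition.nonneg _

theorem qd_zero {δ : ℝ} (hδ : 0 < δ) {s : ℝ} (hs : s ≤ 0) : qd δ s = 0 :=
  Real.smoothTransition.zero_of_nonpos (div_nonpos_of_nonpos_of_nonneg hs hδ.le)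

theorem qd_one {δ : ℝ} (hδ : 0 < δ) {s : ℝ} (hs : δ ≤ s) : qd δ s = 1 :=
  Real.smoothTransition.one_of_one_le (by rwa [le_div_iff₀ hδ, one_mul])

/-- `q_{1/(n+1)}(s) → 1_{s>0}`. -/
theorem qd_tendsto (s : ℝ) : Tendsto (fun n : ℕ => qd (1 / ((n : ℝ) + 1)) s) atTop
    (𝓝 (if 0 < s then 1 else 0)) := by
  split_ifs with h
  · refine tendsto_const_nhds.congr' ?_
    have h1 : ∀ᶠ n : ℕ in atTop, 1 / ((n : ℝ) + 1) < s :=
      tendsto_one_div_add_atTop_nhds_zero_nat.eventually (gt_mem_nhds h)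
    filter_upwards [h1] with n hn
    exact (qd_one (by positivity) hn.le).symm
  · refine tendsto_const_nhds.congr fun n => ?_
    exact (qd_zero (by positivity) (not_lt.1 h)).symm

end Pool.Agent.MP909527
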