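import Pool.Agent.Work.MP_909527_an.Solve

/-! # Truncations `q(f - b)` of elements of `H^1_0` -/

set_option autoImplicit false

open MeasureTheory Set Filter Topology
open scoped ContDiff InnerProductSpace ENNReal

namespace Pool.Agent.MP909527

variable {N : ℕ}

/-- The closure of the nonnegative `C^1_c` functions. -/
def Wp (N : ℕ) (R : ℝ) : Set (HH N R) :=
  closure {Φ | ∃ (φ : E N → ℝ) (hφ : C1c R φ), (∀ x, 0 ≤ φ x) ∧
    Φ = pr φ (gradient φ) hφ.memLp hφ.memLp_grad}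

theorem Wp_subset_W (R : ℝ) : Wp N R ⊆ (W N R : Set (HH N R)) := by
  refine closure_minimal ?_ (isClosed_W R)
  rintro Φ ⟨φ, hφ, -, rfl⟩
  exact hφ.mem_W

theorem Wp_le {R : ℝ} {F G : HH N R → ℝ} (hF : Continuous F) (hG : Continuous G)
    (h : ∀ (φ : E N → ℝ) (hφ : C1c R φ), (∀ x, 0 ≤ φ x) →
      F (pr φ (gradient φ) hφ.memLp hφ.memLp_grad)
      ≤ G (pr φ (gradient φ) hφ.memLp hφ.memLp_grad)) : ∀ Φ ∈ Wp N R, F Φ ≤ G Φ := by
  intro Φ hΦ
  have hcl : IsClosed {Φ : HH N R | F Φ ≤ G Φ} := isClosed_le hF hG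
  refine (closure_minimal ?_ hcl) hΦ
  rintro Ψ ⟨φ, hφ, h0, rfl⟩
  exact h φ hφ h0

/-- A truncation profile. -/
structure Trunc (q : ℝ → ℝ) (C : ℝ) : Prop where
  smooth : ContDiff ℝ 1 q
  zero : ∀ s ≤ 0, q s = 0
  nonneg : ∀ s, 0 ≤ q s
  bound : ∀ s, |deriv q s| ≤ C

theorem Trunc.lip {q : ℝ → ℝ} {C : ℝ} (h : Trunc q C) (s t : ℝ) : |q s - q t| ≤ C * |s - t| := by
  have := Convex.norm_image_sub_le_of_norm_deriv_le (f := q) (C := C) (s := univ) (x := t) (y := s)
    (fun x _ => (h.smooth.differentiable one_ne_zero) x) (fun x _ => h.bound x) convex_univ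
    (mem_univ _) (mem_univ _)
  simpa [Real.norm_eq_abs] using this

theorem Trunc.C_nonneg {q : ℝ → ℝ} {C : ℝ} (h : Trunc q C) : 0 ≤ C :=
  (abs_nonneg _).trans (h.bound 0)

theorem Trunc.deriv_zero {q : ℝ → ℝ} {C : ℝ} (h : Trunc q C) {s : ℝ} (hs : s ≤ 0) :
    deriv q s = 0 := by
  rcases hs.lt_or_eq with hs | rfl
  · have : q =ᶠ[𝓝 s] fun _ => 0 := by
      filter_upwards [Iio_mem_nhds hs] with t ht
      exact h.zero t (le_of_lt ht)
    rw [this.deriv_eq]; simp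
  · -- minimum at zero
    have hmin : IsLocalMin q 0 := by
      filter_upwards with t
      rw [h.zero 0 le_rfl]
      exact h.nonneg t
    exact hmin.deriv_eq_zero

theorem Trunc.comp {R : ℝ} {q : ℝ → ℝ} {C : ℝ} (h : Trunc q C) {φ b : E N → ℝ} (hφ : C1c R φ)
    (hb : ContDiff ℝ 1 b) (hb0 : ∀ x, 0 ≤ b x) : C1c R (fun x => q (φ x - b x)) := by
  have hsub : tsupport (fun x => q (φ x - b x)) ⊆ tsupport φ := by
    refine closure_mono ?_
    intro x hx
    rw [Function.mem_support] at hx ⊢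
    intro h0
    apply hx
    rw [h0]
    exact h.zero _ (by linarith [hb0 x])
  refine ⟨h.smooth.comp (hφ.smooth.sub hb), ?_, hsub.trans hφ.supp⟩
  exact HasCompactSupport.of_support_subset_isCompact hφ.cpt (subset_closure.trans hsub)

theorem Trunc.comp_grad {R : ℝ} {q : ℝ → ℝ} {C : ℝ} (h : Trunc q C) {φ b : E N → ℝ}
    (hφ : C1c R φ) (hb : ContDiff ℝ 1 b) (x : E N) :
    gradient (fun x => q (φ x - b x)) x
      = deriv q (φ x - b x) • (gradient φ x - gradient b x) := by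
  have hφd := hφ.smooth.differentiable one_ne_zero x
  have hbd := hb.differentiable one_ne_zero x
  rw [gradient_comp (φ := fun x => φ x - b x) (hφd.sub hbd)
    ((h.smooth.differentiable one_ne_zero) _)]
  congr 1
  rw [gradient_eq, gradient_eq, gradient_eq, ← map_sub]
  congr 1
  exact fderiv_sub hφd hbd

theorem memLp_continuous {R : ℝ} {G : Type*} [NormedAddCommGroup G] {f : E N → G}
    (hf : Continuous f) {q : ℝ≥0∞} : MemLp f q (mu N R) := by
  obtain ⟨C, hC⟩ := (isCompact_closedBall (0 : E N) R).exists_bound_of_continuousOn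
    hf.continuousOn
  refine MemLp.of_bound hf.aestronglyMeasurable C ?_
  filter_upwards [ae_mem_ball R] with x hx
  exact hC x hx

theorem Trunc.memLp1 {R : ℝ} {q : ℝ → ℝ} {C : ℝ} (h : Trunc q C) {f b : E N → ℝ}
    (hf : MemLp f 2 (mu N R)) (hb : ContDiff ℝ 1 b) :
    MemLp (fun x => q (f x - b x)) 2 (mu N R) := by
  have h1 : MemLp (fun x => f x - b x) 2 (mu N R) := hf.sub (memLp_continuous hb.continuous)
  refine MemLp.of_le_mul (c := C) h1 (h.smooth.continuous.comp_aestronglyMeasurable h1.1) ?_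
  refine ae_of_all _ fun x => ?_
  have := h.lip (f x - b x) 0
  rw [h.zero 0 le_rfl] at this
  simpa [Real.norm_eq_abs] using this

theorem Trunc.memLp2 {R : ℝ} {q : ℝ → ℝ} {C : ℝ} (h : Trunc q C) {f b : E N → ℝ}
    {F : E N → E N} (hf : MemLp f 2 (mu N R)) (hF : MemLp F 2 (mu N R)) (hb : ContDiff ℝ 1 b) :
    MemLp (fun x => deriv q (f x - b x) • (F x - gradient b x)) 2 (mu N R) := by
  have h1 : MemLp (fun x => F x - gradient b x) 2 (mu N R) :=
    hF.sub (memLp_continuous (continuous_gradient hb))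
  have h2 : AEStronglyMeasurable (fun x => f x - b x) (mu N R) :=
    hf.1.sub hb.continuous.aestronglyMeasurable
  refine MemLp.of_le_mul (c := C) h1 ?_ ?_
  · exact ((h.smooth.continuous_deriv le_rfl).comp_aestronglyMeasurable h2).smul h1.1
  · refine ae_of_all _ fun x => ?_
    rw [norm_smul]
    exact mul_le_mul_of_nonneg_right (h.bound _) (norm_nonneg _)

theorem chain {R : ℝ} {q : ℝ → ℝ} {C : ℝ} (h : Trunc q C) {b : E N → ℝ}
    (hb : ContDiff ℝ 1 b) (hb0 : ∀ x, 0 ≤ b x) {Φ : HH N R} (hΦ : Φ ∈ W N R) :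
    pr (fun x => q (Φ.fst x - b x)) (fun x => deriv q (Φ.fst x - b x) • (Φ.snd x - gradient b x))
      (h.memLp1 (Lp.memLp Φ.fst) hb) (h.memLp2 (Lp.memLp Φ.fst) (Lp.memLp Φ.snd) hb) ∈ Wp N R := by
  set T := pr (fun x => q (Φ.fst x - b x))
    (fun x => deriv q (Φ.fst x - b x) • (Φ.snd x - gradient b x))
      (h.memLp1 (Lp.memLp Φ.fst) hb) (h.memLp2 (Lp.memLp Φ.fst) (Lp.memLp Φ.snd) hb) with hT
  -- approximating sequence
  obtain ⟨s, hs, hsΦ⟩ := mem_closure_iff_seq_limit.1 (show Φ ∈ closure (W0 N R : Set (HH N R)) from hΦ)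
  choose φ hφ hsφ using fun n => eq_pr_of_mem_W0 (hs n)
  have hs1 : Tendsto (fun n => (s n).fst) atTop (𝓝 Φ.fst) :=
    (show Continuous fun Φ : HH N R => Φ.fst by fun_prop).tendsto Φ |>.comp hsΦ
  have hs2 : Tendsto (fun n => (s n).snd) atTop (𝓝 Φ.snd) :=
    (show Continuous fun Φ : HH N R => Φ.snd by fun_prop).tendsto Φ |>.comp hsΦ
  -- a.e. convergent subsequence
  obtain ⟨k, hk, hae⟩ := (tendstoInMeasure_of_tendsto_Lp hs1).exists_seq_tendsto_ae
  have hφe : ∀ n, ((s n).fst : E N → ℝ) =ᵐ[mu N R] φ n := fun n => by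
    rw [hsφ n]; exact pr_fst _ _ _ _
  have hφg : ∀ n, ((s n).snd : E N → E N) =ᵐ[mu N R] gradient (φ n) := fun n => by
    rw [hsφ n]; exact pr_snd _ _ _ _
  -- the candidates
  let ψ : ℕ → E N → ℝ := fun n x => q (φ (k n) x - b x)
  have hψ : ∀ n, C1c R (ψ n) := fun n => h.comp (hφ (k n)) hb hb0
  let Ψ : ℕ → HH N R := fun n => pr (ψ n) (gradient (ψ n)) (hψ n).memLp (hψ n).memLp_grad
  have hΨmem : ∀ n, Ψ n ∈ {Φ : HH N R | ∃ (φ : E N → ℝ) (hφ : C1c R φ), (∀ x, 0 ≤ φ x) ∧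
      Φ = pr φ (gradient φ) hφ.memLp hφ.memLp_grad} :=
    fun n => ⟨ψ n, hψ n, fun x => h.nonneg _, rfl⟩
  refine mem_closure_iff_seq_limit.2 ⟨Ψ, hΨmem, ?_⟩
  -- remainder
  have hS : ∀ n, MemLp (fun x => (deriv q ((s (k n)).fst x - b x) - deriv q (Φ.fst x - b x)) •
      (Φ.snd x - gradient b x)) 2 (mu N R) := by
    intro n
    have h1 : MemLp (fun x => Φ.snd x - gradient b x) 2 (mu N R) :=
      (Lp.memLp Φ.snd).sub (memLp_continuous (continuous_gradient hb))
    have h2 : AEStronglyMeasurable (fun x => (s (k n)).fst x - b x) (mu N R) :=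
      (Lp.memLp (s (k n)).fst).1.sub hb.continuous.aestronglyMeasurable
    have h3 : AEStronglyMeasurable (fun x => Φ.fst x - b x) (mu N R) :=
      (Lp.memLp Φ.fst).1.sub hb.continuous.aestronglyMeasurable
    refine MemLp.of_le_mul (c := 2 * C) h1 ?_ ?_
    · exact (((h.smooth.continuous_deriv le_rfl).comp_aestronglyMeasurable h2).sub
        ((h.smooth.continuous_deriv le_rfl).comp_aestronglyMeasurable h3)).smul h1.1
    · refine ae_of_all _ fun x => ?_
      rw [norm_smul]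
      refine mul_le_mul_of_nonneg_right ?_ (norm_nonneg _)
      have a1 := h.bound ((s (k n)).fst x - b x)
      have a2 := h.bound (Φ.fst x - b x)
      rw [Real.norm_eq_abs]
      calc _ ≤ |deriv q ((s (k n)).fst x - b x)| + |deriv q (Φ.fst x - b x)| := abs_sub _ _
        _ ≤ _ := by linarith
  let S : ℕ → Lp (E N) 2 (mu N R) := fun n => (hS n).toLp _
  have hSlim : Tendsto (fun n => ‖S n‖) atTop (𝓝 0) := by
    have h1 : Tendsto (fun n => ‖S n‖ ^ 2) atTop (𝓝 0) := by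
      have h2 : ∀ n, ‖S n‖ ^ 2 = ∫ x, ‖(deriv q ((s (k n)).fst x - b x)
          - deriv q (Φ.fst x - b x)) • (Φ.snd x - gradient b x)‖ ^ 2 ∂(mu N R) := by
        intro n
        rw [norm_sq_Lp]
        refine integral_congr_ae ?_
        filter_upwards [(hS n).coeFn_toLp] with x hx
        rw [hx]
      simp only [h2]
      have h3 : MemLp (fun x => Φ.snd x - gradient b x) 2 (mu N R) :=
        (Lp.memLp Φ.snd).sub (memLp_continuous (continuous_gradient hb))
      have h0 : (∫ _x : E N, (0 : ℝ) ∂(mu N R)) = 0 := by simp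
      rw [← h0]
      refine tendsto_integral_of_dominated_convergence
        (fun x => (2 * C) ^ 2 * ‖Φ.snd x - gradient b x‖ ^ 2) ?_ ?_ ?_ ?_
      · intro n
        exact ((hS n).1.norm.pow 2)
      · exact (h3.integrable_norm_pow (by norm_num)).const_mul _
      · intro n
        refine ae_of_all _ fun x => ?_
        rw [Real.norm_eq_abs, abs_of_nonneg (sq_nonneg _), norm_smul, mul_pow]
        refine mul_le_mul_of_nonneg_right ?_ (sq_nonneg _)
        refine pow_le_pow_left₀ (norm_nonneg _) ?_ 2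
        have a1 := h.bound ((s (k n)).fst x - b x)
        have a2 := h.bound (Φ.fst x - b x)
        rw [Real.norm_eq_abs]
        calc _ ≤ |deriv q ((s (k n)).fst x - b x)| + |deriv q (Φ.fst x - b x)| := abs_sub _ _
          _ ≤ _ := by linarith
      · filter_upwards [hae] with x hx
        have h4 : Tendsto (fun n => deriv q ((s (k n)).fst x - b x)) atTop
            (𝓝 (deriv q (Φ.fst x - b x))) :=
          ((h.smooth.continuous_deriv le_rfl).tendsto _).comp (hx.sub_const (b x))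
        have h5 : Tendsto (fun n => ‖(deriv q ((s (k n)).fst x - b x)
          - deriv q (Φ.fst x - b x)) • (Φ.snd x - gradient b x)‖ ^ 2) atTop
            (𝓝 (‖(deriv q (Φ.fst x - b x) - deriv q (Φ.fst x - b x)) •
              (Φ.snd x - gradient b x)‖ ^ 2)) :=
          (((h4.sub_const _).smul_const _).norm.pow 2)
        simpa using h5
    have h6 : Tendsto (fun n => √(‖S n‖ ^ 2)) atTop (𝓝 (√0)) :=
      (Real.continuous_sqrt.tendsto _).comp h1
    simpa [Real.sqrt_sq (norm_nonneg _)] using h6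
  have hΨ1 : ∀ n, ((Ψ n - T).fst : E N → ℝ) =ᵐ[mu N R]
      fun x => q ((s (k n)).fst x - b x) - q (Φ.fst x - b x) := by
    intro n
    have h5 : (Ψ n - T).fst = (Ψ n).fst - T.fst := rfl
    rw [h5]
    filter_upwards [Lp.coeFn_sub (Ψ n).fst T.fst, pr_fst (ψ n) (gradient (ψ n)) (hψ n).memLp
      (hψ n).memLp_grad, pr_fst _ _ (h.memLp1 (Lp.memLp Φ.fst) hb)
        (h.memLp2 (Lp.memLp Φ.fst) (Lp.memLp Φ.snd) hb), hφe (k n)] with x h1 h2 h3 h4
    rw [h1, Pi.sub_apply]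
    rw [h4]
    exact congrArg₂ (· - ·) h2 h3
  have hΨ2 : ∀ n, ((Ψ n - T).snd : E N → E N) =ᵐ[mu N R]
      fun x => deriv q ((s (k n)).fst x - b x) • ((s (k n)).snd x - Φ.snd x)
        + (deriv q ((s (k n)).fst x - b x) - deriv q (Φ.fst x - b x)) •
      (Φ.snd x - gradient b x) := by
    intro n
    have h5 : (Ψ n - T).snd = (Ψ n).snd - T.snd := rfl
    rw [h5]
    filter_upwards [Lp.coeFn_sub (Ψ n).snd T.snd, pr_snd (ψ n) (gradient (ψ n)) (hψ n).memLp
      (hψ n).memLp_grad, pr_snd _ _ (h.memLp1 (Lp.memLp Φ.fst) hb)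
        (h.memLp2 (Lp.memLp Φ.fst) (Lp.memLp Φ.snd) hb), hφe (k n), hφg (k n)]
        with x h1 h2 h3 h4 h6
    rw [h1, Pi.sub_apply]
    refine (congrArg₂ (· - ·) h2 h3).trans ?_
    simp only [ψ]
    rw [h.comp_grad (hφ (k n)) hb x, h4, h6]
    module
  have hn1 : ∀ n, ‖(Ψ n - T).fst‖ ≤ C * ‖(s (k n)).fst - Φ.fst‖ := by
    intro n
    refine Lp.norm_le_mul_norm_of_ae_le_mul ?_
    filter_upwards [hΨ1 n, Lp.coeFn_sub (s (k n)).fst Φ.fst] with x h1 h2
    rw [h1, h2, Pi.sub_apply, Real.norm_eq_abs, Real.norm_eq_abs]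
    refine (h.lip _ _).trans (le_of_eq ?_)
    congr 2; ring
  have hn2 : ∀ n, ‖(Ψ n - T).snd‖ ≤ C * ‖(s (k n)).snd - Φ.snd‖ + ‖S n‖ := by
    intro n
    have h1 : ‖(Ψ n - T).snd - S n‖ ≤ C * ‖(s (k n)).snd - Φ.snd‖ := by
      refine Lp.norm_le_mul_norm_of_ae_le_mul ?_
      filter_upwards [hΨ2 n, Lp.coeFn_sub (s (k n)).snd Φ.snd,
        Lp.coeFn_sub (Ψ n - T).snd (S n), (hS n).coeFn_toLp] with x h1 h2 h3 h4
      rw [h3, h2, Pi.sub_apply, Pi.sub_apply, h1, h4, add_sub_cancel_right, norm_smul]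
      exact mul_le_mul_of_nonneg_right (h.bound _) (norm_nonneg _)
    calc ‖(Ψ n - T).snd‖ = ‖((Ψ n - T).snd - S n) + S n‖ := by rw [sub_add_cancel]
      _ ≤ ‖(Ψ n - T).snd - S n‖ + ‖S n‖ := norm_add_le _ _
      _ ≤ _ := by linarith
  rw [tendsto_iff_norm_sub_tendsto_zero]
  have hnorm : ∀ n, ‖Ψ n - T‖ ≤ C * ‖(s (k n)).fst - Φ.fst‖
      + (C * ‖(s (k n)).snd - Φ.snd‖ + ‖S n‖) := by
    intro n
    have h1 : ‖Ψ n - T‖ ^ 2 ≤ (‖(Ψ n - T).fst‖ + ‖(Ψ n - T).snd‖) ^ 2 := by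
      rw [WithLp.prod_norm_sq_eq_of_L2]
      nlinarith [norm_nonneg (Ψ n - T).fst, norm_nonneg (Ψ n - T).snd,
        mul_nonneg (norm_nonneg (Ψ n - T).fst) (norm_nonneg (Ψ n - T).snd)]
    have h2 := abs_le_of_sq_le_sq' h1 (by positivity) |>.2
    linarith [hn1 n, hn2 n]
  refine squeeze_zero (fun n => norm_nonneg _) hnorm ?_
  have e1 : Tendsto (fun n => ‖(s (k n)).fst - Φ.fst‖) atTop (𝓝 0) :=
    (tendsto_iff_norm_sub_tendsto_zero.1 hs1).comp hk.tendsto_atTop
  have e2 : Tendsto (fun n => ‖(s (k n)).snd - Φ.snd‖) atTop (𝓝 0) :=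
    (tendsto_iff_norm_sub_tendsto_zero.1 hs2).comp hk.tendsto_atTop
  have := (e1.const_mul C).add ((e2.const_mul C).add hSlim)
  simpa using this

end Pool.Agent.MP909527
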