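import Pool.Agent.Work.MP_909527_an.Hm1

/-! # Auxiliary results for the comparison theorem -/

set_option autoImplicit false

open MeasureTheory Set Filter Topology
open scoped ContDiff InnerProductSpace ENNReal

namespace Pool.Agent.MP909527

variable {N : ℕ}

theorem exists_chain {α : Type*} (P : ℕ → α → Prop) (Q : ℕ → α → α → Prop) (n : ℕ) (x0 : α)
    (h0 : P 0 x0) (hs : ∀ k < n, ∀ x, P k x → ∃ y, P (k + 1) y ∧ Q k x y) :
    ∃ f : ℕ → α, f 0 = x0 ∧ (∀ k ≤ n, P k (f k)) ∧ ∀ k < n, Q k (f k) (f (k + 1)) := by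
  classical
  let g : ℕ → α → α := fun k x => if h : k < n ∧ P k x then (hs k h.1 x h.2).choose else x
  let f : ℕ → α := fun k => Nat.rec x0 (fun k x => g k x) k
  have hf : ∀ k (h : k < n ∧ P k (f k)), f (k + 1) = (hs k h.1 (f k) h.2).choose := by
    intro k h
    change g k (f k) = _
    simp only [g, dif_pos h]
  have hP : ∀ k ≤ n, P k (f k) := by
    intro k
    induction k with
    | zero => intro _; exact h0
    | succ k ih =>
      intro hk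
      have h1 : k < n ∧ P k (f k) := ⟨hk, ih (by omega)⟩
      rw [hf k h1]
      exact (hs k h1.1 (f k) h1.2).choose_spec.1
  refine ⟨f, rfl, hP, fun k hk => ?_⟩
  have h1 : k < n ∧ P k (f k) := ⟨hk, hP k hk.le⟩
  rw [hf k h1]
  exact (hs k h1.1 (f k) h1.2).choose_spec.2

theorem gronwall {n : ℕ} {θ : ℝ} (hθ : 0 ≤ θ) (hθ' : θ ≤ 1 / 2) {x r : ℕ → ℝ} (hx : x 0 ≤ 0)
    (hr : ∀ k, 0 ≤ r k) (h : ∀ k < n, (1 - θ) * x (k + 1) ≤ x k + r k) :
    ∀ k ≤ n, x k ≤ Real.exp (2 * θ * n) * ∑ j ∈ Finset.range n, r j := by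
  have h1 : 1 ≤ (1 - θ) * Real.exp (2 * θ) := by
    have := Real.add_one_le_exp (2 * θ)
    nlinarith
  have key : ∀ k ≤ n, x k ≤ Real.exp (2 * θ * k) * ∑ j ∈ Finset.range k, r j := by
    intro k
    induction k with
    | zero => intro _; simpa using hx
    | succ k ih =>
      intro hk
      have h2 := ih (by omega)
      have h3 := h k hk
      have hS : 0 ≤ ∑ j ∈ Finset.range k, r j := Finset.sum_nonneg fun j _ => hr j
      rw [Finset.sum_range_succ]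
      have hek : 1 ≤ Real.exp (2 * θ * k) := Real.one_le_exp (by positivity)
      have h4 : (1 - θ) * x (k + 1) ≤ Real.exp (2 * θ * k) * ((∑ j ∈ Finset.range k, r j) + r k) := by
        have := mul_le_mul_of_nonneg_right hek (hr k)
        nlinarith
      have h5 : Real.exp (2 * θ * ((k + 1 : ℕ) : ℝ)) = Real.exp (2 * θ * k) * Real.exp (2 * θ) := by
        rw [← Real.exp_add]; congr 1; push_cast; ring
      rw [h5]
      set Y := Real.exp (2 * θ * k) * ((∑ j ∈ Finset.range k, r j) + r k) with hY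
      have hY0 : 0 ≤ Y := mul_nonneg (Real.exp_pos _).le (add_nonneg hS (hr k))
      have h6 : (1 - θ) * x (k + 1) ≤ (1 - θ) * (Y * Real.exp (2 * θ)) := by
        have := mul_le_mul_of_nonneg_left h1 hY0
        nlinarith
      have h7 := le_of_mul_le_mul_left h6 (by linarith : (0 : ℝ) < 1 - θ)
      calc x (k + 1) ≤ Y * Real.exp (2 * θ) := h7
        _ = _ := by rw [hY]; ring
  intro k hk
  refine (key k hk).trans ?_
  have h2 : Real.exp (2 * θ * k) ≤ Real.exp (2 * θ * n) := by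
    apply Real.exp_le_exp.2
    have : (k : ℝ) ≤ n := by exact_mod_cast hk
    have h3 : (0 : ℝ) ≤ 2 * θ := by linarith
    nlinarith
  have h3 : ∑ j ∈ Finset.range k, r j ≤ ∑ j ∈ Finset.range n, r j :=
    Finset.sum_le_sum_of_subset_of_nonneg (Finset.range_mono hk) fun j _ _ => hr j
  exact mul_le_mul h2 h3 (Finset.sum_nonneg fun j _ => hr j) (Real.exp_pos _).le

/-- `s ≤ κ + κ^{-m} s^{m+1}` -/
theorem le_kappa {m κ s : ℝ} (hm : 1 < m) (hκ : 0 < κ) (hs : 0 ≤ s) :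
    s ≤ κ + (κ ^ m)⁻¹ * s ^ (m + 1) := by
  rcases le_total s κ with h | h
  · have : 0 ≤ (κ ^ m)⁻¹ * s ^ (m + 1) := by positivity
    linarith
  · have h1 : κ ^ m ≤ s ^ m := Real.rpow_le_rpow hκ.le h (by linarith)
    have h2 : s ^ (m + 1) = s * s ^ m := by
      rw [← Real.rpow_one_add' hs (by linarith)]; congr 1; ring
    have hpos : 0 < κ ^ m := by positivity
    have h3 : s ≤ (κ ^ m)⁻¹ * s ^ (m + 1) := by
      rw [h2, inv_mul_eq_div, le_div_iff₀ hpos]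
      exact mul_le_mul_of_nonneg_left h1 hs
    linarith

/-- pointwise bound of the difference of powers -/
theorem pow_diff {p m B : ℝ} (hp : 1 ≤ p) (hpm : p ≤ m) (hB : 0 ≤ B) :
    ∃ K ≥ 0, ∀ a b : ℝ, 0 ≤ a → 0 ≤ b → b ≤ B →
      |a ^ p - b ^ p| ≤ K * (|a - b| + |a - b| ^ (m + 1)) := by
  obtain ⟨L1, hL1, h1⟩ := rpow_diff_le (p := p) (V := B) hp
  obtain ⟨L2, hL2, h2⟩ := rpow_diff_le (p := p) (V := B + 1) hp
  refine ⟨L1 + L2 + (B + 1) ^ p, by positivity, fun a b ha hb hbB => ?_⟩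
  have hBp : 0 ≤ (B + 1) ^ p := by positivity
  have habs := abs_nonneg (a - b)
  have hpow : 0 ≤ |a - b| ^ (m + 1) := by positivity
  rcases le_total a b with h | h
  · have h3 := h1 b a ha h hbB
    have h4 : a ^ p ≤ b ^ p := Real.rpow_le_rpow ha h (by linarith)
    rw [abs_sub_comm, abs_of_nonneg (sub_nonneg.2 h4)]
    have h5 : |a - b| = b - a := by rw [abs_sub_comm, abs_of_nonneg (sub_nonneg.2 h)]
    rw [h5] at habs hpow ⊢
    have e1 : 0 ≤ (L2 + (B + 1) ^ p) * (b - a + (b - a) ^ (m + 1)) := by positivity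
    have e2 : 0 ≤ L1 * (b - a) ^ (m + 1) := by positivity
    nlinarith
  · have h4 : b ^ p ≤ a ^ p := Real.rpow_le_rpow hb h (by linarith)
    rw [abs_of_nonneg (sub_nonneg.2 h4)]
    have h5 : |a - b| = a - b := abs_of_nonneg (sub_nonneg.2 h)
    rw [h5] at habs hpow ⊢
    rcases le_total (a - b) 1 with h6 | h6
    · have h3 := h2 a b hb h (by linarith)
      have e1 : 0 ≤ (L1 + (B + 1) ^ p) * (a - b + (a - b) ^ (m + 1)) := by positivity
      have e2 : 0 ≤ L2 * (a - b) ^ (m + 1) := by positivity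
      nlinarith
    · have e0 : a ≤ (B + 1) * (a - b) := by nlinarith
      have e1 : a ^ p ≤ ((B + 1) * (a - b)) ^ p := Real.rpow_le_rpow ha e0 (by linarith)
      rw [Real.mul_rpow (by linarith) habs] at e1
      have e2 : (a - b) ^ p ≤ (a - b) ^ (m + 1) :=
        Real.rpow_le_rpow_of_exponent_le h6 (by linarith)
      have e3 := mul_le_mul_of_nonneg_left e2 hBp
      have e4 : 0 ≤ b ^ p := by positivity
      have e5 : 0 ≤ (L1 + L2) * (a - b + (a - b) ^ (m + 1)) := by positivity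
      have e6 : 0 ≤ (B + 1) ^ p * (a - b) := by positivity
      nlinarith

/-- uniform modulus of continuity -/
theorem modulus {f : ℝ → E N → ℝ} (hf : Continuous (Function.uncurry f)) (t₀ t₁ R : ℝ) {δ : ℝ}
    (hδ : 0 < δ) : ∃ ρ > 0, ∀ s ∈ Icc t₀ t₁, ∀ t ∈ Icc t₀ t₁, |s - t| ≤ ρ →
      ∀ x ∈ Metric.closedBall (0 : E N) R, |f s x - f t x| ≤ δ := by
  have hK : IsCompact (Icc t₀ t₁ ×ˢ Metric.closedBall (0 : E N) R) :=
    isCompact_Icc.prod (isCompact_closedBall _ _)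
  have huc := hK.uniformContinuousOn_of_continuous hf.continuousOn
  rw [Metric.uniformContinuousOn_iff] at huc
  obtain ⟨ρ, hρ, h⟩ := huc δ hδ
  refine ⟨ρ / 2, by positivity, fun s hs t ht hst x hx => ?_⟩
  have h1 := h (s, x) ⟨hs, hx⟩ (t, x) ⟨ht, hx⟩ (by
    rw [Prod.dist_eq, dist_self, Real.dist_eq, max_eq_left (abs_nonneg _)]
    linarith)
  rw [Real.dist_eq] at h1
  exact h1.le

/-- uniform bound -/
theorem unif_bound {f : ℝ → E N → ℝ} (hf : Continuous (Function.uncurry f)) (t₀ t₁ R : ℝ) :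
    ∃ B ≥ 1, ∀ s ∈ Icc t₀ t₁, ∀ x ∈ Metric.closedBall (0 : E N) R, |f s x| ≤ B := by
  have hK : IsCompact (Icc t₀ t₁ ×ˢ Metric.closedBall (0 : E N) R) :=
    isCompact_Icc.prod (isCompact_closedBall _ _)
  obtain ⟨C, hC⟩ := hK.exists_bound_of_continuousOn hf.continuousOn
  exact ⟨max C 1, le_max_right _ _, fun s hs x hx => (hC (s, x) ⟨hs, hx⟩).trans (le_max_left _ _)⟩

/-- `|Φ_ε(r) - r^m| ≤ L ε` for `0 ≤ r ≤ B`, `0 < ε ≤ 1`. -/
theorem Phi_sub {m B : ℝ} (hm : 1 < m) : ∃ L ≥ 0, ∀ r ε : ℝ, 0 ≤ r → r ≤ B → 0 < ε →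
    ε ≤ 1 → |Phi m ε r - r ^ m| ≤ L * ε := by
  obtain ⟨L1, hL1, h1⟩ := rpow_diff_le (p := m) (V := B + 1) hm.le
  refine ⟨L1 + 1, by positivity, fun r ε hr hrB hε hε1 => ?_⟩
  have h2 := h1 (r + ε) r hr (by linarith) (by linarith)
  have h3 : r ^ m ≤ (r + ε) ^ m := Real.rpow_le_rpow hr (by linarith) (by linarith)
  have h4 : ε ^ m ≤ ε := by
    have := Real.rpow_le_rpow_of_exponent_ge hε hε1 hm.le
    rwa [Real.rpow_one] at this
  have h5 : 0 ≤ ε ^ m := by positivity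
  rw [Phi, abs_le]
  constructor <;> nlinarith

theorem one_step (c : Coef N) (hN : 0 < N) {R m ε τ p L ϖ η C : ℝ} (hm : 1 < m) (hε : 0 < ε)
    (hτ : 0 < τ) (hp : 1 ≤ p) (hpm : p ≤ m) (hϖ : 0 ≤ ϖ) (hη : 0 ≤ η)
    (hC : ∀ x ∈ W N R, ‖x‖ ^ 2 ≤ C * En c x)
    {F V u u' v v' : E N → ℝ} (hF : Continuous F) (hF0 : ∀ x, 0 ≤ F x)
    (hV : ContDiff ℝ ∞ V) (hV0 : ∀ x, 0 ≤ V x)
    (hu : Continuous u) (hu' : Continuous u') (hu0 : ∀ x, 0 ≤ u x)
    (hϖV : ∀ x ∈ Metric.closedBall (0 : E N) R, |τ * Phi m ε (u x) - V x| ≤ τ * ϖ)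
    (herr : ∀ ψ : E N → ℝ, C1c R ψ →
        |(∫ x, ⟪c.A x (gradient V x), gradient ψ x⟫_ℝ)
          + ∫ x, (c.w x * (u x - u' x - F x)) * ψ x|
          ≤ η * ((∫ x, |ψ x|) + ∫ x, ‖gradient ψ x‖))
    (hv : Continuous v) (hv' : Continuous v') (hv0 : ∀ x, 0 ≤ v x)
    (hν : C1c R fun x => v x ^ m)
    (hsub : ∀ ψ : E N → ℝ, C1c R ψ → (∀ x, 0 ≤ ψ x) →
      ∫ x, c.w x * (v x - v' x) * ψ x
        ≤ τ * (-(∫ x, ⟪c.A x (gradient (fun y => v y ^ m) x), gradient ψ x⟫_ℝ)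
          + ∫ x, c.w x * v x ^ p * ψ x))
    (hL0 : 0 ≤ L)
    (hL : ∀ x ∈ Metric.closedBall (0 : E N) R, ∀ b : ℝ, 0 ≤ b → b ≤ v x →
      v x ^ p - b ^ p ≤ L * (v x - b))
    {a : E N → ℝ} {X : HH N R} (ha : MemLp a 2 (mu N R)) (ha0 : ∀ᵐ x ∂(mu N R), 0 ≤ a x)
    (hXr' : ∀ Ψ ∈ W N R, ∫ y, ⟪c.A y (X.snd y), Ψ.snd y⟫_ℝ ∂(mu N R)
      = ∫ y, c.w y * (a y - u' y) * Ψ.fst y ∂(mu N R)) :
    ∃ (b : E N → ℝ) (Y : HH N R), MemLp b 2 (mu N R) ∧ (∀ᵐ x ∂(mu N R), 0 ≤ b x) ∧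
      (∀ Ψ ∈ W N R, ∫ y, ⟪c.A y (Y.snd y), Ψ.snd y⟫_ℝ ∂(mu N R)
        = ∫ y, c.w y * (b y - u y) * Ψ.fst y ∂(mu N R)) ∧
      MemLp (fun x => b x ^ p) 2 (mu N R) ∧
      Integrable (fun y => c.w y * |b y - u y| ^ (m + 1)) (mu N R) ∧
      1 / 2 * En c Y + 1 / 2 * τ * ∫ y, c.w y * |b y - u y| ^ (m + 1) ∂(mu N R)
        ≤ 1 / 2 * En c X + τ * (ϖ * (2 * ϖ) ^ (1 / m)) * (∫ y, c.w y ∂(mu N R))
        + η * (2 * (mu N R).real univ + C * En c Y) ∧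
      ∫ x, c.w x * max (v x - ε - b x) 0 ∂(mu N R)
        ≤ (∫ x, c.w x * max (v' x - ε - a x) 0 ∂(mu N R))
        + τ * L * (∫ x, c.w x * max (v x - ε - b x) 0 ∂(mu N R))
        + τ * L * ε * (∫ x, c.w x ∂(mu N R))
        + ∫ x, c.w x * |τ * b x ^ p - F x| ∂(mu N R) := by
  obtain ⟨D, hD, heq, hw0⟩ := step_exists c (R := R) hN hm hε hτ ha ha0 hF hF0 hV hV0
  have hwm : MemLp (fun x => (D.fst x + V x) / τ) 2 (mu N R) :=
    memLp_arg (Lp.memLp D.fst) hV.continuous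
  have hwnn : ∀ᵐ x ∂(mu N R), 0 ≤ (D.fst x + V x) / τ := by
    filter_upwards [hw0] with x hx
    exact div_nonneg hx hτ.le
  have hβ : MemLp (fun x => beta m ε ((D.fst x + V x) / τ)) 2 (mu N R) := memLp_beta hm hε hwm
  have hβp : MemLp (fun x => beta m ε ((D.fst x + V x) / τ) ^ p) 2 (mu N R) :=
    memLp_beta_rpow hm hε (by linarith) hpm hwm hwnn
  obtain ⟨Y, hY, hYr⟩ := riesz c (R := R) hN (hβ.sub (memLp_continuous hu))
  have hH := H1_step c hm hε hτ hϖ hη hC ha hF hV hu hu' hu0 hϖV herr hD heq hw0 hY hYr hXr'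
  have hL1 := L1_step c hm hε hτ hp hpm ha hF hV hV0 hD heq hw0 hv hv' hv0 hν hsub hL0 hL
  refine ⟨fun x => beta m ε ((D.fst x + V x) / τ), Y, hβ, ?_, hYr, hβp, hH.1, hH.2, hL1⟩
  filter_upwards [hwnn] with x hx
  exact beta_nonneg hm hε hx

end Pool.Agent.MP909527
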