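import Pool.Agent.Work.MP_909527_an.Comp1

/-! # The estimate on a grid -/

set_option autoImplicit false

open MeasureTheory Set Filter Topology
open scoped ContDiff InnerProductSpace ENNReal

namespace Pool.Agent.MP909527

variable {N : ℕ}

theorem int_w (c : Coef N) (R : ℝ) : Integrable (fun x => c.w x) (mu N R) :=
  (memLp_continuous c.smoothw.continuous (q := 1)).integrable le_rfl

theorem int_w_mul (c : Coef N) {R : ℝ} {f : E N → ℝ} (hf : MemLp f 2 (mu N R)) :
    Integrable (fun x => c.w x * f x) (mu N R) :=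
  (memLp_w_mul c hf).integrable (by norm_num)

/-- the reaction error -/
theorem F_term (c : Coef N) {R m p τ δ κ Kp B : ℝ} (hm : 1 < m) (hτ : 0 < τ) (hκ : 0 < κ)
    (hp : 1 ≤ p)
    {F u b : E N → ℝ} (hF : Continuous F) (hu : Continuous u) (hu0 : ∀ x, 0 ≤ u x)
    (huB : ∀ x ∈ Metric.closedBall (0 : E N) R, u x ≤ B)
    (hKp : 0 ≤ Kp) (hpd : ∀ a b : ℝ, 0 ≤ a → 0 ≤ b → b ≤ B →
      |a ^ p - b ^ p| ≤ Kp * (|a - b| + |a - b| ^ (m + 1)))
    (hFu : ∀ x ∈ Metric.closedBall (0 : E N) R, |τ * u x ^ p - F x| ≤ τ * δ)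
    (hb0 : ∀ᵐ x ∂(mu N R), 0 ≤ b x)
    (hbp : MemLp (fun x => b x ^ p) 2 (mu N R))
    (hZ : Integrable (fun y => c.w y * |b y - u y| ^ (m + 1)) (mu N R)) :
    ∫ x, c.w x * |τ * b x ^ p - F x| ∂(mu N R)
      ≤ τ * δ * (∫ x, c.w x ∂(mu N R)) + τ * Kp * (κ * (∫ x, c.w x ∂(mu N R))
        + ((κ ^ m)⁻¹ + 1) * ∫ y, c.w y * |b y - u y| ^ (m + 1) ∂(mu N R)) := by
  have hw := int_w c R
  have hup : Continuous fun x => u x ^ p := hu.rpow_const fun x => Or.inr (by linarith)
  have h1 : Integrable (fun x => c.w x * |τ * b x ^ p - F x|) (mu N R) :=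
    int_w_mul c ((hbp.const_mul τ).sub (memLp_continuous hF)).abs
  have h2 : Integrable (fun x => (τ * δ + τ * Kp * κ) * c.w x
      + τ * Kp * ((κ ^ m)⁻¹ + 1) * (c.w x * |b x - u x| ^ (m + 1))) (mu N R) :=
    (hw.const_mul _).add (hZ.const_mul _)
  have h3 : ∫ x, c.w x * |τ * b x ^ p - F x| ∂(mu N R) ≤
      ∫ x, ((τ * δ + τ * Kp * κ) * c.w x
      + τ * Kp * ((κ ^ m)⁻¹ + 1) * (c.w x * |b x - u x| ^ (m + 1))) ∂(mu N R) := by
    refine integral_mono_ae h1 h2 ?_
    filter_upwards [hb0, ae_mem_ball R] with x hx hxb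
    have e1 := hpd (b x) (u x) hx (hu0 x) (huB x hxb)
    have e2 := hFu x hxb
    have e3 := le_kappa hm hκ (abs_nonneg (b x - u x))
    have e4 : |τ * b x ^ p - F x| ≤ τ * |b x ^ p - u x ^ p| + |τ * u x ^ p - F x| := by
      have : τ * b x ^ p - F x = τ * (b x ^ p - u x ^ p) + (τ * u x ^ p - F x) := by ring
      rw [this]
      refine (abs_add_le _ _).trans ?_
      rw [abs_mul, abs_of_pos hτ]
    have e5 : |τ * b x ^ p - F x| ≤ (τ * δ + τ * Kp * κ)
        + τ * Kp * ((κ ^ m)⁻¹ + 1) * |b x - u x| ^ (m + 1) := by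
      have e6 := mul_le_mul_of_nonneg_left e1 hτ.le
      have e7 := mul_le_mul_of_nonneg_left e3 (mul_nonneg hτ.le hKp)
      nlinarith
    have := mul_le_mul_of_nonneg_left e5 (c.wpos x).le
    linarith
  refine h3.trans (le_of_eq ?_)
  rw [integral_add (hw.const_mul _) (hZ.const_mul _), integral_const_mul, integral_const_mul]
  ring

theorem q_term (c : Coef N) {R m κ ε : ℝ} (hm : 1 < m) (hκ : 0 < κ) (hε : 0 < ε)
    {v u b : E N → ℝ} (hu : Continuous u) (hv : Continuous v)
    (hb : MemLp b 2 (mu N R))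
    (hZ : Integrable (fun y => c.w y * |b y - u y| ^ (m + 1)) (mu N R)) :
    ∫ x, c.w x * max (v x - u x) 0 ∂(mu N R)
      ≤ (∫ x, c.w x * max (v x - ε - b x) 0 ∂(mu N R)) + (ε + κ) * (∫ x, c.w x ∂(mu N R))
        + (κ ^ m)⁻¹ * ∫ y, c.w y * |b y - u y| ^ (m + 1) ∂(mu N R) := by
  have hw := int_w c R
  have h1 : Integrable (fun x => c.w x * max (v x - u x) 0) (mu N R) :=
    int_w_mul c (memLp_continuous ((hv.sub hu).max continuous_const))
  have hE : Integrable (fun x => c.w x * max (v x - ε - b x) 0) (mu N R) :=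
    int_w_mul c (((memLp_continuous (hv.sub continuous_const)).sub hb).sup (memLp_const 0))
  have h2 : Integrable (fun x => c.w x * max (v x - ε - b x) 0 + (ε + κ) * c.w x) (mu N R) :=
    hE.add (hw.const_mul _)
  have h3 : ∫ x, c.w x * max (v x - u x) 0 ∂(mu N R) ≤
      ∫ x, (c.w x * max (v x - ε - b x) 0 + (ε + κ) * c.w x
        + (κ ^ m)⁻¹ * (c.w x * |b x - u x| ^ (m + 1))) ∂(mu N R) := by
    refine integral_mono h1 (h2.add (hZ.const_mul _)) fun x => ?_
    have e3 := le_kappa hm hκ (abs_nonneg (b x - u x))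
    have e4 : max (v x - u x) 0 ≤ max (v x - ε - b x) 0 + (ε + κ)
        + (κ ^ m)⁻¹ * |b x - u x| ^ (m + 1) := by
      have e5 := le_abs_self (b x - u x)
      have e6 := le_max_left (v x - ε - b x) 0
      have e7 := le_max_right (v x - ε - b x) 0
      have e8 := abs_nonneg (b x - u x)
      refine max_le ?_ ?_ <;> linarith
    have := mul_le_mul_of_nonneg_left e4 (c.wpos x).le
    simp only
    linarith
  refine h3.trans (le_of_eq ?_)
  rw [integral_add h2 (hZ.const_mul _), integral_add hE (hw.const_mul _), integral_const_mul,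
    integral_const_mul]

theorem int_bound {f : ℝ → ℝ} (hf : Continuous f) {s t a δ : ℝ} (hst : s ≤ t)
    (h : ∀ r ∈ Icc s t, |a - f r| ≤ δ) : |(t - s) * a - ∫ r in s..t, f r| ≤ (t - s) * δ := by
  have h1 : (t - s) * a = ∫ _r in s..t, a := by
    rw [intervalIntegral.integral_const, smul_eq_mul]
  rw [h1, ← intervalIntegral.integral_sub (by simp) (hf.intervalIntegrable _ _)]
  have h2 := intervalIntegral.norm_integral_le_of_norm_le_const (a := s) (b := t)
    (f := fun r => a - f r) (C := δ) (by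
      intro r hr
      rw [uIoc_of_le hst] at hr
      exact h r ⟨hr.1.le, hr.2⟩)
  rw [Real.norm_eq_abs, abs_of_nonneg (sub_nonneg.2 hst)] at h2
  linarith

/-- the data on one time interval -/
theorem V_exists (hM : Stmt_M) (c : Coef N) {m p : ℝ} {u : ℝ → E N → ℝ}
    {t₀ t₁ R δ s t : ℝ} (hm : 1 < m) (hp : 1 ≤ p) (hR : 0 < R) (hδ : 0 < δ)
    (hu : Continuous (Function.uncurry u)) (hu0 : ∀ t x, 0 ≤ u t x) (hw : VeryWeak c m p u t₀ t₁)
    (hs : t₀ ≤ s) (hst : s < t) (ht : t ≤ t₁)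
    (hmod : ∀ r ∈ Icc s t, ∀ x ∈ Metric.closedBall (0 : E N) R, |u t x ^ m - u r x ^ m| ≤ δ) :
    ∃ V : E N → ℝ, ContDiff ℝ ∞ V ∧ (∀ x, 0 ≤ V x) ∧
      (∀ x ∈ Metric.closedBall (0 : E N) R, |(t - s) * u t x ^ m - V x| ≤ 2 * (t - s) * δ) ∧
      ∀ ψ : E N → ℝ, C1c R ψ →
        |(∫ x, ⟪c.A x (gradient V x), gradient ψ x⟫_ℝ)
          + ∫ x, (c.w x * (u t x - u s x - ∫ r in s..t, u r x ^ p)) * ψ x|
          ≤ (t - s) * δ * ((∫ x, |ψ x|) + ∫ x, ‖gradient ψ x‖) := by
  have hum : Continuous (Function.uncurry fun (x : E N) (r : ℝ) => u r x ^ m) := by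
    have h1 : Continuous fun q : E N × ℝ => u q.2 q.1 := hu.comp (continuous_snd.prodMk
      continuous_fst)
    exact h1.rpow_const fun q => Or.inr (by linarith)
  have hup : Continuous (Function.uncurry fun (x : E N) (r : ℝ) => u r x ^ p) := by
    have h1 : Continuous fun q : E N × ℝ => u q.2 q.1 := hu.comp (continuous_snd.prodMk
      continuous_fst)
    exact h1.rpow_const fun q => Or.inr (by linarith)
  have hus : ∀ r, Continuous (u r) := fun r => hu.comp (Continuous.prodMk_right r)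
  have hur : ∀ x, Continuous fun r => u r x ^ m := fun x => hum.comp (Continuous.prodMk_right x)
  have hUc : Continuous fun x => ∫ r in s..t, u r x ^ m :=
    intervalIntegral.continuous_parametric_intervalIntegral_of_continuous' hum s t
  have hFc : Continuous fun x => ∫ r in s..t, u r x ^ p :=
    intervalIntegral.continuous_parametric_intervalIntegral_of_continuous' hup s t
  have hU0 : ∀ x, 0 ≤ ∫ r in s..t, u r x ^ m := fun x =>
    intervalIntegral.integral_nonneg hst.le fun r _ => Real.rpow_nonneg (hu0 r x) _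
  have hh : Continuous fun x => c.w x * (u t x - u s x - ∫ r in s..t, u r x ^ p) :=
    c.smoothw.continuous.mul (((hus t).sub (hus s)).sub hFc)
  obtain ⟨V, hV, hV0, hVU, hVerr⟩ := hM N c _ _ hUc hh hU0 (by
    intro φ hφ hφc
    have h1 := hw s t hs hst ht φ hφ hφc
    have i1 : Integrable (fun x => c.w x * (u t x - u s x) * φ x) :=
      ((c.smoothw.continuous.mul ((hus t).sub (hus s))).mul
        hφ.continuous).integrable_of_hasCompactSupport hφc.mul_left
    have i2 : Integrable (fun x => c.w x * (∫ r in s..t, u r x ^ p) * φ x) :=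
      ((c.smoothw.continuous.mul hFc).mul
        hφ.continuous).integrable_of_hasCompactSupport hφc.mul_left
    have h2 : ∫ x, c.w x * (u t x - u s x - ∫ r in s..t, u r x ^ p) * φ x
        = (∫ x, c.w x * (u t x - u s x) * φ x)
          - ∫ x, c.w x * (∫ r in s..t, u r x ^ p) * φ x := by
      rw [← integral_sub i1 i2]
      refine integral_congr_ae (ae_of_all _ fun x => ?_)
      simp only; ring
    rw [h2, h1]; ring) R ((t - s) * δ) hR (mul_pos (sub_pos.2 hst) hδ)
  refine ⟨V, hV, hV0, ?_, ?_⟩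
  · intro x hx
    have h1 := hVU x hx
    have h2 := int_bound (hur x) hst.le (a := u t x ^ m) (δ := δ) fun r hr => hmod r hr x hx
    have h3 : (t - s) * u t x ^ m - V x = ((t - s) * u t x ^ m - ∫ r in s..t, u r x ^ m)
        - (V x - ∫ r in s..t, u r x ^ m) := by ring
    rw [h3]
    refine (abs_sub _ _).trans ?_
    linarith
  · intro ψ hψ
    exact hVerr ψ hψ.smooth hψ.cpt hψ.supp

end Pool.Agent.MP909527
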