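import Pool.Agent.Work.MP_909527_an.Comp2

/-! # The estimate on a grid -/

set_option autoImplicit false

open MeasureTheory Set Filter Topology
open scoped ContDiff InnerProductSpace ENNReal

namespace Pool.Agent.MP909527

variable {N : ℕ}

theorem En_zero {R : ℝ} (c : Coef N) : En c (0 : HH N R) = 0 := by
  have h : ((0 : HH N R).snd : E N → E N) =ᵐ[mu N R] 0 := Lp.coeFn_zero (E N) 2 (mu N R)
  rw [En]
  refine integral_eq_zero_of_ae ?_
  filter_upwards [h] with x hx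
  rw [hx]; simp

/-- states of the scheme -/
def StP {N : ℕ} (c : Coef N) (R : ℝ) (u : ℝ → E N → ℝ) (T : ℕ → ℝ) (k : ℕ)
    (aX : (E N → ℝ) × HH N R) : Prop :=
  MemLp aX.1 2 (mu N R) ∧ (∀ᵐ x ∂(mu N R), 0 ≤ aX.1 x) ∧
      (∀ Ψ ∈ W N R, ∫ y, ⟪c.A y (aX.2.snd y), Ψ.snd y⟫_ℝ ∂(mu N R)
        = ∫ y, c.w y * (aX.1 y - u (T k) y) * Ψ.fst y ∂(mu N R))

/-- relation of two consecutive states of the scheme -/
def StQ {N : ℕ} (c : Coef N) (R : ℝ) (m p δ τ Λ C L : ℝ) (u v : ℝ → E N → ℝ) (T : ℕ → ℝ) (k : ℕ)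
    (aX bY : (E N → ℝ) × HH N R) : Prop :=
  MemLp (fun x => bY.1 x ^ p) 2 (mu N R) ∧
      Integrable (fun y => c.w y * |bY.1 y - u (T (k + 1)) y| ^ (m + 1)) (mu N R) ∧
      1 / 2 * En c bY.2
        + 1 / 2 * τ * ∫ y, c.w y * |bY.1 y - u (T (k + 1)) y| ^ (m + 1) ∂(mu N R)
        ≤ 1 / 2 * En c aX.2 + τ * (((Λ + 2) * δ) * (2 * ((Λ + 2) * δ)) ^ (1 / m))
            * (∫ y, c.w y ∂(mu N R))
        + τ * δ * (2 * (mu N R).real univ + C * En c bY.2) ∧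
      ∫ x, c.w x * max (v (T (k + 1)) x - δ - bY.1 x) 0 ∂(mu N R)
        ≤ (∫ x, c.w x * max (v (T k) x - δ - aX.1 x) 0 ∂(mu N R))
        + τ * L * (∫ x, c.w x * max (v (T (k + 1)) x - δ - bY.1 x) 0 ∂(mu N R))
        + τ * L * δ * (∫ x, c.w x ∂(mu N R))
        + ∫ x, c.w x * |τ * bY.1 x ^ p - ∫ r in (T k)..(T (k + 1)), u r x ^ p| ∂(mu N R)

/-- The scheme on the grid `t k`, `k ≤ n`. -/
theorem grid_chain (hM : Stmt_M) (c : Coef N) (hN : 0 < N) {m p : ℝ} {u v : ℝ → E N → ℝ}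
    {t₀ t₁ R B L Λ C Kp δ κ τ : ℝ} {n : ℕ} (hm : 1 < m) (hp : 1 ≤ p) (hpm : p ≤ m) (hR : 0 < R)
    (hu : Continuous (Function.uncurry u)) (hu0 : ∀ t x, 0 ≤ u t x) (hw : VeryWeak c m p u t₀ t₁)
    (hv : Continuous (Function.uncurry v)) (hv0 : ∀ t x, 0 ≤ v t x)
    (hν : ∀ t ∈ Icc t₀ t₁, C1c R fun x => v t x ^ m)
    (hsub : ∀ s t, t₀ ≤ s → s < t → t ≤ t₁ → ∀ ψ : E N → ℝ, C1c R ψ → (∀ x, 0 ≤ ψ x) →
      ∫ x, c.w x * (v t x - v s x) * ψ x
        ≤ (t - s) * (-(∫ x, ⟪c.A x (gradient (fun y => v t y ^ m) x), gradient ψ x⟫_ℝ)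
          + ∫ x, c.w x * v t x ^ p * ψ x))
    (hδ : 0 < δ) (hκ : 0 < κ) (hτ : 0 < τ)
    (hC : ∀ x ∈ W N R, ‖x‖ ^ 2 ≤ C * En c x)
    (huB : ∀ t ∈ Icc t₀ t₁, ∀ x ∈ Metric.closedBall (0 : E N) R, u t x ≤ B)
    (hKp : 0 ≤ Kp) (hpd : ∀ a b : ℝ, 0 ≤ a → 0 ≤ b → b ≤ B →
      |a ^ p - b ^ p| ≤ Kp * (|a - b| + |a - b| ^ (m + 1)))
    (hL0 : 0 ≤ L) (hL : ∀ t ∈ Icc t₀ t₁, ∀ x ∈ Metric.closedBall (0 : E N) R, ∀ b : ℝ, 0 ≤ b →
      b ≤ v t x → v t x ^ p - b ^ p ≤ L * (v t x - b))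
    (hΛ : 0 ≤ Λ) (hPhi : ∀ t ∈ Icc t₀ t₁, ∀ x ∈ Metric.closedBall (0 : E N) R,
      |Phi m δ (u t x) - u t x ^ m| ≤ Λ * δ)
    (hgrid : t₀ + n * τ = t₁)
    (hmod : ∀ s ∈ Icc t₀ t₁, ∀ t ∈ Icc t₀ t₁, |s - t| ≤ τ →
      ∀ x ∈ Metric.closedBall (0 : E N) R, |u s x ^ m - u t x ^ m| ≤ δ)
    (hmod' : ∀ s ∈ Icc t₀ t₁, ∀ t ∈ Icc t₀ t₁, |s - t| ≤ τ →
      ∀ x ∈ Metric.closedBall (0 : E N) R, |u s x ^ p - u t x ^ p| ≤ δ)
    (h0 : ∀ x, v t₀ x ≤ u t₀ x) :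
    ∃ (e Z P : ℕ → ℝ), e 0 ≤ 0 ∧ P 0 ≤ 0 ∧ (∀ k, 0 ≤ P k) ∧ (∀ k, 0 ≤ Z k) ∧
      (∀ k < n, P (k + 1) + 1 / 2 * τ * Z (k + 1) ≤ P k
        + τ * (((Λ + 2) * δ) * (2 * ((Λ + 2) * δ)) ^ (1 / m)) * (∫ y, c.w y ∂(mu N R))
        + τ * δ * (2 * (mu N R).real univ + 2 * C * P (k + 1))) ∧
      (∀ k < n, e (k + 1) ≤ e k + τ * L * e (k + 1) + τ * L * δ * (∫ x, c.w x ∂(mu N R))
        + (τ * δ * (∫ x, c.w x ∂(mu N R)) + τ * Kp * (κ * (∫ x, c.w x ∂(mu N R))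
        + ((κ ^ m)⁻¹ + 1) * Z (k + 1)))) ∧
      (∀ k < n, ∫ x, c.w x * max (v (t₀ + (k + 1) * τ) x - u (t₀ + (k + 1) * τ) x) 0 ∂(mu N R)
        ≤ e (k + 1) + (δ + κ) * (∫ x, c.w x ∂(mu N R)) + (κ ^ m)⁻¹ * Z (k + 1)) := by
  have hus : ∀ r, Continuous (u r) := fun r => hu.comp (Continuous.prodMk_right r)
  have hvs : ∀ r, Continuous (v r) := fun r => hv.comp (Continuous.prodMk_right r)
  have hup : Continuous (Function.uncurry fun (x : E N) (r : ℝ) => u r x ^ p) := by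
    have h1 : Continuous fun q : E N × ℝ => u q.2 q.1 := hu.comp (continuous_snd.prodMk
      continuous_fst)
    exact h1.rpow_const fun q => Or.inr (by linarith)
  have hur : ∀ x, Continuous fun r => u r x ^ p := fun x => hup.comp (Continuous.prodMk_right x)
  set T : ℕ → ℝ := fun k => t₀ + k * τ with hT
  have hT0 : T 0 = t₀ := by simp [hT]
  have hTs : ∀ k, T (k + 1) - T k = τ := by intro k; simp only [hT]; push_cast; ring
  have hTm : ∀ k ≤ n, T k ∈ Icc t₀ t₁ := by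
    intro k hk
    have h1 : (k : ℝ) ≤ n := by exact_mod_cast hk
    have h2 : (0 : ℝ) ≤ k := Nat.cast_nonneg k
    constructor
    · simp only [hT]; nlinarith
    · simp only [hT]; nlinarith
  have hTlt : ∀ k, T k < T (k + 1) := fun k => by linarith [hTs k]
  -- the sequence of states
  have hinit : StP c R u T 0 (u (T 0), 0) := by
    refine ⟨memLp_continuous (hus _), ae_of_all _ (hu0 _), fun Ψ _ => ?_⟩
    have h : ((0 : HH N R).snd : E N → E N) =ᵐ[mu N R] 0 := Lp.coeFn_zero (E N) 2 (mu N R)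
    have e1 : ∫ y, ⟪c.A y ((0 : HH N R).snd y), Ψ.snd y⟫_ℝ ∂(mu N R) = 0 := by
      refine integral_eq_zero_of_ae ?_
      filter_upwards [h] with x hx
      rw [hx]; simp
    simp only [e1, sub_self, mul_zero, zero_mul, integral_zero]
  have hstep : ∀ k < n, ∀ aX, StP c R u T k aX → ∃ bY, StP c R u T (k + 1) bY ∧
      StQ c R m p δ τ Λ C L u v T k aX bY := by
    rintro k hk ⟨a, X⟩ ⟨ha, ha0, hX⟩
    obtain ⟨V, hV, hV0, hVu, hVerr⟩ := V_exists hM c (R := R) (δ := δ) hm hp hR hδ hu hu0 hw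
      (hTm k hk.le).1 (hTlt k) (hTm (k + 1) hk).2 (fun r hr x hx =>
        hmod _ (hTm (k + 1) hk) r ⟨(hTm k hk.le).1.trans hr.1,
            hr.2.trans (hTm (k + 1) hk).2⟩ (by
              rw [abs_of_nonneg (by linarith [hr.2])]
              linarith [hr.1, hTs k]) x hx)
    rw [hTs k] at hVu hVerr
    have hsub' := hsub (T k) (T (k + 1)) (hTm k hk.le).1 (hTlt k) (hTm (k + 1) hk).2
    rw [hTs k] at hsub'
    obtain ⟨b, Y, hb, hb0, hY, hbp, hZ, hen, hl1⟩ := one_step c (R := R) hN (m := m) (ε := δ)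
      (τ := τ) (p := p) (L := L) (ϖ := (Λ + 2) * δ) (η := τ * δ) (C := C) hm hδ hτ hp hpm
      (by positivity) (by positivity) hC
      (F := fun x => ∫ r in (T k)..(T (k + 1)), u r x ^ p) (V := V) (u := u (T (k + 1)))
      (u' := u (T k)) (v := v (T (k + 1))) (v' := v (T k))
      (intervalIntegral.continuous_parametric_intervalIntegral_of_continuous' hup _ _)
      (fun x => intervalIntegral.integral_nonneg (hTlt k).le
        fun r _ => Real.rpow_nonneg (hu0 r x) _)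
      hV hV0 (hus _) (hus _) (hu0 _) (by
        intro x hx
        have h1 := hPhi _ (hTm (k + 1) hk) x hx
        have h2 := hVu x hx
        have h3 : τ * Phi m δ (u (T (k + 1)) x) - V x
            = τ * (Phi m δ (u (T (k + 1)) x) - u (T (k + 1)) x ^ m)
              + (τ * u (T (k + 1)) x ^ m - V x) := by ring
        rw [h3]
        refine (abs_add_le _ _).trans ?_
        rw [abs_mul, abs_of_pos hτ]
        have := mul_le_mul_of_nonneg_left h1 hτ.le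
        linarith) hVerr (hvs _) (hvs _) (hv0 _) (hν _ (hTm (k + 1) hk)) hsub' hL0
      (hL _ (hTm (k + 1) hk)) ha ha0 hX
    exact ⟨(b, Y), ⟨hb, hb0, hY⟩, hbp, hZ, hen, hl1⟩
  obtain ⟨f, hf0, hfP, hfQ⟩ := exists_chain (StP c R u T) (StQ c R m p δ τ Λ C L u v T) n
    (u (T 0), 0) hinit hstep
  refine ⟨fun k => ∫ x, c.w x * max (v (T k) x - δ - (f k).1 x) 0 ∂(mu N R),
    fun k => ∫ y, c.w y * |(f k).1 y - u (T k) y| ^ (m + 1) ∂(mu N R),
    fun k => 1 / 2 * En c (f k).2, ?_, ?_, ?_, ?_, ?_, ?_, ?_⟩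
  · refine le_of_eq (integral_eq_zero_of_ae (ae_of_all _ fun x => ?_))
    simp only [hf0, hT0, Pi.zero_apply]
    rw [max_eq_right (by linarith [h0 x]), mul_zero]
  · simp only [hf0, En_zero, mul_zero, le_refl]
  · intro k
    exact mul_nonneg (by norm_num) (En_nonneg c _)
  · intro k
    exact integral_nonneg fun y => mul_nonneg (c.wpos y).le (by positivity)
  · intro k hk
    have h1 := (hfQ k hk).2.2.1
    simp only
    linarith
  · intro k hk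
    have h1 := (hfQ k hk).2.2.2
    have h2 := F_term c (R := R) (m := m) (p := p) (τ := τ) (δ := δ) (κ := κ) (Kp := Kp)
      (B := B) (F := fun x => ∫ r in (T k)..(T (k + 1)), u r x ^ p) (u := u (T (k + 1)))
      (b := (f (k + 1)).1) hm hτ hκ hp
      (intervalIntegral.continuous_parametric_intervalIntegral_of_continuous' hup _ _)
      (hus _) (hu0 _) (huB _ (hTm (k + 1) hk)) hKp hpd ?_ (hfP (k + 1) hk).2.1
      (hfQ k hk).1 (hfQ k hk).2.1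
    · simp only at h1 h2 ⊢
      linarith
    · intro x hx
      have h3 := int_bound (hur x) (hTlt k).le (a := u (T (k + 1)) x ^ p) (δ := δ)
        fun r hr => hmod' _ (hTm (k + 1) hk) r ⟨(hTm k hk.le).1.trans hr.1,
          hr.2.trans (hTm (k + 1) hk).2⟩ (by
            rw [abs_of_nonneg (by linarith [hr.2])]
            linarith [hr.1, hTs k]) x hx
      rwa [hTs k] at h3
  · intro k hk
    have h1 := q_term c (R := R) (m := m) (κ := κ) (ε := δ) (v := v (T (k + 1)))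
      (u := u (T (k + 1))) (b := (f (k + 1)).1) hm hκ hδ (hus _) (hvs _)
      (hfP (k + 1) hk).1 (hfQ k hk).2.1
    have h2 : T (k + 1) = t₀ + (k + 1) * τ := by simp only [hT]; push_cast; ring
    rw [← h2]
    exact h1

end Pool.Agent.MP909527
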