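import Pool.Agent.Work.MP_909527_an.Comp3

/-! # The estimate on a grid, conclusion -/

set_option autoImplicit false

open MeasureTheory Set Filter Topology
open scoped ContDiff InnerProductSpace ENNReal

namespace Pool.Agent.MP909527

variable {N : ℕ}

theorem numeric {n : ℕ} {τ T C L G a₁ a₂ b₁ b₂ δ : ℝ} (hT : n * τ = T) (hτ : 0 < τ)
    (hδ0 : 0 < δ) (hδ : δ ≤ 1) (hC : 0 ≤ C) (hL : 0 ≤ L) (hG : 0 ≤ G) (h1 : 2 * C * τ ≤ 1 / 2)
    (h2 : τ * L ≤ 1 / 2) {e Z P q : ℕ → ℝ} (he0 : e 0 ≤ 0) (hP0 : P 0 ≤ 0) (hP : ∀ k, 0 ≤ P k)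
    (hZ : ∀ k, 0 ≤ Z k)
    (hen : ∀ k < n, P (k + 1) + 1 / 2 * τ * Z (k + 1) ≤ P k + τ * (G * δ)
      + τ * δ * (2 * C * P (k + 1)))
    (hL1 : ∀ k < n, e (k + 1) ≤ e k + τ * L * e (k + 1) + τ * a₁ + τ * a₂ * Z (k + 1))
    (hq : ∀ k < n, q k ≤ e (k + 1) + b₁ + b₂ * Z (k + 1))
    (ha₁ : 0 ≤ a₁) (ha₂ : 0 ≤ a₂) (hb₂ : 0 ≤ b₂) :
    τ * ∑ k ∈ Finset.range n, q k ≤ T * (Real.exp (2 * L * T) * (T * a₁
      + a₂ * (2 * Real.exp (4 * C * T) * T * G * δ)) + b₁)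
      + b₂ * (2 * Real.exp (4 * C * T) * T * G * δ) := by
  have hT0 : 0 ≤ T := by rw [← hT]; positivity
  -- energy
  have hCτ : 0 ≤ C * τ := mul_nonneg hC hτ.le
  have hθ : 2 * C * τ * δ ≤ 1 / 2 := by nlinarith
  have hg := gronwall (n := n) (θ := 2 * C * τ * δ) (by positivity) hθ
    (x := fun k => P k + 1 / 2 * τ * ∑ j ∈ Finset.range k, Z (j + 1))
    (r := fun _ => τ * (G * δ)) (by simpa using hP0) (fun k => by positivity) (by
      intro k hk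
      have h3 := hen k hk
      have h4 : 0 ≤ ∑ j ∈ Finset.range (k + 1), Z (j + 1) :=
        Finset.sum_nonneg fun j _ => hZ _
      have h5 : 0 ≤ 2 * C * τ * δ * (1 / 2 * τ * ∑ j ∈ Finset.range (k + 1), Z (j + 1)) := by
        positivity
      rw [Finset.sum_range_succ] at h5 ⊢
      nlinarith) n le_rfl
  simp only [Finset.sum_const, Finset.card_range, nsmul_eq_mul] at hg
  have e1 : Real.exp (2 * (2 * C * τ * δ) * n) ≤ Real.exp (4 * C * T) := by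
    apply Real.exp_le_exp.2
    have : 2 * (2 * C * τ * δ) * n = 4 * C * T * δ := by rw [← hT]; ring
    rw [this]
    have : 0 ≤ 4 * C * T := by positivity
    nlinarith
  have e2 : (n : ℝ) * (τ * (G * δ)) = T * (G * δ) := by rw [← hT]; ring
  rw [e2] at hg
  have e3 := mul_le_mul_of_nonneg_right e1 (show 0 ≤ T * (G * δ) by positivity)
  have hS : τ * ∑ j ∈ Finset.range n, Z (j + 1) ≤ 2 * Real.exp (4 * C * T) * T * G * δ := by
    have := hP n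
    nlinarith
  -- e
  have hg2 := gronwall (n := n) (θ := τ * L) (by positivity) h2 (x := e)
    (r := fun k => τ * a₁ + τ * a₂ * Z (k + 1)) he0 (fun k => by
      have := hZ (k + 1); positivity) (by
      intro k hk
      have h3 := hL1 k hk
      nlinarith)
  have e4 : 2 * (τ * L) * n = 2 * L * T := by rw [← hT]; ring
  have e5 : ∑ j ∈ Finset.range n, (τ * a₁ + τ * a₂ * Z (j + 1))
      = T * a₁ + a₂ * (τ * ∑ j ∈ Finset.range n, Z (j + 1)) := by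
    rw [Finset.sum_add_distrib, Finset.sum_const, Finset.card_range, nsmul_eq_mul,
      ← Finset.mul_sum, ← hT]
    ring
  rw [e4, e5] at hg2
  set Y := 2 * Real.exp (4 * C * T) * T * G * δ with hY
  have hE : ∀ k ≤ n, e k ≤ Real.exp (2 * L * T) * (T * a₁ + a₂ * Y) := by
    intro k hk
    refine (hg2 k hk).trans (mul_le_mul_of_nonneg_left ?_ (Real.exp_pos _).le)
    have := mul_le_mul_of_nonneg_left hS ha₂
    linarith
  -- q
  have e6 : ∑ k ∈ Finset.range n, q k ≤ ∑ k ∈ Finset.range n,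
      (Real.exp (2 * L * T) * (T * a₁ + a₂ * Y) + b₁ + b₂ * Z (k + 1)) := by
    refine Finset.sum_le_sum fun k hk => ?_
    have h3 := hq k (Finset.mem_range.1 hk)
    have h4 := hE (k + 1) (Finset.mem_range.1 hk)
    linarith
  rw [Finset.sum_add_distrib, Finset.sum_const, Finset.card_range, nsmul_eq_mul,
      ← Finset.mul_sum] at e6
  have e7 := mul_le_mul_of_nonneg_left e6 hτ.le
  have e8 := mul_le_mul_of_nonneg_left hS hb₂
  calc τ * ∑ k ∈ Finset.range n, q k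
      ≤ τ * (n * (Real.exp (2 * L * T) * (T * a₁ + a₂ * Y) + b₁)
          + b₂ * ∑ k ∈ Finset.range n, Z (k + 1)) := e7
    _ = T * (Real.exp (2 * L * T) * (T * a₁ + a₂ * Y) + b₁)
          + b₂ * (τ * ∑ k ∈ Finset.range n, Z (k + 1)) := by rw [← hT]; ring
    _ ≤ _ := by linarith

theorem numeric2 {L Mw Kp Y T κ δ r Θ : ℝ} (hΘ : Θ = κ + (r + 1) * δ) (hr : 0 < r)
    (hκ : 0 < κ) (hδ : 0 < δ) (hL : 0 ≤ L) (hMw : 0 ≤ Mw) (hKp : 0 ≤ Kp) (hY0 : 0 ≤ Y)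
    (hT0 : 0 < T) :
    T * (Real.exp (2 * L * T) * (T * ((L + 1) * Mw * δ + Kp * Mw * κ)
      + Kp * (r + 1) * (Y * δ)) + (δ + κ) * Mw) + r * (Y * δ)
      ≤ (T * (Real.exp (2 * L * T) * (T * ((L + 1) * Mw + Kp * Mw) + Kp * Y) + 2 * Mw) + Y)
        * Θ := by
  have hrδ : 0 < r * δ := by positivity
  have t1 : δ ≤ Θ := by linarith
  have t2 : κ ≤ Θ := by linarith
  have t3 : (r + 1) * δ ≤ Θ := by linarith
  have t4 : r * δ ≤ Θ := by linarith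
  have u1 : (L + 1) * Mw * δ ≤ (L + 1) * Mw * Θ := mul_le_mul_of_nonneg_left t1 (by positivity)
  have u2 : Kp * Mw * κ ≤ Kp * Mw * Θ := mul_le_mul_of_nonneg_left t2 (by positivity)
  have u3 : Kp * (r + 1) * (Y * δ) ≤ Kp * Y * Θ := by
    have := mul_le_mul_of_nonneg_left t3 (show 0 ≤ Kp * Y by positivity)
    linarith
  have u4 : r * (Y * δ) ≤ Y * Θ := by
    have := mul_le_mul_of_nonneg_left t4 hY0
    linarith
  have u5 : (δ + κ) * Mw ≤ 2 * Mw * Θ := by nlinarith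
  have u6 : T * ((L + 1) * Mw * δ + Kp * Mw * κ) ≤ T * ((L + 1) * Mw + Kp * Mw) * Θ := by
    have := mul_le_mul_of_nonneg_left (add_le_add u1 u2) hT0.le
    linarith
  have u7 : Real.exp (2 * L * T) * (T * ((L + 1) * Mw * δ + Kp * Mw * κ)
      + Kp * (r + 1) * (Y * δ))
      ≤ Real.exp (2 * L * T) * ((T * ((L + 1) * Mw + Kp * Mw) + Kp * Y) * Θ) := by
    refine mul_le_mul_of_nonneg_left ?_ (Real.exp_pos _).le
    linarith
  have u8 := mul_le_mul_of_nonneg_left (add_le_add u7 u5) hT0.le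
  calc _ ≤ T * (Real.exp (2 * L * T) * ((T * ((L + 1) * Mw + Kp * Mw) + Kp * Y) * Θ)
        + 2 * Mw * Θ) + Y * Θ := by linarith
    _ = _ := by ring

theorem grid_estimate (hM : Stmt_M) (c : Coef N) (hN : 0 < N) {m p : ℝ} {u v : ℝ → E N → ℝ}
    {t₀ t₁ R : ℝ} (hm : 1 < m) (hp : 1 ≤ p) (hpm : p ≤ m) (ht : t₀ < t₁) (hR : 0 < R)
    (hu : Continuous (Function.uncurry u)) (hu0 : ∀ t x, 0 ≤ u t x) (hw : VeryWeak c m p u t₀ t₁)
    (hv : Continuous (Function.uncurry v)) (hv0 : ∀ t x, 0 ≤ v t x)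
    (hν : ∀ t ∈ Icc t₀ t₁, C1c R fun x => v t x ^ m)
    (hsub : ∀ s t, t₀ ≤ s → s < t → t ≤ t₁ → ∀ ψ : E N → ℝ, C1c R ψ → (∀ x, 0 ≤ ψ x) →
      ∫ x, c.w x * (v t x - v s x) * ψ x
        ≤ (t - s) * (-(∫ x, ⟪c.A x (gradient (fun y => v t y ^ m) x), gradient ψ x⟫_ℝ)
          + ∫ x, c.w x * v t x ^ p * ψ x))
    (h0 : ∀ x, v t₀ x ≤ u t₀ x) :
    ∃ K ≥ 0, ∀ κ δ : ℝ, 0 < κ → 0 < δ → δ ≤ 1 → ∃ ρ > 0, ∀ n : ℕ, 0 < n → (t₁ - t₀) / n ≤ ρ →
      (t₁ - t₀) / n * ∑ k ∈ Finset.range n,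
        (∫ x, c.w x * max (v (t₀ + (k + 1) * ((t₁ - t₀) / n)) x
          - u (t₀ + (k + 1) * ((t₁ - t₀) / n)) x) 0 ∂(mu N R))
        ≤ K * (κ + ((κ ^ m)⁻¹ + 1) * δ) := by
  obtain ⟨B, hB1, hBu⟩ := unif_bound hu t₀ t₁ R
  obtain ⟨B', hB'1, hBv⟩ := unif_bound hv t₀ t₁ R
  have huB : ∀ t ∈ Icc t₀ t₁, ∀ x ∈ Metric.closedBall (0 : E N) R, u t x ≤ B :=
    fun t ht x hx => (le_abs_self _).trans (hBu t ht x hx)
  have hvB : ∀ t ∈ Icc t₀ t₁, ∀ x ∈ Metric.closedBall (0 : E N) R, v t x ≤ B' :=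
    fun t ht x hx => (le_abs_self _).trans (hBv t ht x hx)
  obtain ⟨Kp, hKp, hpd⟩ := pow_diff (m := m) (B := B) hp hpm (by linarith)
  obtain ⟨L, hL0, hL⟩ := rpow_diff_le (p := p) (V := B') hp
  obtain ⟨Λ, hΛ, hPhi⟩ := Phi_sub (m := m) (B := B) hm
  obtain ⟨C, hC0, hC⟩ := norm_sq_le_En c (R := R) hN
  have humc : Continuous (Function.uncurry fun (r : ℝ) (x : E N) => u r x ^ m) :=
    hu.rpow_const fun q => Or.inr (by linarith)
  have hupc : Continuous (Function.uncurry fun (r : ℝ) (x : E N) => u r x ^ p) :=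
    hu.rpow_const fun q => Or.inr (by linarith)
  have hMw0 : 0 ≤ ∫ x, c.w x ∂(mu N R) := integral_nonneg fun x => (c.wpos x).le
  have hVol0 : 0 ≤ (mu N R).real univ := measureReal_nonneg
  generalize hMw : ∫ x, c.w x ∂(mu N R) = Mw at hMw0
  generalize hVol : (mu N R).real univ = Vol at hVol0
  set T := t₁ - t₀ with hTdef
  have hT0 : 0 < T := sub_pos.2 ht
  set G := (Λ + 2) * (2 * (Λ + 2)) ^ (1 / m) * Mw + 2 * Vol with hGdef
  have hG0 : 0 ≤ G := by positivity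
  set Y := 2 * Real.exp (4 * C * T) * T * G with hY
  have hY0 : 0 ≤ Y := by positivity
  set K := T * (Real.exp (2 * L * T) * (T * ((L + 1) * Mw + Kp * Mw) + Kp * Y) + 2 * Mw) + Y
    with hK
  refine ⟨K, by positivity, fun κ δ hκ hδ hδ1 => ?_⟩
  obtain ⟨ρ1, hρ1, hmod1⟩ := modulus humc t₀ t₁ R hδ
  obtain ⟨ρ2, hρ2, hmod2⟩ := modulus hupc t₀ t₁ R hδ
  refine ⟨min (min ρ1 ρ2) (min (1 / (4 * C)) (1 / (2 * (L + 1)))), by positivity,
    fun n hn hnρ => ?_⟩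
  have hn' : (0 : ℝ) < n := by exact_mod_cast hn
  set τ := T / n with hτdef
  have hτ : 0 < τ := by positivity
  have hτ1 : τ ≤ ρ1 := hnρ.trans ((min_le_left _ _).trans (min_le_left _ _))
  have hτ2 : τ ≤ ρ2 := hnρ.trans ((min_le_left _ _).trans (min_le_right _ _))
  have hτ3 : τ ≤ 1 / (4 * C) := hnρ.trans ((min_le_right _ _).trans (min_le_left _ _))
  have hτ4 : τ ≤ 1 / (2 * (L + 1)) := hnρ.trans ((min_le_right _ _).trans (min_le_right _ _))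
  have hnτ : n * τ = T := by rw [hτdef]; field_simp
  obtain ⟨e, Z, P, he0, hP0, hP, hZ, hen, hL1, hq⟩ := grid_chain hM c hN (κ := κ) (n := n)
    (τ := τ) (B := B) (L := L) (Λ := Λ) (C := C) (Kp := Kp) hm hp hpm hR hu hu0
    hw hv hv0 hν hsub hδ hκ hτ hC huB hKp hpd hL0
    (fun t ht x hx b hb hbv => hL _ _ hb hbv (hvB t ht x hx)) hΛ
    (fun t ht x hx => hPhi _ _ (hu0 t x) (huB t ht x hx) hδ hδ1)
    (by rw [hnτ, hTdef]; ring)
    (fun s hs t ht hst => hmod1 s hs t ht (hst.trans hτ1))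
    (fun s hs t ht hst => hmod2 s hs t ht (hst.trans hτ2)) h0
  rw [hMw, hVol] at hen
  rw [hMw] at hL1 hq
  have h1 : 2 * C * τ ≤ 1 / 2 := by
    rw [le_div_iff₀ (by positivity)] at hτ3
    linarith
  have h2 : τ * L ≤ 1 / 2 := by
    rw [le_div_iff₀ (by positivity)] at hτ4
    nlinarith
  have hpow : (2 * ((Λ + 2) * δ)) ^ (1 / m) ≤ (2 * (Λ + 2)) ^ (1 / m) := by
    refine Real.rpow_le_rpow (by positivity) ?_ (by positivity)
    nlinarith
  have hnum := numeric (n := n) (τ := τ) (T := T) (C := C) (L := L) (G := G)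
    (a₁ := (L + 1) * Mw * δ + Kp * Mw * κ) (a₂ := Kp * ((κ ^ m)⁻¹ + 1))
    (b₁ := (δ + κ) * Mw) (b₂ := (κ ^ m)⁻¹) (δ := δ) hnτ hτ hδ hδ1 hC0.le hL0 hG0 h1 h2
    (e := e) (Z := Z) (P := P) (q := fun k => (∫ x, c.w x * max (v (t₀ + (k + 1) * τ) x
          - u (t₀ + (k + 1) * τ) x) 0 ∂(mu N R))) he0 hP0 hP hZ
    (by
      intro k hk
      have h3 := hen k hk
      have h4 : ((Λ + 2) * δ) * (2 * ((Λ + 2) * δ)) ^ (1 / m) * Mw
          ≤ (Λ + 2) * δ * (2 * (Λ + 2)) ^ (1 / m) * Mw :=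
        mul_le_mul_of_nonneg_right (mul_le_mul_of_nonneg_left hpow (by positivity)) hMw0
      have h5 := mul_le_mul_of_nonneg_left h4 hτ.le
      have h6 : τ * (G * δ) = τ * ((Λ + 2) * δ * (2 * (Λ + 2)) ^ (1 / m) * Mw)
          + τ * δ * (2 * Vol) := by rw [hGdef]; ring
      rw [h6]
      linarith)
    (by
      intro k hk
      have h3 := hL1 k hk
      linarith)
    (by
      intro k hk
      exact hq k hk) (by positivity) (by positivity) (by positivity)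
  refine hnum.trans ?_
  have hκm : 0 < (κ ^ m)⁻¹ := by positivity
  exact numeric2 rfl hκm hκ hδ hL0 hMw0 hKp hY0 hT0

end Pool.Agent.MP909527
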