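import Pool.Agent.Work.MP_909527_an.Comp4

/-! # The comparison theorem -/

set_option autoImplicit false

open MeasureTheory Set Filter Topology
open scoped ContDiff InnerProductSpace ENNReal

namespace Pool.Agent.MP909527

variable {N : ℕ}

theorem comp_aux (hM : Stmt_M) (c : Coef N) (hN : 0 < N) {m p : ℝ} {u v : ℝ → E N → ℝ}
    {t₀ t₁ R : ℝ} (hm : 1 < m) (hp : 1 ≤ p) (hpm : p ≤ m) (ht : t₀ < t₁) (hR : 0 < R)
    (hu : Continuous (Function.uncurry u)) (hu0 : ∀ t x, 0 ≤ u t x) (hw : VeryWeak c m p u t₀ t₁)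
    (hv : Continuous (Function.uncurry v)) (hv0 : ∀ t x, 0 ≤ v t x)
    (hν : ∀ t ∈ Icc t₀ t₁, C1c R fun x => v t x ^ m)
    (hsub : ∀ s t, t₀ ≤ s → s < t → t ≤ t₁ → ∀ ψ : E N → ℝ, C1c R ψ → (∀ x, 0 ≤ ψ x) →
      ∫ x, c.w x * (v t x - v s x) * ψ x
        ≤ (t - s) * (-(∫ x, ⟪c.A x (gradient (fun y => v t y ^ m) x), gradient ψ x⟫_ℝ)
          + ∫ x, c.w x * v t x ^ p * ψ x))
    (h0 : ∀ x, v t₀ x ≤ u t₀ x) :
    ∀ t ∈ Icc t₀ t₁, ∀ x ∈ Metric.ball (0 : E N) R, v t x ≤ u t x := by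
  obtain ⟨K, hK, hgrid⟩ := grid_estimate hM c hN hm hp hpm ht hR hu hu0 hw hv hv0 hν hsub h0
  have hf : Continuous (Function.uncurry fun t x => max (v t x - u t x) 0) :=
    (hv.sub hu).max continuous_const
  have hft : ∀ t, Continuous fun x => max (v t x - u t x) 0 := fun t =>
    hf.comp (Continuous.prodMk_right t)
  set q : ℝ → ℝ := fun t => ∫ x, c.w x * max (v t x - u t x) 0 ∂(mu N R) with hq
  have hMw0 : 0 ≤ ∫ x, c.w x ∂(mu N R) := integral_nonneg fun x => (c.wpos x).le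
  have hint : ∀ t, Integrable (fun x => c.w x * max (v t x - u t x) 0) (mu N R) := fun t =>
    int_w_mul c (memLp_continuous (hft t))
  have hqmod : ∀ δ > 0, ∃ ρ > 0, ∀ s ∈ Icc t₀ t₁, ∀ t ∈ Icc t₀ t₁, |s - t| ≤ ρ →
      |q s - q t| ≤ δ * ∫ x, c.w x ∂(mu N R) := by
    intro δ hδ
    obtain ⟨ρ, hρ, hmod⟩ := modulus hf t₀ t₁ R hδ
    refine ⟨ρ, hρ, fun s hs t ht hst => ?_⟩
    rw [hq]
    simp only
    rw [← integral_sub (hint s) (hint t), ← integral_const_mul]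
    refine (abs_integral_le_integral_abs).trans ?_
    refine integral_mono_ae ((hint s).sub (hint t)).abs ((int_w c R).const_mul _) ?_
    filter_upwards [ae_mem_ball R] with x hx
    have h1 := hmod s hs t ht hst x hx
    rw [← mul_sub, abs_mul, abs_of_pos (c.wpos x), mul_comm δ]
    exact mul_le_mul_of_nonneg_left h1 (c.wpos x).le
  have hqc : ContinuousOn q (Icc t₀ t₁) := by
    rw [Metric.continuousOn_iff]
    intro t ht ε hε
    obtain ⟨ρ, hρ, h⟩ := hqmod (ε / (2 * ((∫ x, c.w x ∂(mu N R)) + 1))) (by positivity)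
    refine ⟨ρ, hρ, fun s hs hst => ?_⟩
    rw [Real.dist_eq] at hst ⊢
    refine (h s hs t ht hst.le).trans_lt ?_
    rw [div_mul_eq_mul_div, div_lt_iff₀ (by positivity)]
    nlinarith
  have hq0 : ∀ t, 0 ≤ q t := fun t =>
    integral_nonneg fun x => mul_nonneg (c.wpos x).le (le_max_right _ _)
  by_contra hcon
  push Not at hcon
  obtain ⟨s, hs, x₀, hx₀, hlt⟩ := hcon
  have hqs : 0 < q s := by
    rw [hq]
    simp only
    rw [integral_pos_iff_support_of_nonneg (fun x => mul_nonneg (c.wpos x).le (le_max_right _ _))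
      (hint s)]
    have hopen : IsOpen (Function.support (fun x => c.w x * max (v s x - u s x) 0)
        ∩ Metric.ball (0 : E N) R) :=
      (isOpen_compl_singleton.preimage (c.smoothw.continuous.mul (hft s))).inter
        Metric.isOpen_ball
    rw [Measure.restrict_apply' Metric.isOpen_ball.measurableSet]
    refine hopen.measure_pos _ ⟨x₀, ?_, hx₀⟩
    rw [Function.mem_support]
    have h1 : 0 < max (v s x₀ - u s x₀) 0 := lt_max_of_lt_left (by linarith)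
    exact (mul_pos (c.wpos x₀) h1).ne'
  have hI : 0 < ∫ t in t₀..t₁, q t :=
    intervalIntegral.integral_pos ht hqc (fun t _ => hq0 t) ⟨s, hs, hqs⟩
  set I := ∫ t in t₀..t₁, q t with hIdef
  have hT0 : 0 < t₁ - t₀ := sub_pos.2 ht
  generalize hMw : ∫ x, c.w x ∂(mu N R) = Mw at hMw0 hqmod
  -- choice of the parameters
  obtain ⟨κ, hκ, hκ1⟩ : ∃ κ > 0, K * κ ≤ I / 4 :=
    ⟨I / (4 * (K + 1)), by positivity, by
      rw [← mul_div_assoc, div_le_div_iff₀ (by positivity) (by norm_num)]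
      nlinarith⟩
  have hr : 0 < (κ ^ m)⁻¹ := by positivity
  obtain ⟨δ, hδ, hδ1, hδ2⟩ : ∃ δ > 0, δ ≤ 1 ∧ K * (((κ ^ m)⁻¹ + 1) * δ) ≤ I / 4 := by
    refine ⟨min 1 (I / (4 * ((K + 1) * ((κ ^ m)⁻¹ + 1)))), by positivity, min_le_left _ _, ?_⟩
    have h1 : K * (((κ ^ m)⁻¹ + 1) * min 1 (I / (4 * ((K + 1) * ((κ ^ m)⁻¹ + 1)))))
        ≤ K * (((κ ^ m)⁻¹ + 1) * (I / (4 * ((K + 1) * ((κ ^ m)⁻¹ + 1))))) :=
      mul_le_mul_of_nonneg_left (mul_le_mul_of_nonneg_left (min_le_right _ _)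
        (by positivity)) hK
    refine h1.trans ?_
    have h2 : K * (((κ ^ m)⁻¹ + 1) * (I / (4 * ((K + 1) * ((κ ^ m)⁻¹ + 1)))))
        = K / (K + 1) * (I / 4) := by field_simp
    rw [h2]
    refine mul_le_of_le_one_left (by positivity) ?_
    rw [div_le_one (by positivity)]
    linarith
  obtain ⟨ρ, hρ, hgr⟩ := hgrid κ δ hκ hδ hδ1
  obtain ⟨ρ', hρ', hqm⟩ := hqmod (I / (4 * ((t₁ - t₀) * (Mw + 1)))) (by positivity)
  obtain ⟨n, hn⟩ := exists_nat_gt ((t₁ - t₀) / (min ρ ρ'))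
  have hmin : 0 < min ρ ρ' := lt_min hρ hρ'
  have hn0 : (0 : ℝ) < n := lt_trans (by positivity) hn
  have hn0' : 0 < n := by exact_mod_cast hn0
  have hτle : (t₁ - t₀) / n ≤ min ρ ρ' := by
    rw [div_lt_iff₀ hmin] at hn
    rw [div_le_iff₀ hn0]
    linarith
  have h1 := hgr n hn0' (hτle.trans (min_le_left _ _))
  have hnτ : n * ((t₁ - t₀) / n) = t₁ - t₀ := by field_simp
  have hτ : 0 < (t₁ - t₀) / n := by positivity
  have hτρ := hτle.trans (min_le_right ρ ρ')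
  generalize (t₁ - t₀) / n = τ at h1 hnτ hτ hτρ
  -- integral against sum
  have hTm : ∀ k : ℕ, k ≤ n → t₀ + k * τ ∈ Icc t₀ t₁ := by
    intro k hk
    have h1 : (k : ℝ) ≤ n := by exact_mod_cast hk
    have h2 : (0 : ℝ) ≤ k := Nat.cast_nonneg k
    constructor <;> nlinarith
  have hsucc : ∀ k : ℕ, t₀ + ((k + 1 : ℕ) : ℝ) * τ = t₀ + k * τ + τ := by
    intro k; push_cast; ring
  have hii : ∀ k < n, IntervalIntegrable q volume (t₀ + k * τ) (t₀ + ((k + 1 : ℕ) : ℝ) * τ) := by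
    intro k hk
    refine ContinuousOn.intervalIntegrable ?_
    rw [uIcc_of_le (by rw [hsucc]; linarith)]
    exact hqc.mono (Icc_subset_Icc (hTm k hk.le).1 (hTm (k + 1) hk).2)
  have hsum := intervalIntegral.sum_integral_adjacent_intervals (f := q) (μ := volume)
    (a := fun k : ℕ => t₀ + (k : ℝ) * τ) (n := n) hii
  simp only [Nat.cast_zero, zero_mul, add_zero] at hsum
  rw [show t₀ + (n : ℝ) * τ = t₁ by rw [hnτ]; ring, ← hIdef] at hsum
  set δ' := I / (4 * ((t₁ - t₀) * (Mw + 1))) * Mw with hδ'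
  have hstep : ∀ k ∈ Finset.range n, ∫ t in (t₀ + (k : ℝ) * τ)..(t₀ + ((k + 1 : ℕ) : ℝ) * τ), q t
      ≤ τ * (q (t₀ + ((k : ℝ) + 1) * τ) + δ') := by
    intro k hk
    have hk' := Finset.mem_range.1 hk
    have hle : t₀ + (k : ℝ) * τ ≤ t₀ + ((k + 1 : ℕ) : ℝ) * τ := by rw [hsucc]; linarith
    have h2 : ∫ t in (t₀ + (k : ℝ) * τ)..(t₀ + ((k + 1 : ℕ) : ℝ) * τ), q t
        ≤ ∫ _t in (t₀ + (k : ℝ) * τ)..(t₀ + ((k + 1 : ℕ) : ℝ) * τ),
          (q (t₀ + ((k : ℝ) + 1) * τ) + δ') := by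
      refine intervalIntegral.integral_mono_on hle (hii k hk') (by simp) ?_
      intro t ht
      have h3 := hqm t ⟨(hTm k hk'.le).1.trans ht.1, ht.2.trans (hTm (k + 1) hk').2⟩
        (t₀ + ((k + 1 : ℕ) : ℝ) * τ) (hTm (k + 1) hk') (by
          rw [abs_sub_comm, abs_of_nonneg (by linarith [ht.2])]
          linarith [ht.1, hsucc k])
      have h4 := le_abs_self (q t - q (t₀ + ((k + 1 : ℕ) : ℝ) * τ))
      push_cast at h3 h4 ⊢
      linarith
    refine h2.trans (le_of_eq ?_)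
    rw [intervalIntegral.integral_const, smul_eq_mul, hsucc]
    ring
  have h5 := Finset.sum_le_sum hstep
  rw [hsum, ← Finset.mul_sum, Finset.sum_add_distrib, Finset.sum_const, Finset.card_range,
    nsmul_eq_mul] at h5
  have h6 : (t₁ - t₀) * δ' ≤ I / 4 := by
    have : (t₁ - t₀) * δ' = Mw / (Mw + 1) * (I / 4) := by rw [hδ']; field_simp
    rw [this]
    refine mul_le_of_le_one_left (by positivity) ?_
    rw [div_le_one (by positivity)]
    linarith
  have h7 : τ * ((∑ k ∈ Finset.range n, q (t₀ + ((k : ℝ) + 1) * τ)) + n * δ')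
      = τ * (∑ k ∈ Finset.range n, q (t₀ + ((k : ℝ) + 1) * τ)) + (t₁ - t₀) * δ' := by
    rw [← hnτ]; ring
  rw [h7] at h5
  have h8 : τ * (∑ k ∈ Finset.range n, q (t₀ + ((k : ℝ) + 1) * τ))
      ≤ K * (κ + ((κ ^ m)⁻¹ + 1) * δ) := h1
  have h9 : K * (κ + ((κ ^ m)⁻¹ + 1) * δ) = K * κ + K * (((κ ^ m)⁻¹ + 1) * δ) := by ring
  linarith

/-- BLOCK C with `0 < N`. -/
theorem stmt_C (hM : Stmt_M) (N : ℕ) (hN : 0 < N) (c : Coef N) (m p : ℝ) (u v : ℝ → E N → ℝ)
    (t₀ t₁ R : ℝ) (hm : 1 < m) (hp : 1 ≤ p) (hpm : p ≤ m) (ht : t₀ < t₁) (hR : 0 < R)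
    (hu : ContinuousOn (fun q : ℝ × E N => u q.1 q.2) (Icc t₀ t₁ ×ˢ univ))
    (hu0 : ∀ t ∈ Icc t₀ t₁, ∀ x, 0 ≤ u t x) (hw : VeryWeak c m p u t₀ t₁)
    (hsub : SubSol c m p v t₀ t₁ R) (h0 : ∀ x, v t₀ x ≤ u t₀ x) :
    ∀ t ∈ Icc t₀ t₁, ∀ x, v t x ≤ u t x := by
  set cl : ℝ → ℝ := fun t => max t₀ (min t t₁) with hcl
  have hclc : Continuous cl := continuous_const.max (continuous_id.min continuous_const)
  have hclm : ∀ t, cl t ∈ Icc t₀ t₁ := fun t =>
    ⟨le_max_left _ _, max_le ht.le (min_le_right _ _)⟩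
  have hcle : ∀ t ∈ Icc t₀ t₁, cl t = t := fun t ht' => by
    simp only [hcl, min_eq_left ht'.2, max_eq_right ht'.1]
  have hext : ∀ f : ℝ → E N → ℝ, ContinuousOn (fun q : ℝ × E N => f q.1 q.2)
      (Icc t₀ t₁ ×ˢ univ) → Continuous (Function.uncurry fun t x => f (cl t) x) := by
    intro f hf
    have h1 : Continuous fun q : ℝ × E N => (cl q.1, q.2) :=
      (hclc.comp continuous_fst).prodMk continuous_snd
    exact hf.comp_continuous h1 fun q => ⟨hclm _, mem_univ _⟩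
  have huc := hext u hu
  have hvc := hext v hsub.cont
  have hw' : VeryWeak c m p (fun t x => u (cl t) x) t₀ t₁ := by
    intro s t hs hst ht' φ hφ hφc
    have h1 := hw s t hs hst ht' φ hφ hφc
    have e1 : ∀ (x : E N) (a : ℝ), ∫ r in s..t, u (cl r) x ^ a = ∫ r in s..t, u r x ^ a := by
      intro x a
      refine intervalIntegral.integral_congr fun r hr => ?_
      rw [uIcc_of_le hst.le] at hr
      rw [hcle r ⟨hs.trans hr.1, hr.2.trans ht'⟩]
    simp only [e1, hcle s ⟨hs, (hst.le.trans ht')⟩, hcle t ⟨hs.trans hst.le, ht'⟩]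
    exact h1
  have hC1 : ∀ t ∈ Icc t₀ t₁, C1c (R + 1) fun x => v (cl t) x ^ m := by
    intro t ht'
    have hsupp : Function.support (fun x => v (cl t) x ^ m) ⊆ Metric.closedBall 0 R := by
      intro x hx
      rw [Function.mem_support] at hx
      rw [mem_closedBall_zero_iff]
      by_contra hcon
      apply hx
      rw [hsub.supp _ (hclm t) x (not_le.1 hcon).le, Real.zero_rpow (by linarith)]
    have hts : tsupport (fun x => v (cl t) x ^ m) ⊆ Metric.closedBall 0 R :=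
      closure_minimal hsupp Metric.isClosed_closedBall
    exact ⟨hsub.smooth _ (hclm t), HasCompactSupport.of_support_subset_isCompact
      (isCompact_closedBall _ _) hsupp, hts.trans (Metric.closedBall_subset_ball (by linarith))⟩
  have key := comp_aux hM c hN (R := R + 1) (u := fun t x => u (cl t) x)
    (v := fun t x => v (cl t) x) hm hp hpm ht (by linarith) huc
    (fun t x => hu0 _ (hclm t) x) hw' hvc (fun t x => hsub.nonneg _ _) hC1
    (by
      intro s t hs hst ht' ψ hψ hψ0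
      simp only [hcle s ⟨hs, (hst.le.trans ht')⟩, hcle t ⟨hs.trans hst.le, ht'⟩]
      exact hsub.ineq s t hs hst ht' ψ hψ.smooth hψ.cpt hψ0)
    (by
      intro x
      simp only [hcle t₀ ⟨le_rfl, ht.le⟩]
      exact h0 x)
  intro t ht' x
  by_cases hx : ‖x‖ < R + 1
  · have h1 := key t ht' x (mem_ball_zero_iff.2 hx)
    simp only [hcle t ht'] at h1
    exact h1
  · rw [hsub.supp t ht' x (by linarith)]
    exact hu0 t ht' x

end Pool.Agent.MP909527
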