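import Mathlib

/-!
# Definitions for MP_909527_an

Cartan-Hadamard manifolds in geodesic normal coordinates, Laplace-Beltrami operator,
sectional curvature, (very weak) solutions of `u_t = Δ u^m + u^p`.
-/

set_option autoImplicit false

open MeasureTheory Set Filter Topology
open scoped ContDiff InnerProductSpace

namespace Pool.Agent.MP909527

/-- The space of coordinates `ℝ^N`. -/
abbrev E (N : ℕ) := EuclideanSpace ℝ (Fin N)

/-- The standard basis vector `e_i` of `ℝ^N`. -/
noncomputable def e {N : ℕ} (i : Fin N) : E N := EuclideanSpace.single i 1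

/-- A smooth Riemannian metric `g` on `ℝ^N` for which the coordinates are geodesic normal
coordinates at the origin (`gauss`: the Gauss lemma `g_x(x, v) = ⟨x, v⟩`, which says that the
straight lines `t ↦ t x`, `|x| = 1`, are unit speed geodesics orthogonal to the spheres; in
particular `g` is complete).  By the Cartan-Hadamard theorem and the Gauss lemma, every
Cartan-Hadamard manifold of dimension `N` is isometric, by the exponential map of any of its
points, to one of these. -/
structure NormalMetric (N : ℕ) where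
  /-- the metric: `g x v w` is the inner product of the tangent vectors `v, w` at `x` -/
  g : E N → E N →L[ℝ] E N →L[ℝ] ℝ
  smooth : ContDiff ℝ ∞ g
  symm : ∀ x v w, g x v w = g x w v
  pos : ∀ x v, v ≠ 0 → 0 < g x v v
  gauss : ∀ x v, g x x v = ⟪x, v⟫_ℝ

namespace NormalMetric

variable {N : ℕ} (M : NormalMetric N)

/-- The Christoffel symbols, `Γ_x(v, w)`, defined by the Koszul formula
`2 g(Γ(v,w), z) = (D_v g)(w,z) + (D_w g)(v,z) - (D_z g)(v,w)`.
Here `(M.g x).inverse` turns a covector into a vector. -/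
noncomputable def christoffel (x v w : E N) : E N :=
  (M.g x).inverse ((1 / 2 : ℝ) •
    (fderiv ℝ M.g x v w + fderiv ℝ M.g x w v - ((fderiv ℝ M.g x).flip v).flip w))

/-- The Riemann curvature tensor `R_x(u, v) w`
`= (D_u Γ)(v,w) - (D_v Γ)(u,w) + Γ(u, Γ(v,w)) - Γ(v, Γ(u,w))`. -/
noncomputable def curv (x u v w : E N) : E N :=
  fderiv ℝ (fun y => M.christoffel y v w) x u - fderiv ℝ (fun y => M.christoffel y u w) x v
    + M.christoffel x u (M.christoffel x v w) - M.christoffel x v (M.christoffel x u w)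

/-- The sectional curvature of the plane spanned by `u, v` at `x`. -/
noncomputable def sec (x u v : E N) : ℝ :=
  M.g x (M.curv x u v v) u / (M.g x u u * M.g x v v - (M.g x u v) ^ 2)

/-- The Riemannian volume density `√det(g_ij)`. -/
noncomputable def dens (x : E N) : ℝ :=
  √(Matrix.det (Matrix.of fun i j : Fin N => M.g x (e i) (e j)))

/-- The Riemannian measure `μ`. -/
noncomputable def vol : Measure (E N) := volume.withDensity fun x => ENNReal.ofReal (M.dens x)

/-- The Riemannian gradient. -/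
noncomputable def grad (φ : E N → ℝ) (x : E N) : E N := (M.g x).inverse (fderiv ℝ φ x)

/-- The Laplace-Beltrami operator `Δφ = (1/√det g) ∑_i ∂_i(√det g (grad φ)_i)`. -/
noncomputable def lap (φ : E N → ℝ) (x : E N) : ℝ :=
  (M.dens x)⁻¹ * ∑ i, fderiv ℝ (fun y => M.dens y * (M.grad φ y) i) x (e i)

/-- `u : (0,∞) × M → [0,∞)` is (the continuous representative of) a global solution of
`u_t = Δ u^m + u^p` with initial datum `u₀`. -/
structure IsGlobalSolution (m p : ℝ) (u₀ : E N → ℝ) (u : ℝ → E N → ℝ) : Prop where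
  cont : ContinuousOn (fun q : ℝ × E N => u q.1 q.2) (Ioi 0 ×ˢ univ)
  nonneg : ∀ t > 0, ∀ x, 0 ≤ u t x
  /-- `u ∈ L^m(M × (0,T))` -/
  memLm : ∀ T > 0, IntegrableOn (fun q : ℝ × E N => u q.1 q.2 ^ m) (Ioo 0 T ×ˢ univ)
    ((volume : Measure ℝ).prod M.vol)
  /-- `u ∈ L^∞(M × (τ,T))` -/
  bounded : ∀ τ T : ℝ, 0 < τ → τ < T → ∃ C, ∀ t ∈ Ioo τ T, ∀ x, u t x ≤ C
  /-- the weak formulation -/
  weak : ∀ T > 0, ∀ φ : ℝ → E N → ℝ, ContDiff ℝ ∞ (Function.uncurry φ) →
    HasCompactSupport (Function.uncurry φ) → (∀ x, φ T x = 0) →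
    -(∫ t in Ioo 0 T, ∫ x, u t x * deriv (fun s => φ s x) t ∂M.vol)
      = (∫ t in Ioo 0 T, ∫ x, u t x ^ m * M.lap (φ t) x ∂M.vol)
        + (∫ t in Ioo 0 T, ∫ x, u t x ^ p * φ t x ∂M.vol)
        + ∫ x, u₀ x * φ 0 x ∂M.vol

end NormalMetric

end Pool.Agent.MP909527
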