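import Mathlib

/-!
# Definitions for MP_909527_an

`lineDeriv ℝ f x u` is the directional derivative of `f` at `x` in the direction `u`.

Cartan-Hadamard manifolds in geodesic normal coordinates, sectional curvature, Laplace-Beltrami
operator, and global solutions of `u_t = Δ u^m + u^p`.
-/

set_option autoImplicit false

open MeasureTheory Set
open scoped ContDiff InnerProductSpace

namespace Pool.Agent.MP909527.NC

/-- The space of coordinates `ℝ^N`. -/
abbrev V (N : ℕ) := EuclideanSpace ℝ (Fin N)

/-- The standard basis vector `e_i` of `ℝ^N`. -/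
noncomputable def e {N : ℕ} (i : Fin N) : V N := EuclideanSpace.single i 1

/-- A smooth Riemannian metric on `ℝ^N` (`g x v w` is the inner product at the point `x` of the
tangent vectors `v` and `w`) for which the coordinates are geodesic normal coordinates at the
origin: `gauss` is the Gauss lemma `g_x(x, v) = ⟨x, v⟩`, which says that the lines `t ↦ t x` with
`|x| = 1` are unit speed geodesics orthogonal to the spheres around the origin (in particular the
metric is complete).  By the Cartan-Hadamard theorem and the Gauss lemma, every Cartan-Hadamard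
manifold of dimension `N` is isometric, by the exponential map at any of its points, to `ℝ^N` with
such a metric. -/
structure NormalMetric (N : ℕ) where
  /-- the metric -/
  g : V N → V N → V N → ℝ
  add_left : ∀ x v v' w, g x (v + v') w = g x v w + g x v' w
  smul_left : ∀ x (a : ℝ) v w, g x (a • v) w = a * g x v w
  symm : ∀ x v w, g x v w = g x w v
  pos : ∀ x v, v ≠ 0 → 0 < g x v v
  smooth : ∀ v w, ContDiff ℝ ∞ fun x => g x v w
  gauss : ∀ x v, g x x v = ⟪x, v⟫_ℝ

namespace NormalMetric

variable {N : ℕ} (M : NormalMetric N)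

/-- The matrix `(g_ij(x))`. -/
noncomputable def mat (x : V N) : Matrix (Fin N) (Fin N) ℝ :=
  Matrix.of fun i j => M.g x (e i) (e j)

/-- The vector `w` with `g_x(w, v) = l(v)` for all `v`, for a linear form `l` on `ℝ^N`:
`w^i = ∑_j g^{ij}(x) l(e_j)`. -/
noncomputable def sharp (x : V N) (l : V N → ℝ) : V N :=
  ∑ i, (∑ j, (M.mat x)⁻¹ i j * l (e j)) • e i

/-- The directional derivative at `x` in the direction `u` of the function `y ↦ g_y(v, w)`. -/
noncomputable def dg (x u v w : V N) : ℝ := lineDeriv ℝ (fun y => M.g y v w) x u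

/-- The Christoffel symbols as a vector: `Γ_x(v, w) = ∇_v w` for constant vector fields `v, w`, given
by the Koszul formula `2 g(Γ(v,w), z) = (D_v g)(w,z) + (D_w g)(v,z) - (D_z g)(v,w)`. -/
noncomputable def christoffel (x v w : V N) : V N :=
  M.sharp x fun z => (M.dg x v w z + M.dg x w v z - M.dg x z v w) / 2

/-- The directional derivative at `x` in the direction `u` of the function `y ↦ Γ_y(v, w)`. -/
noncomputable def dchristoffel (x u v w : V N) : V N :=
  lineDeriv ℝ (fun y => M.christoffel y v w) x u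

/-- The Riemann curvature tensor `R(u, v) w = ∇_u ∇_v w - ∇_v ∇_u w` (constant vector fields):
`R_x(u, v) w = (D_u Γ)(v,w) - (D_v Γ)(u,w) + Γ(u, Γ(v,w)) - Γ(v, Γ(u,w))`. -/
noncomputable def curv (x u v w : V N) : V N :=
  M.dchristoffel x u v w - M.dchristoffel x v u w
    + M.christoffel x u (M.christoffel x v w) - M.christoffel x v (M.christoffel x u w)

/-- The sectional curvature of the plane spanned by `u, v` at `x`. -/
noncomputable def sec (x u v : V N) : ℝ :=
  M.g x (M.curv x u v v) u / (M.g x u u * M.g x v v - (M.g x u v) ^ 2)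

/-- The Riemannian volume density `√det(g_ij)`. -/
noncomputable def dens (x : V N) : ℝ := √(M.mat x).det

/-- The Riemannian measure `μ`. -/
noncomputable def vol : Measure (V N) := volume.withDensity fun x => ENNReal.ofReal (M.dens x)

/-- The Riemannian gradient, `g(grad φ, v) = dφ(v)`. -/
noncomputable def grad (φ : V N → ℝ) (x : V N) : V N := M.sharp x fun v => lineDeriv ℝ φ x v

/-- The Laplace-Beltrami operator `Δφ = (1/√det g) ∑_i ∂_i(√det g (grad φ)^i)`. -/
noncomputable def lap (φ : V N → ℝ) (x : V N) : ℝ :=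
  (M.dens x)⁻¹ * ∑ i, lineDeriv ℝ (fun y => M.dens y * (M.grad φ y) i) x (e i)

/-- `u : (0,∞) × M → [0,∞)` is (the continuous representative of) a global solution of
`u_t = Δ u^m + u^p` with initial datum `u₀`. -/
structure IsGlobalSolution (m p : ℝ) (u₀ : V N → ℝ) (u : ℝ → V N → ℝ) : Prop where
  /-- `u` is continuous on `(0,∞) × M` -/
  cont : ContinuousOn (fun q : ℝ × V N => u q.1 q.2) (Ioi 0 ×ˢ univ)
  nonneg : ∀ t > 0, ∀ x, 0 ≤ u t x
  /-- `u ∈ L^m(M × (0,T))` -/
  memLm : ∀ T > 0, IntegrableOn (fun q : ℝ × V N => u q.1 q.2 ^ m) (Ioo 0 T ×ˢ univ)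
    ((volume : Measure ℝ).prod M.vol)
  /-- `u ∈ L^∞(M × (τ,T))` -/
  bounded : ∀ τ T : ℝ, 0 < τ → τ < T → ∃ C, ∀ t ∈ Ioo τ T, ∀ x, u t x ≤ C
  /-- the weak formulation -/
  weak : ∀ T > 0, ∀ φ : ℝ → V N → ℝ, ContDiff ℝ ∞ (Function.uncurry φ) →
    HasCompactSupport (Function.uncurry φ) → (∀ x, φ T x = 0) →
    -(∫ t in Ioo 0 T, ∫ x, u t x * deriv (fun s => φ s x) t ∂M.vol)
      = (∫ t in Ioo 0 T, ∫ x, u t x ^ m * M.lap (φ t) x ∂M.vol)
        + (∫ t in Ioo 0 T, ∫ x, u t x ^ p * φ t x ∂M.vol)
        + ∫ x, u₀ x * φ 0 x ∂M.vol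

end NormalMetric

end Pool.Agent.MP909527.NC
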