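import Mathlib

/-! # Zarantonello's lemma: strongly monotone Lipschitz equations on a closed subspace -/

set_option autoImplicit false

open scoped InnerProductSpace NNReal

namespace Pool.Agent.MP909527

variable {H : Type*} [NormedAddCommGroup H] [InnerProductSpace ℝ H] [CompleteSpace H]

theorem abs_solve (W : Submodule ℝ H) (hW : IsClosed (W : Set H)) (G : H → H) {K c : ℝ}
    (hc : 0 < c) (hK : ∀ x ∈ W, ∀ y ∈ W, ‖G x - G y‖ ≤ K * ‖x - y‖)
    (hm : ∀ x ∈ W, ∀ y ∈ W, c * ‖x - y‖ ^ 2 ≤ ⟪G x - G y, x - y⟫_ℝ) :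
    ∃ x ∈ W, ∀ z ∈ W, ⟪G x, z⟫_ℝ = 0 := by
  have : CompleteSpace W := hW.completeSpace_coe
  -- WLOG `K` large
  obtain ⟨L, hLc, hLpos, hL⟩ : ∃ L : ℝ, c < L ∧ 0 < L ∧
      ∀ x ∈ W, ∀ y ∈ W, ‖G x - G y‖ ≤ L * ‖x - y‖ := by
    refine ⟨max K (c + 1), lt_of_lt_of_le (by linarith) (le_max_right _ _),
      lt_of_lt_of_le (by linarith) (le_max_right _ _), fun x hx y hy => ?_⟩
    exact (hK x hx y hy).trans (mul_le_mul_of_nonneg_right (le_max_left _ _) (norm_nonneg _))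
  set r : ℝ := c / L ^ 2 with hr
  have hrpos : 0 < r := by positivity
  let P : H →L[ℝ] W := W.orthogonalProjectionOnto
  have hPin : ∀ (v : H) (z : W), ⟪((P v : W) : H), (z : H)⟫_ℝ = ⟪v, (z : H)⟫_ℝ := by
    intro v z
    have := Submodule.inner_orthogonalProjectionOnto_eq_of_mem_right z v
    exact this
  have hPn : ∀ v : H, ‖P v‖ ≤ ‖v‖ := fun v => W.norm_orthogonalProjectionOnto_apply_le v
  let T : W → W := fun x => x - r • P (G x)
  set q : ℝ := 1 - c ^ 2 / L ^ 2 with hq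
  have hq0 : 0 ≤ q := by
    have : c ^ 2 / L ^ 2 ≤ 1 := by
      rw [div_le_one (by positivity)]; nlinarith
    rw [hq]; linarith
  have hq1 : q < 1 := by
    have : 0 < c ^ 2 / L ^ 2 := by positivity
    rw [hq]; linarith
  have hsq : ∀ x y : W, ‖T x - T y‖ ^ 2 ≤ q * ‖x - y‖ ^ 2 := by
    intro x y
    have h1 : T x - T y = (x - y) - r • P (G x - G y) := by
      simp only [T, map_sub, smul_sub]; abel
    rw [h1, norm_sub_sq_real, real_inner_smul_right, norm_smul, Real.norm_of_nonneg hrpos.le]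
    have h2 : c * ‖x - y‖ ^ 2 ≤ ⟪x - y, P (G x - G y)⟫_ℝ := by
      have e1 : ⟪x - y, P (G x - G y)⟫_ℝ = ⟪G x - G y, (x : H) - y⟫_ℝ := by
        rw [real_inner_comm, Submodule.coe_inner, hPin, Submodule.coe_sub]
      rw [e1]
      exact hm x x.2 y y.2
    have h3 : ‖P (G x - G y)‖ ≤ L * ‖x - y‖ := (hPn _).trans (hL x x.2 y y.2)
    have h4 : (r * ‖P (G x - G y)‖) ^ 2 ≤ r ^ 2 * (L ^ 2 * ‖x - y‖ ^ 2) := by
      have h5 : ‖P (G x - G y)‖ ^ 2 ≤ (L * ‖x - y‖) ^ 2 :=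
        pow_le_pow_left₀ (norm_nonneg _) h3 2
      calc (r * ‖P (G x - G y)‖) ^ 2 = r ^ 2 * ‖P (G x - G y)‖ ^ 2 := by ring
        _ ≤ r ^ 2 * (L * ‖x - y‖) ^ 2 := mul_le_mul_of_nonneg_left h5 (by positivity)
        _ = _ := by ring
    have h6 : r ^ 2 * (L ^ 2 * ‖x - y‖ ^ 2) = c ^ 2 / L ^ 2 * ‖x - y‖ ^ 2 := by
      rw [hr]; field_simp
    have h7 : 2 * (r * (c * ‖x - y‖ ^ 2)) = 2 * (c ^ 2 / L ^ 2) * ‖x - y‖ ^ 2 := by
      rw [hr]; field_simp
    have h8 : r * (c * ‖x - y‖ ^ 2) ≤ r * ⟪x - y, P (G x - G y)⟫_ℝ :=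
      mul_le_mul_of_nonneg_left h2 hrpos.le
    rw [hq]
    nlinarith
  have hcontr : ContractingWith (Real.toNNReal (√q)) T := by
    refine ⟨?_, LipschitzWith.of_dist_le_mul fun x y => ?_⟩
    · rw [← NNReal.coe_lt_coe, Real.coe_toNNReal _ (Real.sqrt_nonneg _), NNReal.coe_one]
      exact (Real.sqrt_lt' one_pos).2 (by simpa using hq1)
    · rw [dist_eq_norm, dist_eq_norm, Real.coe_toNNReal _ (Real.sqrt_nonneg _)]
      refine abs_le_of_sq_le_sq' ?_ (by positivity) |>.2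
      rw [mul_pow, Real.sq_sqrt hq0]
      exact hsq x y
  obtain ⟨x, hx⟩ := hcontr.exists_fixedPoint 0 (edist_ne_top _ _)
  refine ⟨x, x.2, fun z hz => ?_⟩
  have hfix : P (G x) = 0 := by
    have h1 : (x : W) - r • P (G x) = x := hx.1
    have h2 : r • P (G x) = 0 := by
      have := sub_eq_self.1 h1
      exact this
    exact (smul_eq_zero.1 h2).resolve_left hrpos.ne'
  have := hPin (G x) ⟨z, hz⟩
  rw [hfix] at this
  simpa using this.symm

end Pool.Agent.MP909527
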