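import Pool.Agent.Work.MP_909527_an.L1

/-! # The `H^{-1}` estimate, one step -/

set_option autoImplicit false

open MeasureTheory Set Filter Topology
open scoped ContDiff InnerProductSpace ENNReal

namespace Pool.Agent.MP909527

variable {N : ℕ}

/-- Energy of an element of `HH`. -/
noncomputable def En {R : ℝ} (c : Coef N) (x : HH N R) : ℝ :=
  ∫ y, ⟪c.A y (x.snd y), x.snd y⟫_ℝ ∂(mu N R)

theorem En_nonneg {R : ℝ} (c : Coef N) (x : HH N R) : 0 ≤ En c x :=
  integral_nonneg fun y => A_nonneg c y _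

theorem int_A {R : ℝ} (c : Coef N) (x y : HH N R) :
    Integrable (fun z => ⟪c.A z (x.snd z), y.snd z⟫_ℝ) (mu N R) :=
  memLp_inner (memLp_A c (Lp.memLp x.snd)) (Lp.memLp y.snd)

theorem norm_sq_le_En (c : Coef N) {R : ℝ} (hN : 0 < N) : ∃ C > 0, ∀ x ∈ W N R,
    ‖x‖ ^ 2 ≤ C * En c x := by
  obtain ⟨lam, hlam, hell⟩ := elliptic c R
  refine ⟨(4 * R ^ 2 + 1) / lam, by positivity, fun x hx => ?_⟩
  have h1 := W_poincare hN x hx
  have h2 : lam * ‖x.snd‖ ^ 2 ≤ En c x := by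
    rw [norm_sq_Lp, ← integral_const_mul]
    refine integral_mono_ae ((Lp.memLp x.snd).integrable_norm_pow (by norm_num) |>.const_mul _)
      (int_A c x x) ?_
    filter_upwards [ae_mem_ball R] with y hy
    exact hell y hy _
  rw [WithLp.prod_norm_sq_eq_of_L2]
  have h3 : ‖x.fst‖ ^ 2 + ‖x.snd‖ ^ 2 ≤ (4 * R ^ 2 + 1) * ‖x.snd‖ ^ 2 := by linarith
  refine h3.trans ?_
  rw [div_mul_eq_mul_div, le_div_iff₀ hlam]
  nlinarith [mul_le_mul_of_nonneg_left h2 (show (0 : ℝ) ≤ 4 * R ^ 2 + 1 by positivity)]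

/-- Riesz representation of `Ψ ↦ ∫ w z Ψ`. -/
theorem riesz (c : Coef N) {R : ℝ} (hN : 0 < N) {z : E N → ℝ} (hz : MemLp z 2 (mu N R)) :
    ∃ x ∈ W N R, ∀ Ψ ∈ W N R, ∫ y, ⟪c.A y (x.snd y), Ψ.snd y⟫_ℝ ∂(mu N R)
      = ∫ y, c.w y * z y * Ψ.fst y ∂(mu N R) := by
  obtain ⟨D, hD, hD'⟩ := solve c (R := R) hN (b := fun y _ => -(c.w y * z y)) (Kb := 0)
    (q := fun _ => 0) (by intro x _ s t; simp) (by intro x _ s t; simp)
    (fun f _ => (memLp_w_mul c hz).neg) (memLp_const 0)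
  refine ⟨D, hD, fun Ψ hΨ => ?_⟩
  have := hD' Ψ hΨ
  simp only [add_zero, neg_mul, integral_neg] at this
  linarith

theorem young_aux {m ϖ s : ℝ} (hm : 1 < m) (hϖ : 0 ≤ ϖ) (hs : 0 ≤ s) :
    ϖ * s ≤ 1 / 2 * s ^ (m + 1) + ϖ * (2 * ϖ) ^ (1 / m) := by
  rcases le_total s ((2 * ϖ) ^ (1 / m)) with h | h
  · have h1 : 0 ≤ s ^ (m + 1) := Real.rpow_nonneg hs _
    nlinarith [mul_le_mul_of_nonneg_left h hϖ]
  · have h0 : 0 ≤ (2 * ϖ) ^ (1 / m) := Real.rpow_nonneg (by linarith) _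
    have h1 : 2 * ϖ ≤ s ^ m := by
      have h2 := Real.rpow_le_rpow h0 h (show (0 : ℝ) ≤ m by linarith)
      rwa [← Real.rpow_mul (by linarith), one_div_mul_cancel (by linarith), Real.rpow_one] at h2
    have h3 : s ^ (m + 1) = s * s ^ m := by
      rw [← Real.rpow_one_add' hs (by linarith)]; congr 1; ring
    have h4 : 0 ≤ ϖ * (2 * ϖ) ^ (1 / m) := mul_nonneg hϖ h0
    rw [h3]
    nlinarith [mul_le_mul_of_nonneg_left h1 hs]

/-- error functional bound on `W`. -/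
theorem err_bound (c : Coef N) {R η : ℝ} (hη : 0 ≤ η) {U h : E N → ℝ} (hU : ContDiff ℝ ∞ U)
    (hh : Continuous h)
    (herr : ∀ ψ : E N → ℝ, C1c R ψ →
        |(∫ x, ⟪c.A x (gradient U x), gradient ψ x⟫_ℝ) + ∫ x, h x * ψ x|
          ≤ η * ((∫ x, |ψ x|) + ∫ x, ‖gradient ψ x‖)) :
    ∀ Ψ ∈ W N R, |(∫ x, ⟪c.A x (gradient U x), Ψ.snd x⟫_ℝ ∂(mu N R))
        + ∫ x, h x * Ψ.fst x ∂(mu N R)| ≤ η * (2 * (mu N R).real univ + ‖Ψ‖ ^ 2) := by
  have hU1 : ContDiff ℝ 1 U := hU.of_le (by simp)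
  have hm1 : MemLp h 2 (mu N R) := memLp_continuous hh
  have hm2 : MemLp (fun x => c.A x (gradient U x)) 2 (mu N R) :=
    memLp_A c (memLp_continuous (continuous_gradient hU1))
  have hrw : ∀ Ψ : HH N R, (∫ x, ⟪c.A x (gradient U x), Ψ.snd x⟫_ℝ ∂(mu N R))
        + ∫ x, h x * Ψ.fst x ∂(mu N R) = ⟪pr _ _ hm1 hm2, Ψ⟫_ℝ := by
    intro Ψ; rw [inner_pr, add_comm]
  intro Ψ hΨ
  rw [hrw]
  refine W_le (F := fun Ψ => |⟪pr _ _ hm1 hm2, Ψ⟫_ℝ|)
    (G := fun Ψ => η * (2 * (mu N R).real univ + ‖Ψ‖ ^ 2)) (by fun_prop) (by fun_prop) ?_ Ψ hΨ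
  intro ψ hψ
  have e1 := pr_fst ψ (gradient ψ) hψ.memLp hψ.memLp_grad (R := R)
  have e2 := pr_snd ψ (gradient ψ) hψ.memLp hψ.memLp_grad (R := R)
  have i1 : ∫ x, ⟪c.A x (gradient U x),
      (pr ψ (gradient ψ) hψ.memLp hψ.memLp_grad : HH N R).snd x⟫_ℝ ∂(mu N R)
      = ∫ x, ⟪c.A x (gradient U x), gradient ψ x⟫_ℝ := by
    rw [← integral_mu (R := R) (fun x hx => by rw [hψ.grad_zero_of_notMem hx, inner_zero_right])]
    refine integral_congr_ae ?_
    filter_upwards [e2] with x hx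
    rw [hx]
  have i2 : ∫ x, h x * (pr ψ (gradient ψ) hψ.memLp hψ.memLp_grad : HH N R).fst x ∂(mu N R)
      = ∫ x, h x * ψ x := by
    rw [← integral_mu (R := R) (fun x hx => by rw [hψ.zero_of_notMem hx, mul_zero])]
    refine integral_congr_ae ?_
    filter_upwards [e1] with x hx
    rw [hx]
  rw [← hrw, i1, i2]
  refine (herr ψ hψ).trans (mul_le_mul_of_nonneg_left ?_ hη)
  have hc1 : Integrable (fun _ : E N => (1 : ℝ)) (mu N R) := integrable_const 1
  have j1 : ∫ x, |ψ x| ≤ (mu N R).real univ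
      + ‖(pr ψ (gradient ψ) hψ.memLp hψ.memLp_grad : HH N R).fst‖ ^ 2 := by
    rw [← integral_mu (R := R) (fun x hx => by rw [hψ.zero_of_notMem hx, abs_zero]), norm_sq_Lp]
    have : (mu N R).real univ = ∫ _x, (1 : ℝ) ∂(mu N R) := by simp
    rw [this, ← integral_add hc1 ((Lp.memLp _).integrable_norm_pow (by norm_num))]
    refine integral_mono_ae ?_ (hc1.add ((Lp.memLp _).integrable_norm_pow (by norm_num))) ?_
    · exact ((hψ.memLp (q := 1)).integrable le_rfl).abs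
    · filter_upwards [e1] with x hx
      rw [hx, Real.norm_eq_abs, sq_abs]
      nlinarith [sq_nonneg (|ψ x| - 1), sq_abs (ψ x), abs_nonneg (ψ x)]
  have j2 : ∫ x, ‖gradient ψ x‖ ≤ (mu N R).real univ
      + ‖(pr ψ (gradient ψ) hψ.memLp hψ.memLp_grad : HH N R).snd‖ ^ 2 := by
    rw [← integral_mu (R := R) (fun x hx => by rw [hψ.grad_zero_of_notMem hx, norm_zero]),
      norm_sq_Lp]
    have : (mu N R).real univ = ∫ _x, (1 : ℝ) ∂(mu N R) := by simp
    rw [this, ← integral_add hc1 ((Lp.memLp _).integrable_norm_pow (by norm_num))]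
    refine integral_mono_ae ?_ (hc1.add ((Lp.memLp _).integrable_norm_pow (by norm_num))) ?_
    · exact ((hψ.memLp_grad (q := 1)).integrable le_rfl).norm
    · filter_upwards [e2] with x hx
      rw [hx]
      nlinarith [sq_nonneg (‖gradient ψ x‖ - 1), norm_nonneg (gradient ψ x)]
  rw [WithLp.prod_norm_sq_eq_of_L2]
  linarith

theorem H1_step (c : Coef N) {R : ℝ} {m ε τ ϖ η C : ℝ} (hm : 1 < m) (hε : 0 < ε)
    (hτ : 0 < τ) (hϖ : 0 ≤ ϖ) (hη : 0 ≤ η)
    (hC : ∀ x ∈ W N R, ‖x‖ ^ 2 ≤ C * En c x)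
    {a F U u u' : E N → ℝ} (ha : MemLp a 2 (mu N R))
    (hF : Continuous F) (hU : ContDiff ℝ ∞ U) (hu : Continuous u) (hu' : Continuous u')
    (hu0 : ∀ x, 0 ≤ u x)
    (hϖU : ∀ x ∈ Metric.closedBall (0 : E N) R, |τ * Phi m ε (u x) - U x| ≤ τ * ϖ)
    (herr : ∀ ψ : E N → ℝ, C1c R ψ →
        |(∫ x, ⟪c.A x (gradient U x), gradient ψ x⟫_ℝ)
          + ∫ x, (c.w x * (u x - u' x - F x)) * ψ x|
          ≤ η * ((∫ x, |ψ x|) + ∫ x, ‖gradient ψ x‖))
    {D : HH N R} (hD : D ∈ W N R)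
    (heq : ∀ Ψ ∈ W N R, (∫ x, c.w x * (beta m ε ((D.fst x + U x) / τ) - a x - F x) * Ψ.fst x
          ∂(mu N R))
        + ∫ x, ⟪c.A x (D.snd x + gradient U x), Ψ.snd x⟫_ℝ ∂(mu N R) = 0)
    (hw0 : ∀ᵐ x ∂(mu N R), 0 ≤ D.fst x + U x)
    {X X' : HH N R} (hX : X ∈ W N R)
    (hXr : ∀ Ψ ∈ W N R, ∫ y, ⟪c.A y (X.snd y), Ψ.snd y⟫_ℝ ∂(mu N R)
      = ∫ y, c.w y * (beta m ε ((D.fst y + U y) / τ) - u y) * Ψ.fst y ∂(mu N R))
    (hXr' : ∀ Ψ ∈ W N R, ∫ y, ⟪c.A y (X'.snd y), Ψ.snd y⟫_ℝ ∂(mu N R)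
      = ∫ y, c.w y * (a y - u' y) * Ψ.fst y ∂(mu N R)) :
    Integrable (fun y => c.w y * |beta m ε ((D.fst y + U y) / τ) - u y| ^ (m + 1)) (mu N R) ∧
    1 / 2 * En c X
      + 1 / 2 * τ * ∫ y, c.w y * |beta m ε ((D.fst y + U y) / τ) - u y| ^ (m + 1) ∂(mu N R)
      ≤ 1 / 2 * En c X' + τ * (ϖ * (2 * ϖ) ^ (1 / m)) * (∫ y, c.w y ∂(mu N R))
        + η * (2 * (mu N R).real univ + C * En c X) := by
  have hU1 : ContDiff ℝ 1 U := hU.of_le (by simp)
  have hwm : MemLp (fun x => (D.fst x + U x) / τ) 2 (mu N R) :=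
    memLp_arg (Lp.memLp D.fst) hU.continuous
  have hβ : MemLp (fun x => beta m ε ((D.fst x + U x) / τ)) 2 (mu N R) := memLp_beta hm hε hwm
  set z : E N → ℝ := fun y => beta m ε ((D.fst y + U y) / τ) - u y with hz
  have hzm : MemLp z 2 (mu N R) := hβ.sub (memLp_continuous hu)
  have hPc : Continuous fun y => Phi m ε (u y) := by
    refine ((hu.add continuous_const).rpow_const fun x => Or.inr (by linarith)).sub
      continuous_const
  -- lower bound for `z D₁`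
  have hzD : ∀ᵐ y ∂(mu N R), |z y| ^ (m + 1) ≤ z y * ((D.fst y + U y) / τ - Phi m ε (u y)) := by
    filter_upwards [hw0] with y hy
    have h1 : 0 ≤ (D.fst y + U y) / τ := div_nonneg hy hτ.le
    have h2 := Phi_mono_lower hm hε (beta_nonneg hm hε h1) (hu0 y)
    rwa [Phi_beta hm hε h1] at h2
  have hGi : Integrable (fun y => c.w y * (z y * ((D.fst y + U y) / τ - Phi m ε (u y))))
      (mu N R) := by
    have h1 : Integrable (fun y => (c.w y * z y) * ((D.fst y + U y) / τ - Phi m ε (u y)))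
        (mu N R) := MemLp.integrable_mul (memLp_w_mul c hzm)
          (hwm.sub (memLp_continuous hPc))
    refine h1.congr (ae_of_all _ fun y => ?_)
    simp only; ring
  have hzi : Integrable (fun y => c.w y * |z y| ^ (m + 1)) (mu N R) := by
    refine hGi.mono ?_ ?_
    · refine c.smoothw.continuous.aestronglyMeasurable.mul ?_
      have h3 : Measurable fun s : ℝ => |s| ^ (m + 1) := by fun_prop
      exact (h3.comp_aemeasurable hzm.1.aemeasurable).aestronglyMeasurable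
    · filter_upwards [hzD] with y hy
      have h1 : 0 ≤ c.w y * |z y| ^ (m + 1) := mul_nonneg (c.wpos y).le (by positivity)
      have h2 := mul_le_mul_of_nonneg_left hy (c.wpos y).le
      rw [Real.norm_eq_abs, abs_of_nonneg h1, Real.norm_eq_abs]
      exact h2.trans (le_abs_self _)
  refine ⟨hzi, ?_⟩
  -- the identity `a(X,X) - a(X',X) = -∫ w z D₁ - err(X)`
  have hh : Continuous fun x => c.w x * (u x - u' x - F x) :=
    c.smoothw.continuous.mul ((hu.sub hu').sub hF)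
  have herrX := err_bound c hη hU hh herr X hX
  set err : ℝ := (∫ x, ⟪c.A x (gradient U x), X.snd x⟫_ℝ ∂(mu N R))
        + ∫ x, (c.w x * (u x - u' x - F x)) * X.fst x ∂(mu N R) with herrdef
  have hm4 : MemLp (fun x => c.A x (D.snd x)) 2 (mu N R) := memLp_A c (Lp.memLp D.snd)
  have hm5 : MemLp (fun x => c.A x (gradient U x)) 2 (mu N R) :=
    memLp_A c (memLp_continuous (continuous_gradient hU1))
  have k1 := heq X hX
  have k1' : ∫ x, ⟪c.A x (D.snd x + gradient U x), X.snd x⟫_ℝ ∂(mu N R)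
      = (∫ x, ⟪c.A x (D.snd x), X.snd x⟫_ℝ ∂(mu N R))
        + ∫ x, ⟪c.A x (gradient U x), X.snd x⟫_ℝ ∂(mu N R) := by
    rw [← integral_add (memLp_inner hm4 (Lp.memLp _)) (memLp_inner hm5 (Lp.memLp _))]
    refine integral_congr_ae (ae_of_all _ fun x => ?_)
    simp only [map_add, inner_add_left]
  have k2 := hXr X hX
  have k3 := hXr' X hX
  have k4 := hXr D hD
  have k5 : ∫ x, ⟪c.A x (D.snd x), X.snd x⟫_ℝ ∂(mu N R)
      = ∫ y, ⟪c.A y (X.snd y), D.snd y⟫_ℝ ∂(mu N R) := by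
    refine integral_congr_ae (ae_of_all _ fun x => ?_)
    simp only
    rw [c.symm, real_inner_comm]
  have k6 : ∫ x, c.w x * (beta m ε ((D.fst x + U x) / τ) - a x - F x) * X.fst x ∂(mu N R)
      = (∫ y, c.w y * (beta m ε ((D.fst y + U y) / τ) - u y) * X.fst y ∂(mu N R))
        - (∫ y, c.w y * (a y - u' y) * X.fst y ∂(mu N R))
        + ∫ x, (c.w x * (u x - u' x - F x)) * X.fst x ∂(mu N R) := by
    have j1 : Integrable (fun y => c.w y * (beta m ε ((D.fst y + U y) / τ) - u y) * X.fst y)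
        (mu N R) := MemLp.integrable_mul (memLp_w_mul c hzm) (Lp.memLp _)
    have j2 : Integrable (fun y => c.w y * (a y - u' y) * X.fst y) (mu N R) :=
      MemLp.integrable_mul (memLp_w_mul c (ha.sub (memLp_continuous hu'))) (Lp.memLp _)
    have j3 : Integrable (fun x => (c.w x * (u x - u' x - F x)) * X.fst x) (mu N R) :=
      MemLp.integrable_mul (memLp_continuous hh (q := 2)) (Lp.memLp X.fst)
    have j4 : Integrable (fun y => c.w y * (beta m ε ((D.fst y + U y) / τ) - u y) * X.fst y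
        - c.w y * (a y - u' y) * X.fst y) (mu N R) := j1.sub j2
    rw [← integral_sub j1 j2, ← integral_add j4 j3]
    refine integral_congr_ae (ae_of_all _ fun x => ?_)
    simp only; ring
  -- Cauchy-Schwarz
  have k7 : En c X - ∫ y, ⟪c.A y (X'.snd y), X.snd y⟫_ℝ ∂(mu N R)
      ≥ 1 / 2 * En c X - 1 / 2 * En c X' := by
    have h1 : 0 ≤ ∫ y, ⟪c.A y (X.snd y - X'.snd y), X.snd y - X'.snd y⟫_ℝ ∂(mu N R) :=
      integral_nonneg fun y => A_nonneg c y _
    have h2 : ∫ y, ⟪c.A y (X.snd y - X'.snd y), X.snd y - X'.snd y⟫_ℝ ∂(mu N R)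
        = En c X + En c X' - 2 * ∫ y, ⟪c.A y (X'.snd y), X.snd y⟫_ℝ ∂(mu N R) := by
      have e1 : Integrable (fun y => ⟪c.A y (X.snd y), X.snd y⟫_ℝ
          + ⟪c.A y (X'.snd y), X'.snd y⟫_ℝ) (mu N R) := (int_A c X X).add (int_A c X' X')
      rw [En, En, ← integral_add (int_A c X X) (int_A c X' X'), ← integral_const_mul,
        ← integral_sub e1 ((int_A c X' X).const_mul _)]
      refine integral_congr_ae (ae_of_all _ fun y => ?_)
      simp only [map_sub, inner_sub_left, inner_sub_right]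
      have : ⟪c.A y (X.snd y), X'.snd y⟫_ℝ = ⟪c.A y (X'.snd y), X.snd y⟫_ℝ := by
        rw [c.symm, real_inner_comm]
      rw [this]; ring
    linarith
  -- lower bound of `∫ w z D₁`
  have k8 : τ * (∫ y, c.w y * |z y| ^ (m + 1) ∂(mu N R))
      - (1 / 2 * τ * (∫ y, c.w y * |z y| ^ (m + 1) ∂(mu N R))
        + τ * (ϖ * (2 * ϖ) ^ (1 / m)) * (∫ y, c.w y ∂(mu N R)))
      ≤ ∫ y, c.w y * (beta m ε ((D.fst y + U y) / τ) - u y) * D.fst y ∂(mu N R) := by
    have hwi : Integrable (fun x => c.w x) (mu N R) :=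
      (memLp_continuous c.smoothw.continuous (q := 1)).integrable le_rfl
    have j7 : Integrable (fun y => 1 / 2 * τ * (c.w y * |z y| ^ (m + 1))
        + τ * (ϖ * (2 * ϖ) ^ (1 / m)) * c.w y) (mu N R) :=
      (hzi.const_mul _).add (hwi.const_mul _)
    have j5 : Integrable (fun y => τ * (c.w y * |z y| ^ (m + 1))
        - (1 / 2 * τ * (c.w y * |z y| ^ (m + 1)) + τ * (ϖ * (2 * ϖ) ^ (1 / m)) * c.w y))
        (mu N R) := (hzi.const_mul _).sub j7
    have j6 : ∫ y, (τ * (c.w y * |z y| ^ (m + 1))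
        - (1 / 2 * τ * (c.w y * |z y| ^ (m + 1)) + τ * (ϖ * (2 * ϖ) ^ (1 / m)) * c.w y))
          ∂(mu N R) = τ * (∫ y, c.w y * |z y| ^ (m + 1) ∂(mu N R))
      - (1 / 2 * τ * (∫ y, c.w y * |z y| ^ (m + 1) ∂(mu N R))
        + τ * (ϖ * (2 * ϖ) ^ (1 / m)) * (∫ y, c.w y ∂(mu N R))) := by
      rw [integral_sub (hzi.const_mul _) j7,
        integral_add (hzi.const_mul _) (hwi.const_mul _), integral_const_mul, integral_const_mul,
        integral_const_mul]
    rw [← j6]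
    refine integral_mono_ae j5 ?_ ?_
    · exact MemLp.integrable_mul (memLp_w_mul c hzm) (Lp.memLp _)
    · filter_upwards [hzD, ae_mem_ball R] with y hy hyb
      have h1 := hϖU y hyb
      have h2 : D.fst y = τ * ((D.fst y + U y) / τ) - U y := by field_simp; ring
      have h3 : z y * D.fst y = τ * (z y * ((D.fst y + U y) / τ - Phi m ε (u y)))
          + z y * (τ * Phi m ε (u y) - U y) := by
        conv_lhs => rw [h2]
        ring
      have h4 : -(|z y| * (τ * ϖ)) ≤ z y * (τ * Phi m ε (u y) - U y) := by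
        have := neg_abs_le (z y * (τ * Phi m ε (u y) - U y))
        rw [abs_mul] at this
        have h5 := mul_le_mul_of_nonneg_left h1 (abs_nonneg (z y))
        linarith
      have h5 := young_aux hm hϖ (abs_nonneg (z y))
      have h6 : τ * |z y| ^ (m + 1) - (1 / 2 * τ * |z y| ^ (m + 1)
          + τ * (ϖ * (2 * ϖ) ^ (1 / m))) ≤ z y * D.fst y := by
        rw [h3]
        have h7 := mul_le_mul_of_nonneg_left hy hτ.le
        have h8 := mul_le_mul_of_nonneg_left h5 hτ.le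
        nlinarith
      have h9 := mul_le_mul_of_nonneg_left h6 (c.wpos y).le
      have h10 : c.w y * (beta m ε ((D.fst y + U y) / τ) - u y) * D.fst y
          = c.w y * (z y * D.fst y) := by rw [hz]; ring
      rw [h10]
      linarith
  have k9 : η * (2 * (mu N R).real univ + ‖X‖ ^ 2)
      ≤ η * (2 * (mu N R).real univ + C * En c X) :=
    mul_le_mul_of_nonneg_left (by linarith [hC X hX]) hη
  have k10 := neg_abs_le err
  have k11 : En c X = ∫ y, ⟪c.A y (X.snd y), X.snd y⟫_ℝ ∂(mu N R) := rfl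
  have k12 : En c X - ∫ y, ⟪c.A y (X'.snd y), X.snd y⟫_ℝ ∂(mu N R)
      = -(∫ y, c.w y * (beta m ε ((D.fst y + U y) / τ) - u y) * D.fst y ∂(mu N R)) - err := by
    rw [k11, k2, k3, ← k4, ← k5, herrdef]
    linarith
  linarith

end Pool.Agent.MP909527
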