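import Pool.Agent.Work.MP_909527_an.Defs

/-!
# MP_909527_an: exact statements of the blocks

Blueprint (helper50).  Everything happens on `ℝ^N` with a smooth symmetric positive matrix
field `A` (`= √g g^{-1}`) and a smooth density `w` (`= √g`).  `L φ = div (A ∇φ)`.
-/

set_option autoImplicit false

open MeasureTheory Set Filter Topology
open scoped ContDiff InnerProductSpace

namespace Pool.Agent.MP909527

/-- Coefficients of a divergence form operator on `ℝ^N`, with a density. -/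
structure Coef (N : ℕ) where
  A : E N → E N →L[ℝ] E N
  w : E N → ℝ
  smoothA : ContDiff ℝ ∞ A
  smoothw : ContDiff ℝ ∞ w
  symm : ∀ x v z, ⟪A x v, z⟫_ℝ = ⟪v, A x z⟫_ℝ
  pos : ∀ x v, v ≠ 0 → 0 < ⟪A x v, v⟫_ℝ
  wpos : ∀ x, 0 < w x

/-- `L φ = div (A ∇φ)`. -/
noncomputable def Coef.L {N : ℕ} (c : Coef N) (φ : E N → ℝ) (x : E N) : ℝ :=
  ∑ i, fderiv ℝ (fun y => (c.A y (gradient φ y)) i) x (e i)

/-- BLOCK M (smoothing).  `U ≥ 0`, `h` continuous with `L U = h` in the sense of distributions: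
smooth approximations `V` of `U` with small error in weak form, also against `C^1` test
functions.  Proof: `V = ρ_ε * U`; commutator `∫ ⟨A∇V,∇ψ⟩ + ∫ h_ε ψ = ∫ ⟨C_ε, ∇ψ⟩`,
`C_ε(x) = ∫ (U(y) - U(x)) [ρ_ε(y-x) (div A)(y) + (A(y)-A(x)) ∇ρ_ε(y-x)] dy → 0` uniformly on
bounded sets. -/
def Stmt_M : Prop :=
  ∀ (N : ℕ) (c : Coef N) (U h : E N → ℝ), Continuous U → Continuous h → (∀ x, 0 ≤ U x) →
    (∀ φ : E N → ℝ, ContDiff ℝ ∞ φ → HasCompactSupport φ →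
      ∫ x, U x * c.L φ x = ∫ x, h x * φ x) →
    ∀ R η : ℝ, 0 < R → 0 < η → ∃ V : E N → ℝ, ContDiff ℝ ∞ V ∧ (∀ x, 0 ≤ V x) ∧
      (∀ x ∈ Metric.closedBall (0 : E N) R, |V x - U x| ≤ η) ∧
      ∀ ψ : E N → ℝ, ContDiff ℝ 1 ψ → HasCompactSupport ψ → tsupport ψ ⊆ Metric.ball 0 R →
        |(∫ x, ⟪c.A x (gradient V x), gradient ψ x⟫_ℝ) + ∫ x, h x * ψ x|
          ≤ η * ((∫ x, |ψ x|) + ∫ x, ‖gradient ψ x‖)

/-- `u` satisfies the time-integrated very weak formulation on `[t₀, t₁]`. -/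
def VeryWeak {N : ℕ} (c : Coef N) (m p : ℝ) (u : ℝ → E N → ℝ) (t₀ t₁ : ℝ) : Prop :=
  ∀ s t, t₀ ≤ s → s < t → t ≤ t₁ → ∀ φ : E N → ℝ, ContDiff ℝ ∞ φ → HasCompactSupport φ →
    ∫ x, c.w x * (u t x - u s x) * φ x
      = (∫ x, (∫ r in s..t, u r x ^ m) * c.L φ x)
        + ∫ x, c.w x * (∫ r in s..t, u r x ^ p) * φ x

/-- `v` is a (discrete, implicit Euler) subsolution on `[t₀, t₁]`, supported in the ball of
radius `R`. -/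
structure SubSol {N : ℕ} (c : Coef N) (m p : ℝ) (v : ℝ → E N → ℝ) (t₀ t₁ R : ℝ) : Prop where
  cont : ContinuousOn (fun q : ℝ × E N => v q.1 q.2) (Icc t₀ t₁ ×ˢ univ)
  nonneg : ∀ t x, 0 ≤ v t x
  supp : ∀ t ∈ Icc t₀ t₁, ∀ x, R ≤ ‖x‖ → v t x = 0
  smooth : ∀ t ∈ Icc t₀ t₁, ContDiff ℝ 1 fun x => v t x ^ m
  ineq : ∀ s t, t₀ ≤ s → s < t → t ≤ t₁ → ∀ ψ : E N → ℝ, ContDiff ℝ 1 ψ →
    HasCompactSupport ψ → (∀ x, 0 ≤ ψ x) →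
    ∫ x, c.w x * (v t x - v s x) * ψ x
      ≤ (t - s) * (-(∫ x, ⟪c.A x (gradient (fun y => v t y ^ m) x), gradient ψ x⟫_ℝ)
        + ∫ x, c.w x * v t x ^ p * ψ x)

/-- BLOCK C (comparison). -/
def Stmt_C : Prop :=
  ∀ (N : ℕ) (c : Coef N) (m p : ℝ) (u v : ℝ → E N → ℝ) (t₀ t₁ R : ℝ),
    1 < m → 1 ≤ p → p ≤ m → t₀ < t₁ → 0 < R →
    ContinuousOn (fun q : ℝ × E N => u q.1 q.2) (Icc t₀ t₁ ×ˢ univ) →
    (∀ t ∈ Icc t₀ t₁, ∀ x, 0 ≤ u t x) → VeryWeak c m p u t₀ t₁ → SubSol c m p v t₀ t₁ R →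
    (∀ x, v t₀ x ≤ u t₀ x) → ∀ t ∈ Icc t₀ t₁, ∀ x, v t x ≤ u t x

/-- BLOCK S (explicit subsolutions).  `v(t,x) = κ ((a + σ (t - t₀) - ρ(x))_+)^{1/(m-1)}`.
`b = ⊤` is allowed: then `κ₀`, `σ` do not depend on the length of the time interval. -/
def Stmt_S : Prop :=
  ∀ (N : ℕ) (c : Coef N) (m p : ℝ), 1 < p → p < m →
  ∀ (ρ : E N → ℝ), ContDiff ℝ ∞ ρ →
  ∀ (a C γ δ : ℝ) (b : EReal), 0 < γ → 0 < δ →
    -- bounded sublevel sets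
    (∀ B : ℝ, (B : EReal) < b → ∃ R > 0, ∀ x, ρ x ≤ B → ‖x‖ < R) →
    -- `Δρ ≤ C` where `ρ < b`
    (∀ x, ((ρ x : ℝ) : EReal) < b → c.L ρ x ≤ C * c.w x) →
    -- `|∇ρ|² ≥ γ` outside `{ρ ≤ a - δ}`
    (∀ x, ((ρ x : ℝ) : EReal) < b → a - δ < ρ x →
      γ * c.w x ≤ ⟪c.A x (gradient ρ x), gradient ρ x⟫_ℝ) →
    ∃ κ₀ > 0, ∀ κ, 0 < κ → κ ≤ κ₀ → ∃ σ > 0, ∀ t₀ t₁ : ℝ, t₀ < t₁ →
      ((a + σ * (t₁ - t₀) : ℝ) : EReal) < b →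
      ∃ R > 0, SubSol c m p
        (fun t x => κ * (max (a + σ * (t - t₀) - ρ x) 0) ^ (1 / (m - 1))) t₀ t₁ R

/-- The coefficients attached to a metric. -/
def IsCoefOf {N : ℕ} (c : Coef N) (M : NormalMetric N) : Prop :=
  (∀ x, c.w x = M.dens x) ∧
  (∀ x v, c.A x v = M.dens x • (M.g x).inverse (innerSL ℝ v))

/-- BLOCK G1: the coefficients of a metric. -/
def Stmt_G1 : Prop := ∀ (N : ℕ) (M : NormalMetric N), ∃ c : Coef N, IsCoefOf c M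

/-- BLOCK G2: Laplacian bound.  For `ρ(x) = √(1 + |x|²)`: `|∇ρ|² = |x|²/(1+|x|²)` and, if the
sectional curvatures are `≥ -c₁`, `Δρ ≤ N + (N-1) √c₁`. -/
def Stmt_G2 : Prop :=
  ∀ (N : ℕ) (M : NormalMetric N) (c : Coef N), IsCoefOf c M → ∀ c₁ : ℝ, 0 ≤ c₁ →
    (∀ x u v, LinearIndependent ℝ ![u, v] → -c₁ ≤ M.sec x u v) →
    (∀ x, c.L (fun y => √(1 + ‖y‖ ^ 2)) x ≤ (N + N * √c₁) * c.w x) ∧
    (∀ x, ⟪c.A x (gradient (fun y => √(1 + ‖y‖ ^ 2)) x), gradient (fun y => √(1 + ‖y‖ ^ 2)) x⟫_ℝ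
      = c.w x * (‖x‖ ^ 2 / (1 + ‖x‖ ^ 2)))

/-- BLOCK T (time increments): the weak formulation of the problem gives the time-integrated
one, and a nontrivial datum gives a nontrivial solution. -/
def Stmt_T : Prop :=
  ∀ (N : ℕ) (M : NormalMetric N) (c : Coef N), IsCoefOf c M → ∀ (m p : ℝ), 1 < p → p < m →
    ∀ (u₀ : E N → ℝ) (u : ℝ → E N → ℝ), MemLp u₀ (ENNReal.ofReal m) M.vol →
      M.IsGlobalSolution m p u₀ u →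
      (∀ t₀ t₁, 0 < t₀ → t₀ < t₁ → VeryWeak c m p u t₀ t₁) ∧
      (¬ (u₀ =ᵐ[M.vol] 0) → ∃ t > 0, ∃ x, 0 < u t x)

/-- The final theorem. -/
def Stmt_Final : Prop :=
  ∀ (N : ℕ), 3 ≤ N → ∀ (M : NormalMetric N) (c₁ c₂ : ℝ), 0 < c₂ → c₂ ≤ c₁ →
    (∀ x u v, LinearIndependent ℝ ![u, v] → -c₁ ≤ M.sec x u v ∧ M.sec x u v ≤ -c₂) →
    ∀ m p : ℝ, 1 < p → p < m → ∀ u₀ : E N → ℝ, MemLp u₀ (ENNReal.ofReal m) M.vol →
      (∀ᵐ x ∂M.vol, 0 ≤ u₀ x) → ¬ (u₀ =ᵐ[M.vol] 0) →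
      ∀ u : ℝ → E N → ℝ, M.IsGlobalSolution m p u₀ u →
        ∀ x, Tendsto (fun t => u t x) atTop atTop

end Pool.Agent.MP909527
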