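import Pool.Agent.Work.MP_909527_an.Step

/-! # The `L¹` contraction against a subsolution, one step -/

set_option autoImplicit false

open MeasureTheory Set Filter Topology
open scoped ContDiff InnerProductSpace ENNReal

namespace Pool.Agent.MP909527

variable {N : ℕ}

theorem memLp_inner {R : ℝ} {f g : E N → E N} (hf : MemLp f 2 (mu N R))
    (hg : MemLp g 2 (mu N R)) : Integrable (fun x => ⟪f x, g x⟫_ℝ) (mu N R) := by
  have := L2.integrable_inner (𝕜 := ℝ) (hf.toLp f) (hg.toLp g)
  refine this.congr ?_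
  filter_upwards [hf.coeFn_toLp, hg.coeFn_toLp] with x h1 h2
  rw [h1, h2]

theorem beta_rpow_le {m ε : ℝ} (hm : 1 < m) (hε : 0 < ε) {s p : ℝ} (hs : 0 ≤ s) (hp : 0 ≤ p)
    (hpm : p ≤ m) : beta m ε s ^ p ≤ 1 + (s + ε ^ m) := by
  have hb := beta_nonneg hm hε hs
  have h1 : beta m ε s ^ m ≤ s + ε ^ m := by
    rw [← root_pow hm hε hs]
    refine Real.rpow_le_rpow hb ?_ (by linarith)
    rw [beta_of_nonneg hs]; linarith
  have hε' : 0 < ε ^ m := by positivity
  rcases le_total (beta m ε s) 1 with h | h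
  · have := Real.rpow_le_one hb h hp
    linarith
  · have := Real.rpow_le_rpow_of_exponent_le h hpm
    linarith

theorem memLp_beta_rpow {m ε p : ℝ} (hm : 1 < m) (hε : 0 < ε) (hp : 0 ≤ p) (hpm : p ≤ m)
    {R : ℝ} {f : E N → ℝ} (hf : MemLp f 2 (mu N R)) (hf0 : ∀ᵐ x ∂(mu N R), 0 ≤ f x) :
    MemLp (fun x => beta m ε (f x) ^ p) 2 (mu N R) := by
  have h1 : MemLp (fun x => 1 + (f x + ε ^ m)) 2 (mu N R) :=
    (memLp_const (1 : ℝ)).add (hf.add (memLp_const (ε ^ m)))
  have h2 : AEStronglyMeasurable (fun x => beta m ε (f x)) (mu N R) :=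
    (beta_continuous hm hε).comp_aestronglyMeasurable hf.1
  have h3 : Measurable fun s : ℝ => s ^ p := by fun_prop
  have h4 : AEStronglyMeasurable (fun x => beta m ε (f x) ^ p) (mu N R) :=
    (h3.comp_aemeasurable h2.aemeasurable).aestronglyMeasurable
  refine MemLp.of_le h1 h4 ?_
  filter_upwards [hf0] with x hx
  have h5 := beta_nonneg hm hε hx
  have hε' : 0 < ε ^ m := by positivity
  rw [Real.norm_eq_abs, Real.norm_eq_abs, abs_of_nonneg (Real.rpow_nonneg h5 p),
    abs_of_nonneg (by positivity)]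
  exact beta_rpow_le hm hε hx hp hpm

/-- The constant `L` with `v^p - b^p ≤ L (v - b)` for `0 ≤ b ≤ v ≤ V`. -/
theorem rpow_diff_le {p V : ℝ} (hp : 1 ≤ p) : ∃ L ≥ 0, ∀ v b : ℝ, 0 ≤ b → b ≤ v → v ≤ V →
    v ^ p - b ^ p ≤ L * (v - b) := by
  refine ⟨p * max V 0 ^ (p - 1), by positivity, fun v b hb hbv hvV => ?_⟩
  rcases hbv.eq_or_lt with h | h
  · rw [h]; simp
  · have hcont : ContinuousOn (fun x : ℝ => x ^ p) (Icc b v) :=
      (Real.continuous_rpow_const (by linarith)).continuousOn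
    obtain ⟨ξ, hξ, hd⟩ := exists_deriv_eq_slope (fun x : ℝ => x ^ p) h hcont
      (fun x _ => (Real.hasDerivAt_rpow_const (Or.inr hp)).differentiableAt.differentiableWithinAt)
    rw [Real.deriv_rpow_const] at hd
    have h1 : ξ ^ (p - 1) ≤ max V 0 ^ (p - 1) := by
      refine Real.rpow_le_rpow (hb.trans hξ.1.le) ?_ (by linarith)
      exact (hξ.2.le.trans hvV).trans (le_max_left _ _)
    have h2 : v ^ p - b ^ p = p * ξ ^ (p - 1) * (v - b) := by
      rw [hd, div_mul_cancel₀ _ (by linarith)]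
    rw [h2]
    exact mul_le_mul_of_nonneg_right (mul_le_mul_of_nonneg_left h1 (by linarith)) (by linarith)

theorem L1_step (c : Coef N) {R : ℝ} {m ε τ p L : ℝ} (hm : 1 < m) (hε : 0 < ε)
    (hτ : 0 < τ) (hp : 1 ≤ p) (hpm : p ≤ m) {a F U : E N → ℝ} (ha : MemLp a 2 (mu N R))
    (hF : Continuous F) (hU : ContDiff ℝ ∞ U) (hU0 : ∀ x, 0 ≤ U x)
    {D : HH N R} (hD : D ∈ W N R)
    (heq : ∀ Ψ ∈ W N R, (∫ x, c.w x * (beta m ε ((D.fst x + U x) / τ) - a x - F x) * Ψ.fst x
          ∂(mu N R))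
        + ∫ x, ⟪c.A x (D.snd x + gradient U x), Ψ.snd x⟫_ℝ ∂(mu N R) = 0)
    (hw0 : ∀ᵐ x ∂(mu N R), 0 ≤ D.fst x + U x)
    {v v' : E N → ℝ} (hv : Continuous v) (hv' : Continuous v') (hv0 : ∀ x, 0 ≤ v x)
    (hν : C1c R fun x => v x ^ m)
    (hsub : ∀ ψ : E N → ℝ, C1c R ψ → (∀ x, 0 ≤ ψ x) →
      ∫ x, c.w x * (v x - v' x) * ψ x
        ≤ τ * (-(∫ x, ⟪c.A x (gradient (fun y => v y ^ m) x), gradient ψ x⟫_ℝ)
          + ∫ x, c.w x * v x ^ p * ψ x))
    (hL0 : 0 ≤ L)
    (hL : ∀ x ∈ Metric.closedBall (0 : E N) R, ∀ b : ℝ, 0 ≤ b → b ≤ v x →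
      v x ^ p - b ^ p ≤ L * (v x - b)) :
    ∫ x, c.w x * max (v x - ε - beta m ε ((D.fst x + U x) / τ)) 0 ∂(mu N R)
      ≤ (∫ x, c.w x * max (v' x - ε - a x) 0 ∂(mu N R))
        + τ * L * (∫ x, c.w x * max (v x - ε - beta m ε ((D.fst x + U x) / τ)) 0 ∂(mu N R))
        + τ * L * ε * (∫ x, c.w x ∂(mu N R))
        + ∫ x, c.w x * |τ * beta m ε ((D.fst x + U x) / τ) ^ p - F x| ∂(mu N R) := by
  have hU1 : ContDiff ℝ 1 U := hU.of_le (by simp)
  have hwm : MemLp (fun x => (D.fst x + U x) / τ) 2 (mu N R) :=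
    memLp_arg (Lp.memLp D.fst) hU.continuous
  have hwnn : ∀ᵐ x ∂(mu N R), 0 ≤ (D.fst x + U x) / τ := by
    filter_upwards [hw0] with x hx
    exact div_nonneg hx hτ.le
  have hβ : MemLp (fun x => beta m ε ((D.fst x + U x) / τ)) 2 (mu N R) := memLp_beta hm hε hwm
  have hβp : MemLp (fun x => beta m ε ((D.fst x + U x) / τ) ^ p) 2 (mu N R) :=
    memLp_beta_rpow hm hε (by linarith) hpm hwm hwnn
  have hvp : Continuous fun x => v x ^ p := hv.rpow_const fun x => Or.inr (by linarith)
  set ν : E N → ℝ := fun x => v x ^ m with hνdef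
  have hgν : Continuous (gradient ν) := continuous_gradient hν.smooth
  -- the total integrand
  set Q : E N → ℝ := fun x => c.w x * ((v x - ε - beta m ε ((D.fst x + U x) / τ))
    - (v' x - ε - a x) - (τ * v x ^ p - F x)) with hQ
  have hQm : MemLp Q 2 (mu N R) := by
    refine memLp_w_mul c (((MemLp.sub ?_ hβ).sub (MemLp.sub ?_ ha)).sub ?_)
    · exact memLp_continuous (hv.sub continuous_const)
    · exact memLp_continuous (hv'.sub continuous_const)
    · exact memLp_continuous ((continuous_const.mul hvp).sub hF)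
  -- testing
  have key : ∀ n : ℕ, ∫ x, Q x * qd (1 / ((n : ℝ) + 1)) (ν x - ((D.fst x + U x) / τ + ε ^ m))
      ∂(mu N R) ≤ 0 := by
    intro n
    obtain ⟨C, hq⟩ := qd_trunc (δ := 1 / ((n : ℝ) + 1)) (by positivity)
    have hδ : 0 < 1 / ((n : ℝ) + 1) := by positivity
    set q := qd (1 / ((n : ℝ) + 1)) with hqdef
    have hb1 : ContDiff ℝ 1 fun x => τ⁻¹ * U x + ε ^ m :=
      (contDiff_const.mul hU1).add contDiff_const
    have hb0 : ∀ x, 0 ≤ τ⁻¹ * U x + ε ^ m := fun x =>
      add_nonneg (mul_nonneg (inv_pos.2 hτ).le (hU0 x)) (by positivity)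
    set Φ : HH N R := pr ν (gradient ν) hν.memLp hν.memLp_grad - τ⁻¹ • D with hΦ
    have hΦW : Φ ∈ W N R := (W N R).sub_mem hν.mem_W ((W N R).smul_mem _ hD)
    have hch := chain hq hb1 hb0 hΦW
    set T := pr (fun x => q (Φ.fst x - (τ⁻¹ * U x + ε ^ m)))
      (fun x => deriv q (Φ.fst x - (τ⁻¹ * U x + ε ^ m)) • (Φ.snd x
        - gradient (fun x => τ⁻¹ * U x + ε ^ m) x))
        (hq.memLp1 (Lp.memLp Φ.fst) hb1) (hq.memLp2 (Lp.memLp Φ.fst) (Lp.memLp Φ.snd) hb1)
      with hT
    have hs1 : (Φ.fst : E N → ℝ) =ᵐ[mu N R] fun x => ν x - τ⁻¹ * D.fst x := by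
      have h5 : Φ.fst = (pr ν (gradient ν) hν.memLp hν.memLp_grad : HH N R).fst
        - τ⁻¹ • D.fst := rfl
      rw [h5]
      filter_upwards [Lp.coeFn_sub (pr ν (gradient ν) hν.memLp hν.memLp_grad : HH N R).fst
        (τ⁻¹ • D.fst), Lp.coeFn_smul (τ⁻¹) D.fst, pr_fst ν (gradient ν) hν.memLp hν.memLp_grad]
        with x h1 h2 h3
      rw [h1, Pi.sub_apply, h2, h3]; rfl
    have hs2 : (Φ.snd : E N → E N) =ᵐ[mu N R] fun x => gradient ν x - τ⁻¹ • D.snd x := by
      have h5 : Φ.snd = (pr ν (gradient ν) hν.memLp hν.memLp_grad : HH N R).snd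
        - τ⁻¹ • D.snd := rfl
      rw [h5]
      filter_upwards [Lp.coeFn_sub (pr ν (gradient ν) hν.memLp hν.memLp_grad : HH N R).snd
        (τ⁻¹ • D.snd), Lp.coeFn_smul (τ⁻¹) D.snd, pr_snd ν (gradient ν) hν.memLp hν.memLp_grad]
        with x h1 h2 h3
      rw [h1, Pi.sub_apply, h2, h3]; rfl
    have hT1 : (T.fst : E N → ℝ) =ᵐ[mu N R]
        fun x => q (ν x - ((D.fst x + U x) / τ + ε ^ m)) := by
      filter_upwards [pr_fst _ _ (hq.memLp1 (Lp.memLp Φ.fst) hb1)
        (hq.memLp2 (Lp.memLp Φ.fst) (Lp.memLp Φ.snd) hb1), hs1] with x h1 h2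
      rw [hT, h1, h2]
      congr 1
      rw [div_eq_inv_mul]; ring
    have hgb : ∀ x, gradient (fun x => τ⁻¹ * U x + ε ^ m) x = τ⁻¹ • gradient U x := by
      intro x
      rw [gradient_add (φ := fun x => τ⁻¹ * U x) (ψ := fun _ => ε ^ m)
        ((hU1.differentiable one_ne_zero x).const_mul _) (differentiableAt_const _),
        gradient_const_mul τ⁻¹ (hU1.differentiable one_ne_zero x)]
      have : gradient (fun _ : E N => ε ^ m) x = 0 := by
        rw [gradient_eq]; simp
      rw [this, add_zero]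
    have hT2 : (T.snd : E N → E N) =ᵐ[mu N R] fun x =>
        (τ⁻¹ * deriv q (ν x - ((D.fst x + U x) / τ + ε ^ m))) •
          (τ • gradient ν x - (D.snd x + gradient U x)) := by
      filter_upwards [pr_snd _ _ (hq.memLp1 (Lp.memLp Φ.fst) hb1)
        (hq.memLp2 (Lp.memLp Φ.fst) (Lp.memLp Φ.snd) hb1), hs1, hs2] with x h1 h2 h3
      rw [hT, h1, h2, h3, hgb]
      have e1 : ν x - τ⁻¹ * D.fst x - (τ⁻¹ * U x + ε ^ m)
          = ν x - ((D.fst x + U x) / τ + ε ^ m) := by
        rw [div_eq_inv_mul]; ring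
      rw [e1, mul_comm τ⁻¹, mul_smul]
      congr 1
      rw [smul_sub, smul_add, smul_smul, inv_mul_cancel₀ hτ.ne', one_smul]
      abel
    -- subsolution inequality tested with `T`
    have hm1 : MemLp (fun x => c.w x * (v x - v' x) - τ * (c.w x * v x ^ p)) 2 (mu N R) :=
      memLp_continuous (((c.smoothw.continuous.mul (hv.sub hv'))).sub
        (continuous_const.mul (c.smoothw.continuous.mul hvp)))
    have hcA : Continuous fun x => τ • c.A x (gradient ν x) :=
      (c.smoothA.continuous.clm_apply hgν).const_smul τ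
    have hm2 : MemLp (fun x => τ • c.A x (gradient ν x)) 2 (mu N R) := memLp_continuous hcA
    have hsubT : ⟪pr _ _ hm1 hm2, T⟫_ℝ ≤ 0 := by
      refine Wp_le (F := fun Φ => ⟪pr _ _ hm1 hm2, Φ⟫_ℝ) (G := fun _ => 0) (by fun_prop)
        continuous_const ?_ T hch
      intro ψ hψ hψ0
      have h1 := hsub ψ hψ hψ0
      simp only [inner_pr]
      have i1 : ∫ x, (c.w x * (v x - v' x) - τ * (c.w x * v x ^ p))
          * (pr ψ (gradient ψ) hψ.memLp hψ.memLp_grad : HH N R).fst x ∂(mu N R)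
          = (∫ x, c.w x * (v x - v' x) * ψ x) - τ * ∫ x, c.w x * v x ^ p * ψ x := by
        rw [← integral_const_mul, ← integral_sub, ← integral_mu (R := R)]
        · refine integral_congr_ae ?_
          filter_upwards [pr_fst ψ (gradient ψ) hψ.memLp hψ.memLp_grad] with x hx
          rw [hx]; ring
        · intro x hx
          rw [hψ.zero_of_notMem hx]; ring
        · refine (Continuous.integrable_of_hasCompactSupport ?_ hψ.cpt.mul_left)
          exact (c.smoothw.continuous.mul (hv.sub hv')).mul hψ.continuous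
        · refine (Continuous.integrable_of_hasCompactSupport ?_ hψ.cpt.mul_left).const_mul _
          exact (c.smoothw.continuous.mul hvp).mul hψ.continuous
      have i2 : ∫ x, ⟪τ • c.A x (gradient ν x),
          (pr ψ (gradient ψ) hψ.memLp hψ.memLp_grad : HH N R).snd x⟫_ℝ ∂(mu N R)
          = τ * ∫ x, ⟪c.A x (gradient ν x), gradient ψ x⟫_ℝ := by
        rw [← integral_const_mul, ← integral_mu (R := R)]
        · refine integral_congr_ae ?_
          filter_upwards [pr_snd ψ (gradient ψ) hψ.memLp hψ.memLp_grad] with x hx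
          rw [hx, real_inner_smul_left]
        · intro x hx
          rw [hψ.grad_zero_of_notMem hx, inner_zero_right, mul_zero]
      rw [i1, i2]
      linarith
    rw [inner_pr] at hsubT
    have heqT := heq T (Wp_subset_W R hch)
    -- integrability facts
    have I1 : Integrable (fun x => (c.w x * (v x - v' x) - τ * (c.w x * v x ^ p)) * T.fst x)
        (mu N R) := MemLp.integrable_mul hm1 (Lp.memLp T.fst)
    have hm3 : MemLp (fun x => c.w x * (beta m ε ((D.fst x + U x) / τ) - a x - F x)) 2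
        (mu N R) := memLp_w_mul c ((hβ.sub ha).sub (memLp_continuous hF))
    have I2 : Integrable (fun x => c.w x * (beta m ε ((D.fst x + U x) / τ) - a x - F x)
        * T.fst x) (mu N R) := MemLp.integrable_mul hm3 (Lp.memLp T.fst)
    have hm4 : MemLp (fun x => c.A x (D.snd x + gradient U x)) 2 (mu N R) :=
      memLp_A c ((Lp.memLp D.snd).add (memLp_continuous (continuous_gradient hU1)))
    have I3 : Integrable (fun x => ⟪τ • c.A x (gradient ν x), T.snd x⟫_ℝ) (mu N R) :=
      memLp_inner hm2 (Lp.memLp T.snd)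
    have I4 : Integrable (fun x => ⟪c.A x (D.snd x + gradient U x), T.snd x⟫_ℝ) (mu N R) :=
      memLp_inner hm4 (Lp.memLp T.snd)
    have hpos : 0 ≤ (∫ x, ⟪τ • c.A x (gradient ν x), T.snd x⟫_ℝ ∂(mu N R))
        - ∫ x, ⟪c.A x (D.snd x + gradient U x), T.snd x⟫_ℝ ∂(mu N R) := by
      rw [← integral_sub I3 I4]
      refine integral_nonneg_of_ae ?_
      filter_upwards [hT2] with x hx
      rw [← inner_sub_left, ← map_smul, ← map_sub, hx, real_inner_smul_right, Pi.zero_apply]
      exact mul_nonneg (mul_nonneg (inv_pos.2 hτ).le (qd_deriv_nonneg hδ _)) (A_nonneg c x _)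
    have hfin : (∫ x, (c.w x * (v x - v' x) - τ * (c.w x * v x ^ p)) * T.fst x ∂(mu N R))
        - ∫ x, c.w x * (beta m ε ((D.fst x + U x) / τ) - a x - F x) * T.fst x ∂(mu N R) ≤ 0 := by
      linarith
    rw [← integral_sub I1 I2] at hfin
    refine le_trans (le_of_eq ?_) hfin
    refine integral_congr_ae ?_
    filter_upwards [hT1] with x hx
    rw [hx, hQ]
    ring
  -- passage to the limit
  have hlim : Tendsto (fun n : ℕ => ∫ x, Q x * qd (1 / ((n : ℝ) + 1))
      (ν x - ((D.fst x + U x) / τ + ε ^ m)) ∂(mu N R)) atTop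
      (𝓝 (∫ x, Q x * (if 0 < ν x - ((D.fst x + U x) / τ + ε ^ m) then 1 else 0) ∂(mu N R))) := by
    refine tendsto_integral_of_dominated_convergence (fun x => |Q x|) ?_ ?_ ?_ ?_
    · intro n
      obtain ⟨C, hq⟩ := qd_trunc (δ := 1 / ((n : ℝ) + 1)) (by positivity)
      refine hQm.1.mul (hq.smooth.continuous.comp_aestronglyMeasurable ?_)
      exact hν.continuous.aestronglyMeasurable.sub (hwm.1.add aestronglyMeasurable_const)
    · exact (hQm.integrable (by norm_num)).abs
    · intro n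
      refine ae_of_all _ fun x => ?_
      rw [Real.norm_eq_abs, abs_mul, abs_of_nonneg (qd_nonneg _ _)]
      exact mul_le_of_le_one_right (abs_nonneg _) (qd_le_one _ _)
    · exact ae_of_all _ fun x => (qd_tendsto _).const_mul _
  have hfinal := le_of_tendsto hlim (Eventually.of_forall key)
  -- pointwise
  have hQi : Integrable Q (mu N R) := hQm.integrable (by norm_num)
  have hEi : Integrable (fun x => c.w x * max (v x - ε - beta m ε ((D.fst x + U x) / τ)) 0)
      (mu N R) := by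
    refine (memLp_w_mul c (q := 2) ?_).integrable (by norm_num)
    exact ((memLp_continuous (hv.sub continuous_const)).sub hβ).sup (memLp_const 0)
  have hE'i : Integrable (fun x => c.w x * max (v' x - ε - a x) 0) (mu N R) := by
    refine (memLp_w_mul c (q := 2) ?_).integrable (by norm_num)
    exact ((memLp_continuous (hv'.sub continuous_const)).sub ha).sup (memLp_const 0)
  have hwi : Integrable (fun x => c.w x) (mu N R) :=
    (memLp_continuous c.smoothw.continuous (q := 1)).integrable le_rfl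
  have hGi : Integrable (fun x => c.w x * |τ * beta m ε ((D.fst x + U x) / τ) ^ p - F x|)
      (mu N R) := by
    refine (memLp_w_mul c (q := 2) ?_).integrable (by norm_num)
    exact ((hβp.const_mul τ).sub (memLp_continuous hF)).abs
  have hQ1i : Integrable (fun x => Q x *
      (if 0 < ν x - ((D.fst x + U x) / τ + ε ^ m) then 1 else 0)) (mu N R) := by
    refine hQi.mono ?_ (ae_of_all _ fun x => ?_)
    · refine aestronglyMeasurable_of_tendsto_ae atTop
        (f := fun (n : ℕ) x => Q x * qd (1 / ((n : ℝ) + 1))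
          (ν x - ((D.fst x + U x) / τ + ε ^ m))) ?_ ?_
      · intro n
        obtain ⟨C, hq⟩ := qd_trunc (δ := 1 / ((n : ℝ) + 1)) (by positivity)
        refine hQm.1.mul (hq.smooth.continuous.comp_aestronglyMeasurable ?_)
        exact hν.continuous.aestronglyMeasurable.sub (hwm.1.add aestronglyMeasurable_const)
      · exact ae_of_all _ fun x => (qd_tendsto _).const_mul _
    · rw [norm_mul]
      refine mul_le_of_le_one_right (norm_nonneg _) ?_
      split_ifs <;> simp
  have hineq : ∫ x, (c.w x * max (v x - ε - beta m ε ((D.fst x + U x) / τ)) 0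
      - c.w x * max (v' x - ε - a x) 0
      - τ * L * (c.w x * max (v x - ε - beta m ε ((D.fst x + U x) / τ)) 0)
      - τ * L * ε * c.w x
      - c.w x * |τ * beta m ε ((D.fst x + U x) / τ) ^ p - F x|) ∂(mu N R) ≤
      ∫ x, Q x * (if 0 < ν x - ((D.fst x + U x) / τ + ε ^ m) then 1 else 0) ∂(mu N R) := by
    refine integral_mono_ae ?_ hQ1i ?_
    · exact ((((hEi.sub hE'i).sub (hEi.const_mul _)).sub (hwi.const_mul _)).sub hGi)
    · filter_upwards [hwnn, ae_mem_ball R] with x hx hxb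
      have hwx := c.wpos x
      set β := beta m ε ((D.fst x + U x) / τ) with hβdef
      have hβ0 : 0 ≤ β := beta_nonneg hm hε hx
      have hiff := lt_beta_iff hm hε hx (hv0 x)
      have hmax' : 0 ≤ max (v' x - ε - a x) 0 := le_max_right _ _
      have habs := abs_nonneg (τ * β ^ p - F x)
      by_cases h : 0 < v x - ε - β
      · have h' : 0 < ν x - ((D.fst x + U x) / τ + ε ^ m) := hiff.2 h
        rw [if_pos h', mul_one, hQ, max_eq_left h.le]
        have h1 := hL x hxb β hβ0 (by linarith)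
        have h2 : v' x - ε - a x ≤ max (v' x - ε - a x) 0 := le_max_left _ _
        have h3 := neg_abs_le (τ * β ^ p - F x)
        have h4 := le_abs_self (τ * β ^ p - F x)
        have h5 : τ * v x ^ p - F x ≤ τ * L * (v x - ε - β) + τ * L * ε
            + |τ * β ^ p - F x| := by
          have := mul_le_mul_of_nonneg_left h1 hτ.le
          nlinarith
        have h6 := mul_le_mul_of_nonneg_left h5 hwx.le
        have h7 := mul_le_mul_of_nonneg_left h2 hwx.le
        nlinarith
      · have h' : ¬ 0 < ν x - ((D.fst x + U x) / τ + ε ^ m) := fun h0 => h (hiff.1 h0)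
        rw [if_neg h', mul_zero, max_eq_right (not_lt.1 h)]
        have h1 := mul_nonneg hwx.le hmax'
        have h2 := mul_nonneg hwx.le habs
        have h3 : 0 ≤ τ * L * ε * c.w x := by positivity
        simp only [mul_zero]
        linarith
  set e1 : E N → ℝ := fun x => c.w x * max (v x - ε - beta m ε ((D.fst x + U x) / τ)) 0
  set e2 : E N → ℝ := fun x => c.w x * max (v' x - ε - a x) 0
  set e3 : E N → ℝ := fun x => c.w x * |τ * beta m ε ((D.fst x + U x) / τ) ^ p - F x|
  have i1 : Integrable (fun x => e1 x - e2 x) (mu N R) := hEi.sub hE'i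
  have i2 : Integrable (fun x => e1 x - e2 x - τ * L * e1 x) (mu N R) :=
    i1.sub (hEi.const_mul _)
  have i3 : Integrable (fun x => e1 x - e2 x - τ * L * e1 x - τ * L * ε * c.w x) (mu N R) :=
    i2.sub (hwi.const_mul _)
  have hs : ∫ x, (e1 x - e2 x - τ * L * e1 x - τ * L * ε * c.w x - e3 x) ∂(mu N R)
      = (∫ x, e1 x ∂(mu N R)) - (∫ x, e2 x ∂(mu N R)) - τ * L * (∫ x, e1 x ∂(mu N R))
        - τ * L * ε * (∫ x, c.w x ∂(mu N R)) - ∫ x, e3 x ∂(mu N R) := by
    rw [integral_sub i3 hGi, integral_sub i2 (hwi.const_mul _), integral_sub i1 (hEi.const_mul _),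
      integral_sub hEi hE'i, integral_const_mul, integral_const_mul]
  have hineq' := hs ▸ hineq
  linarith

end Pool.Agent.MP909527
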