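import Pool.Agent.Work.MP_909527_an.Interface

/-! # The space `H^1_0` of a ball as a closed subspace of `L² × L²` -/

set_option autoImplicit false

open MeasureTheory Set Filter Topology
open scoped ContDiff InnerProductSpace ENNReal

namespace Pool.Agent.MP909527

variable {N : ℕ}

/-- Lebesgue measure on the ball of radius `R`. -/
noncomputable abbrev mu (N : ℕ) (R : ℝ) : Measure (E N) :=
  volume.restrict (Metric.ball (0 : E N) R)

instance (R : ℝ) : IsFiniteMeasure (mu N R) :=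
  ⟨by rw [Measure.restrict_apply_univ]; exact measure_ball_lt_top⟩

/-- `L²(B_R) × L²(B_R; ℝ^N)`. -/
abbrev HH (N : ℕ) (R : ℝ) := WithLp 2 (Lp ℝ 2 (mu N R) × Lp (E N) 2 (mu N R))

/-- `C^1` functions with compact support in the ball. -/
structure C1c (R : ℝ) (φ : E N → ℝ) : Prop where
  smooth : ContDiff ℝ 1 φ
  cpt : HasCompactSupport φ
  supp : tsupport φ ⊆ Metric.ball 0 R

/-! ## gradients -/

theorem gradient_eq (φ : E N → ℝ) (x : E N) :
    gradient φ x = (InnerProductSpace.toDual ℝ (E N)).symm (fderiv ℝ φ x) := rfl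

theorem inner_gradient (φ : E N → ℝ) (x v : E N) : ⟪gradient φ x, v⟫_ℝ = fderiv ℝ φ x v := by
  rw [gradient_eq, InnerProductSpace.toDual_symm_apply]

theorem continuous_gradient {φ : E N → ℝ} (h : ContDiff ℝ 1 φ) : Continuous (gradient φ) :=
  (InnerProductSpace.toDual ℝ (E N)).symm.continuous.comp (h.continuous_fderiv one_ne_zero)

theorem contDiff_gradient {φ : E N → ℝ} (h : ContDiff ℝ ∞ φ) : ContDiff ℝ ∞ (gradient φ) :=
  (InnerProductSpace.toDual ℝ (E N)).symm.contDiff.comp (h.fderiv_right (m := ∞) (by simp))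

theorem hasCompactSupport_gradient {φ : E N → ℝ} (h : HasCompactSupport φ) :
    HasCompactSupport (gradient φ) := by
  have := (h.fderiv (𝕜 := ℝ)).comp_left (g := (InnerProductSpace.toDual ℝ (E N)).symm)
    (by simp)
  exact this

theorem gradient_zero_of_eventuallyEq {φ : E N → ℝ} {x : E N} (h : φ =ᶠ[𝓝 x] 0) :
    gradient φ x = 0 := by
  rw [gradient_eq, h.fderiv_eq]
  simp

theorem gradient_eq_zero_of_notMem {φ : E N → ℝ} {x : E N} (h : x ∉ tsupport φ) :
    gradient φ x = 0 :=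
  gradient_zero_of_eventuallyEq (notMem_tsupport_iff_eventuallyEq.1 h)

theorem gradient_coord (φ : E N → ℝ) (x : E N) (i : Fin N) :
    (gradient φ x) i = fderiv ℝ φ x (e i) := by
  rw [← inner_gradient, e, EuclideanSpace.inner_single_right]
  simp

theorem gradient_add {φ ψ : E N → ℝ} {x : E N} (h : DifferentiableAt ℝ φ x)
    (h' : DifferentiableAt ℝ ψ x) :
    gradient (fun y => φ y + ψ y) x = gradient φ x + gradient ψ x := by
  rw [gradient_eq, gradient_eq, gradient_eq, ← map_add]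
  congr 1
  exact fderiv_add h h'

theorem gradient_const_mul {φ : E N → ℝ} {x : E N} (a : ℝ) (h : DifferentiableAt ℝ φ x) :
    gradient (fun y => a * φ y) x = a • gradient φ x := by
  rw [gradient_eq, gradient_eq, fderiv_const_mul h, map_smul]

theorem gradient_comp {φ : E N → ℝ} {q : ℝ → ℝ} {x : E N} (h : DifferentiableAt ℝ φ x)
    (hq : DifferentiableAt ℝ q (φ x)) :
    gradient (fun y => q (φ y)) x = deriv q (φ x) • gradient φ x := by
  have h1 : fderiv ℝ (fun y => q (φ y)) x = deriv q (φ x) • fderiv ℝ φ x := by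
    have := (hq.hasDerivAt.comp_hasFDerivAt x h.hasFDerivAt).fderiv
    exact this
  rw [gradient_eq, gradient_eq, h1, map_smul]

/-! ## integrability of compactly supported functions -/

theorem C1c.continuous {R : ℝ} {φ : E N → ℝ} (h : C1c R φ) : Continuous φ := h.smooth.continuous

theorem C1c.memLp {R : ℝ} {φ : E N → ℝ} (h : C1c R φ) {R' : ℝ} {q : ℝ≥0∞} :
    MemLp φ q (mu N R') :=
  h.continuous.memLp_of_hasCompactSupport h.cpt

theorem C1c.memLp_grad {R : ℝ} {φ : E N → ℝ} (h : C1c R φ) {R' : ℝ} {q : ℝ≥0∞} :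
    MemLp (gradient φ) q (mu N R') :=
  (continuous_gradient h.smooth).memLp_of_hasCompactSupport (hasCompactSupport_gradient h.cpt)

theorem C1c.add {R : ℝ} {φ ψ : E N → ℝ} (h : C1c R φ) (h' : C1c R ψ) :
    C1c R (fun x => φ x + ψ x) := by
  refine ⟨h.smooth.add h'.smooth, h.cpt.add h'.cpt, ?_⟩
  exact (tsupport_add φ ψ).trans (union_subset h.supp h'.supp)

theorem C1c.const_mul {R : ℝ} {φ : E N → ℝ} (h : C1c R φ) (a : ℝ) :
    C1c R (fun x => a * φ x) := by
  refine ⟨contDiff_const.mul h.smooth, h.cpt.mul_left, ?_⟩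
  refine (closure_mono ?_).trans h.supp
  intro x hx
  rw [Function.mem_support] at hx ⊢
  intro h0
  apply hx
  simp [h0]

theorem C1c.zero {R : ℝ} : C1c R (fun _ : E N => (0 : ℝ)) := by
  refine ⟨contDiff_const, ?_, ?_⟩
  · rw [HasCompactSupport, tsupport]
    simp [Function.support]
  · rw [tsupport]
    simp [Function.support]

/-- The element of `HH` of a pair of functions. -/
noncomputable def pr {R : ℝ} (f : E N → ℝ) (F : E N → E N) (hf : MemLp f 2 (mu N R))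
    (hF : MemLp F 2 (mu N R)) : HH N R :=
  WithLp.toLp 2 (hf.toLp f, hF.toLp F)

theorem pr_fst {R : ℝ} (f : E N → ℝ) (F : E N → E N) (hf : MemLp f 2 (mu N R))
    (hF : MemLp F 2 (mu N R)) : ((pr f F hf hF).fst : E N → ℝ) =ᵐ[mu N R] f :=
  hf.coeFn_toLp

theorem pr_snd {R : ℝ} (f : E N → ℝ) (F : E N → E N) (hf : MemLp f 2 (mu N R))
    (hF : MemLp F 2 (mu N R)) : ((pr f F hf hF).snd : E N → E N) =ᵐ[mu N R] F :=
  hF.coeFn_toLp

theorem inner_HH {R : ℝ} (Φ Ψ : HH N R) :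
    ⟪Φ, Ψ⟫_ℝ = (∫ x, Φ.fst x * Ψ.fst x ∂(mu N R)) + ∫ x, ⟪Φ.snd x, Ψ.snd x⟫_ℝ ∂(mu N R) := by
  rw [WithLp.prod_inner_apply, L2.inner_def, L2.inner_def]
  congr 1
  refine integral_congr_ae (ae_of_all _ fun x => ?_)
  simp only [RCLike.inner_apply, conj_trivial]
  exact mul_comm _ _

theorem inner_pr {R : ℝ} (f : E N → ℝ) (F : E N → E N) (hf : MemLp f 2 (mu N R))
    (hF : MemLp F 2 (mu N R)) (Ψ : HH N R) :
    ⟪pr f F hf hF, Ψ⟫_ℝ = (∫ x, f x * Ψ.fst x ∂(mu N R))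
      + ∫ x, ⟪F x, Ψ.snd x⟫_ℝ ∂(mu N R) := by
  rw [inner_HH]
  congr 1
  · refine integral_congr_ae ?_
    filter_upwards [pr_fst f F hf hF] with x hx
    rw [hx]
  · refine integral_congr_ae ?_
    filter_upwards [pr_snd f F hf hF] with x hx
    rw [hx]

theorem pr_fst_snd {R : ℝ} (Φ : HH N R) :
    pr (⇑Φ.fst) (⇑Φ.snd) (Lp.memLp Φ.fst) (Lp.memLp Φ.snd) = Φ := by
  apply WithLp.ofLp_injective
  simp only [pr]
  ext1
  · exact Lp.toLp_coeFn Φ.fst (Lp.memLp Φ.fst)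
  · exact Lp.toLp_coeFn Φ.snd (Lp.memLp Φ.snd)

/-- The pairs `(φ, ∇φ)`, `φ` a `C^1` function with compact support in the ball. -/
noncomputable def W0 (N : ℕ) (R : ℝ) : Submodule ℝ (HH N R) where
  carrier := {Φ | ∃ φ : E N → ℝ, C1c R φ ∧ (Φ.fst : E N → ℝ) =ᵐ[mu N R] φ ∧
    (Φ.snd : E N → E N) =ᵐ[mu N R] gradient φ}
  add_mem' := by
    rintro Φ Ψ ⟨φ, hφ, h1, h2⟩ ⟨ψ, hψ, h3, h4⟩
    refine ⟨fun x => φ x + ψ x, hφ.add hψ, ?_, ?_⟩
    · have h5 : (Φ + Ψ).fst = Φ.fst + Ψ.fst := rfl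
      rw [h5]
      filter_upwards [Lp.coeFn_add Φ.fst Ψ.fst, h1, h3] with x a b d
      rw [a, Pi.add_apply, b, d]
    · have h5 : (Φ + Ψ).snd = Φ.snd + Ψ.snd := rfl
      rw [h5]
      filter_upwards [Lp.coeFn_add Φ.snd Ψ.snd, h2, h4] with x a b d
      rw [a, Pi.add_apply, b, d, gradient_add (hφ.smooth.differentiable one_ne_zero x)
        (hψ.smooth.differentiable one_ne_zero x)]
  zero_mem' := by
    refine ⟨fun _ => 0, C1c.zero, ?_, ?_⟩
    · have h5 : (0 : HH N R).fst = 0 := rfl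
      rw [h5]
      filter_upwards [Lp.coeFn_zero ℝ 2 (mu N R)] with x a
      rw [a]; rfl
    · have h5 : (0 : HH N R).snd = 0 := rfl
      rw [h5]
      filter_upwards [Lp.coeFn_zero (E N) 2 (mu N R)] with x a
      rw [a, Pi.zero_apply]
      exact (gradient_zero_of_eventuallyEq (Eventually.of_forall fun _ => rfl)).symm
  smul_mem' := by
    rintro a Φ ⟨φ, hφ, h1, h2⟩
    refine ⟨fun x => a * φ x, hφ.const_mul a, ?_, ?_⟩
    · have h5 : (a • Φ).fst = a • Φ.fst := rfl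
      rw [h5]
      filter_upwards [Lp.coeFn_smul a Φ.fst, h1] with x b d
      rw [b, Pi.smul_apply, d, smul_eq_mul]
    · have h5 : (a • Φ).snd = a • Φ.snd := rfl
      rw [h5]
      filter_upwards [Lp.coeFn_smul a Φ.snd, h2] with x b d
      rw [b, Pi.smul_apply, d, gradient_const_mul a (hφ.smooth.differentiable one_ne_zero x)]

/-- `H^1_0` of the ball. -/
noncomputable def W (N : ℕ) (R : ℝ) : Submodule ℝ (HH N R) := (W0 N R).topologicalClosure

theorem isClosed_W (R : ℝ) : IsClosed (W N R : Set (HH N R)) :=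
  Submodule.isClosed_topologicalClosure _

theorem C1c.mem_W0 {R : ℝ} {φ : E N → ℝ} (h : C1c R φ) :
    pr φ (gradient φ) h.memLp h.memLp_grad ∈ W0 N R :=
  ⟨φ, h, pr_fst _ _ _ _, pr_snd _ _ _ _⟩

theorem C1c.mem_W {R : ℝ} {φ : E N → ℝ} (h : C1c R φ) :
    pr φ (gradient φ) h.memLp h.memLp_grad ∈ W N R :=
  Submodule.le_topologicalClosure _ h.mem_W0

theorem eq_pr_of_mem_W0 {R : ℝ} {Φ : HH N R} (h : Φ ∈ W0 N R) :
    ∃ φ : E N → ℝ, ∃ hφ : C1c R φ, Φ = pr φ (gradient φ) hφ.memLp hφ.memLp_grad := by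
  obtain ⟨φ, hφ, h1, h2⟩ := h
  refine ⟨φ, hφ, ?_⟩
  apply WithLp.ofLp_injective
  simp only [pr]
  ext1
  · exact Lp.ext (h1.trans (hφ.memLp (R' := R) (q := 2)).coeFn_toLp.symm)
  · exact Lp.ext (h2.trans (hφ.memLp_grad (R' := R) (q := 2)).coeFn_toLp.symm)

/-- Continuity principle: an inequality between continuous functions on `C^1_c` passes to `W`. -/
theorem W_le {R : ℝ} {F G : HH N R → ℝ} (hF : Continuous F) (hG : Continuous G)
    (h : ∀ (φ : E N → ℝ) (hφ : C1c R φ), F (pr φ (gradient φ) hφ.memLp hφ.memLp_grad)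
      ≤ G (pr φ (gradient φ) hφ.memLp hφ.memLp_grad)) : ∀ Φ ∈ W N R, F Φ ≤ G Φ := by
  intro Φ hΦ
  have hcl : IsClosed {Φ : HH N R | F Φ ≤ G Φ} := isClosed_le hF hG
  have hsub : ((W0 N R : Submodule ℝ (HH N R)) : Set (HH N R)) ⊆ {Φ | F Φ ≤ G Φ} := by
    intro Ψ hΨ
    obtain ⟨φ, hφ, rfl⟩ := eq_pr_of_mem_W0 hΨ
    exact h φ hφ
  exact (closure_minimal hsub hcl) hΦ

end Pool.Agent.MP909527
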