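import Pool.Agent.Work.MP_909527_an.Sob
import Pool.Agent.Work.MP_909527_an.Hilb

/-! # Poincaré inequality, ellipticity, and solvability of monotone equations -/

set_option autoImplicit false

open MeasureTheory Set Filter Topology
open scoped ContDiff InnerProductSpace ENNReal

namespace Pool.Agent.MP909527

variable {N : ℕ}

theorem integral_mu {R : ℝ} {G : Type*} [NormedAddCommGroup G] [NormedSpace ℝ G] {f : E N → G}
    (h : ∀ x, x ∉ Metric.ball (0 : E N) R → f x = 0) :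
    ∫ x, f x ∂(mu N R) = ∫ x, f x :=
  setIntegral_eq_integral_of_forall_compl_eq_zero h

theorem C1c.zero_of_notMem {R : ℝ} {φ : E N → ℝ} (h : C1c R φ) {x : E N}
    (hx : x ∉ Metric.ball (0 : E N) R) : φ x = 0 :=
  image_eq_zero_of_notMem_tsupport fun h' => hx (h.supp h')

theorem C1c.grad_zero_of_notMem {R : ℝ} {φ : E N → ℝ} (h : C1c R φ) {x : E N}
    (hx : x ∉ Metric.ball (0 : E N) R) : gradient φ x = 0 :=
  gradient_eq_zero_of_notMem fun h' => hx (h.supp h')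

theorem C1c.norm_lt {R : ℝ} {φ : E N → ℝ} (h : C1c R φ) {x : E N} (hx : φ x ≠ 0) : ‖x‖ < R := by
  by_contra h'
  exact hx (h.zero_of_notMem (by simpa using h'))

theorem poincare {R : ℝ} (hN : 0 < N) {φ : E N → ℝ} (h : C1c R φ) :
    ∫ x, φ x ^ 2 ≤ 4 * R ^ 2 * ∫ x, ‖gradient φ x‖ ^ 2 := by
  set i : Fin N := ⟨0, hN⟩
  have hd : Differentiable ℝ φ := h.smooth.differentiable one_ne_zero
  have hφc : Continuous φ := h.continuous
  have hgc : Continuous (gradient φ) := continuous_gradient h.smooth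
  have hfc : Continuous fun x => fderiv ℝ φ x (e i) :=
    (h.smooth.continuous_fderiv one_ne_zero).clm_apply continuous_const
  -- the coordinate function
  let c : E N → ℝ := fun x => ⟪e i, x⟫_ℝ
  have hcd : ∀ x, HasFDerivAt c (innerSL ℝ (e i)) x := fun x => (innerSL ℝ (e i)).hasFDerivAt
  have hcc : Continuous c := (innerSL ℝ (e i)).continuous
  have hei : ⟪e i, e i⟫_ℝ = 1 := by
    rw [real_inner_self_eq_norm_sq]; simp [e]
  have hcle : ∀ x, |c x| ≤ ‖x‖ := by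
    intro x
    have := abs_real_inner_le_norm (e i) x
    have h1 : ‖(e i : E N)‖ = 1 := by simp [e]
    rw [h1, one_mul] at this
    exact this
  have hsq : ∀ x, HasFDerivAt (fun y => φ y ^ 2) ((2 * φ x) • fderiv ℝ φ x) x := by
    intro x
    have h1 := (hd x).hasFDerivAt.mul (hd x).hasFDerivAt
    have h2 : (fun y => φ y ^ 2) = fun y => φ y * φ y := by funext y; ring
    rw [h2]
    refine h1.congr_fderiv ?_
    ext v
    simp only [add_apply, smul_apply, smul_eq_mul]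
    ring
  have hci : ∀ f : E N → ℝ, Continuous f → (∀ x, φ x = 0 → f x = 0) → Integrable f := by
    intro f hf h0
    refine hf.integrable_of_hasCompactSupport ?_
    refine h.cpt.mono ?_
    intro x hx
    rw [Function.mem_support] at hx ⊢
    exact fun h1 => hx (h0 x h1)
  have hgi : Integrable fun x => ‖gradient φ x‖ ^ 2 := by
    refine (hgc.norm.pow 2).integrable_of_hasCompactSupport ?_
    have := (hasCompactSupport_gradient h.cpt).comp_left (g := fun v : E N => ‖v‖ ^ 2) (by simp)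
    exact this
  have hibp := integral_bilinear_hasFDerivAt_right_eq_neg_left_of_integrable
    (μ := (volume : Measure (E N))) (f := fun y => φ y ^ 2) (g := c)
    (f' := fun x => (2 * φ x) • fderiv ℝ φ x) (g' := fun _ => innerSL ℝ (e i)) (v := e i)
    (B := ContinuousLinearMap.mul ℝ ℝ)
    (by
      refine hci _ ?_ ?_
      · simp only [ContinuousLinearMap.mul_apply', smul_apply, smul_eq_mul]
        exact (((continuous_const.mul hφc).mul hfc)).mul hcc
      · intro x hx; simp [hx])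
    (by
      refine hci _ ?_ ?_
      · simp only [ContinuousLinearMap.mul_apply']
        exact (hφc.pow 2).mul continuous_const
      · intro x hx; simp [hx])
    (by
      refine hci _ ?_ ?_
      · simp only [ContinuousLinearMap.mul_apply']
        exact (hφc.pow 2).mul hcc
      · intro x hx; simp [hx])
    (fun x _ => hsq x) (fun x _ => hcd x)
  simp only [ContinuousLinearMap.mul_apply', smul_apply, smul_eq_mul,
    innerSL_apply_apply, hei, mul_one] at hibp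
  rw [hibp, ← integral_neg]
  have hφ2i : Integrable fun x => φ x ^ 2 := hci _ (hφc.pow 2) (fun x hx => by simp [hx])
  have hkey : ∫ x, -(2 * φ x * (fderiv ℝ φ x) (e i) * c x)
      ≤ ∫ x, ((1 / 2) * φ x ^ 2 + 2 * R ^ 2 * ‖gradient φ x‖ ^ 2) := by
    refine integral_mono ?_ ?_ ?_
    · refine hci _ ?_ ?_
      · exact ((((continuous_const.mul hφc).mul hfc)).mul hcc).neg
      · intro x hx; simp [hx]
    · exact (hφ2i.const_mul _).add (hgi.const_mul _)
    · intro x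
      by_cases hx : φ x = 0
      · simp only [hx]
        have : 0 ≤ 2 * R ^ 2 * ‖gradient φ x‖ ^ 2 := by positivity
        simpa using this
      · have h1 : |c x| ≤ R := (hcle x).trans (h.norm_lt hx).le
        have h2 : |(fderiv ℝ φ x) (e i)| ≤ ‖gradient φ x‖ := by
          rw [← inner_gradient]
          have := abs_real_inner_le_norm (gradient φ x) (e i)
          have h1 : ‖(e i : E N)‖ = 1 := by simp [e]
          rw [h1, mul_one] at this
          exact this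
        have h3 : |(fderiv ℝ φ x) (e i)| * |c x| ≤ ‖gradient φ x‖ * R :=
          mul_le_mul h2 h1 (abs_nonneg _) (norm_nonneg _)
        have h4 : -(2 * φ x * (fderiv ℝ φ x) (e i) * c x)
            ≤ 2 * |φ x| * (‖gradient φ x‖ * R) := by
          calc -(2 * φ x * (fderiv ℝ φ x) (e i) * c x)
              ≤ |2 * φ x * (fderiv ℝ φ x) (e i) * c x| := neg_le_abs _
            _ = 2 * |φ x| * (|(fderiv ℝ φ x) (e i)| * |c x|) := by
                rw [abs_mul, abs_mul, abs_mul]; simp; ring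
            _ ≤ _ := mul_le_mul_of_nonneg_left h3 (by positivity)
        have h5 : |φ x| ^ 2 = φ x ^ 2 := sq_abs _
        nlinarith [sq_nonneg (|φ x| - 2 * (‖gradient φ x‖ * R)), h4, h5]
  rw [integral_add (hφ2i.const_mul _) (hgi.const_mul _), integral_const_mul,
    integral_const_mul] at hkey
  have h6 : ∫ x, -(2 * φ x * (fderiv ℝ φ x) (e i) * c x) = ∫ x, φ x ^ 2 := by
    rw [integral_neg, ← hibp]
  rw [h6] at hkey ⊢
  linarith

theorem norm_sq_Lp {R : ℝ} {G : Type*} [NormedAddCommGroup G] [InnerProductSpace ℝ G]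
    (f : Lp G 2 (mu N R)) : ‖f‖ ^ 2 = ∫ x, ‖f x‖ ^ 2 ∂(mu N R) := by
  rw [← real_inner_self_eq_norm_sq, L2.inner_def]
  refine integral_congr_ae (ae_of_all _ fun x => ?_)
  exact real_inner_self_eq_norm_sq _

theorem W_poincare {R : ℝ} (hN : 0 < N) : ∀ Φ ∈ W N R,
    ‖Φ.fst‖ ^ 2 ≤ 4 * R ^ 2 * ‖Φ.snd‖ ^ 2 := by
  have hf : Continuous fun Φ : HH N R => ‖Φ.fst‖ ^ 2 := by fun_prop
  have hs : Continuous fun Φ : HH N R => 4 * R ^ 2 * ‖Φ.snd‖ ^ 2 := by fun_prop
  refine W_le hf hs fun φ hφ => ?_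
  have h1 : ‖(pr φ (gradient φ) hφ.memLp hφ.memLp_grad : HH N R).fst‖ ^ 2 = ∫ x, φ x ^ 2 := by
    rw [norm_sq_Lp, ← integral_mu (R := R) (fun x hx => by rw [hφ.zero_of_notMem hx]; simp)]
    refine integral_congr_ae ?_
    filter_upwards [pr_fst φ (gradient φ) hφ.memLp hφ.memLp_grad] with x hx
    rw [hx, Real.norm_eq_abs, sq_abs]
  have h2 : ‖(pr φ (gradient φ) hφ.memLp hφ.memLp_grad : HH N R).snd‖ ^ 2
      = ∫ x, ‖gradient φ x‖ ^ 2 := by
    rw [norm_sq_Lp, ← integral_mu (R := R) (fun x hx => by rw [hφ.grad_zero_of_notMem hx]; simp)]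
    refine integral_congr_ae ?_
    filter_upwards [pr_snd φ (gradient φ) hφ.memLp hφ.memLp_grad] with x hx
    rw [hx]
  simp only [h1, h2]
  exact poincare hN hφ

theorem elliptic (c : Coef N) (R : ℝ) : ∃ lam > 0, ∀ x ∈ Metric.closedBall (0 : E N) R, ∀ v,
    lam * ‖v‖ ^ 2 ≤ ⟪c.A x v, v⟫_ℝ := by
  have hK : IsCompact (Metric.closedBall (0 : E N) R ×ˢ Metric.sphere (0 : E N) 1) :=
    (isCompact_closedBall _ _).prod (isCompact_sphere _ _)
  have hcont : Continuous fun q : E N × E N => ⟪c.A q.1 q.2, q.2⟫_ℝ :=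
    ((c.smoothA.continuous.comp continuous_fst).clm_apply continuous_snd).inner continuous_snd
  rcases (Metric.closedBall (0 : E N) R ×ˢ Metric.sphere (0 : E N) 1).eq_empty_or_nonempty
    with he | hne
  · refine ⟨1, one_pos, fun x hx v => ?_⟩
    by_cases hv : v = 0
    · simp [hv]
    · exfalso
      have : (x, (‖v‖⁻¹ : ℝ) • v) ∈ Metric.closedBall (0 : E N) R ×ˢ Metric.sphere (0 : E N) 1 := by
        refine ⟨hx, ?_⟩
        rw [mem_sphere_zero_iff_norm, norm_smul, norm_inv, norm_norm,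
          inv_mul_cancel₀ (norm_ne_zero_iff.2 hv)]
      rw [he] at this
      exact this
  · obtain ⟨q, hq, hmin⟩ := hK.exists_isMinOn hne hcont.continuousOn
    have hq2 : q.2 ≠ 0 := by
      have := hq.2
      rw [mem_sphere_zero_iff_norm] at this
      intro h0
      rw [h0, norm_zero] at this
      exact zero_ne_one this
    refine ⟨⟪c.A q.1 q.2, q.2⟫_ℝ, c.pos _ _ hq2, fun x hx v => ?_⟩
    by_cases hv : v = 0
    · simp [hv]
    · have hv' : ‖v‖ ≠ 0 := norm_ne_zero_iff.2 hv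
      have hm : ((x, (‖v‖⁻¹ : ℝ) • v) : E N × E N) ∈
          Metric.closedBall (0 : E N) R ×ˢ Metric.sphere (0 : E N) 1 := by
        refine ⟨hx, ?_⟩
        rw [mem_sphere_zero_iff_norm, norm_smul, norm_inv, norm_norm, inv_mul_cancel₀ hv']
      have h1 := hmin hm
      simp only [mem_ofPred_eq, map_smul, real_inner_smul_left, real_inner_smul_right] at h1
      calc _ ≤ ‖v‖⁻¹ * (‖v‖⁻¹ * ⟪c.A x v, v⟫_ℝ) * ‖v‖ ^ 2 :=
            mul_le_mul_of_nonneg_right h1 (sq_nonneg _)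
        _ = _ := by field_simp

theorem A_bound (c : Coef N) (R : ℝ) : ∃ Lam > 0, ∀ x ∈ Metric.closedBall (0 : E N) R,
    ‖c.A x‖ ≤ Lam := by
  obtain ⟨C, hC⟩ := (isCompact_closedBall (0 : E N) R).exists_bound_of_continuousOn
    c.smoothA.continuous.continuousOn
  exact ⟨max C 1, lt_of_lt_of_le one_pos (le_max_right _ _),
    fun x hx => (hC x hx).trans (le_max_left _ _)⟩

theorem ae_mem_ball (R : ℝ) : ∀ᵐ x ∂(mu N R), x ∈ Metric.closedBall (0 : E N) R := by
  filter_upwards [ae_restrict_mem Metric.isOpen_ball.measurableSet] with x hx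
  exact Metric.ball_subset_closedBall hx

theorem memLp_A (c : Coef N) {R : ℝ} {F : E N → E N} (hF : MemLp F 2 (mu N R)) :
    MemLp (fun x => c.A x (F x)) 2 (mu N R) := by
  obtain ⟨Lam, hLam, hb⟩ := A_bound c R
  refine MemLp.of_le_mul (c := Lam) hF ?_ ?_
  · have h1 : AEStronglyMeasurable (fun x => (c.A x, F x)) (mu N R) :=
      (c.smoothA.continuous.aestronglyMeasurable).prodMk hF.1
    have h2 : Continuous fun q : (E N →L[ℝ] E N) × E N => q.1 q.2 :=
      continuous_fst.clm_apply continuous_snd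
    exact h2.comp_aestronglyMeasurable h1
  · filter_upwards [ae_mem_ball R] with x hx
    exact (c.A x).le_of_opNorm_le (hb x hx) _

/-- Solvability of `b(x, d) - div (A ∇d + q) = 0` in `H^1_0`. -/
theorem solve (c : Coef N) {R : ℝ} (hN : 0 < N) {b : E N → ℝ → ℝ} {Kb : ℝ}
    (hlip : ∀ x ∈ Metric.closedBall (0 : E N) R, ∀ s t, |b x s - b x t| ≤ Kb * |s - t|)
    (hmono : ∀ x ∈ Metric.closedBall (0 : E N) R, ∀ s t, 0 ≤ (b x s - b x t) * (s - t))
    (hmem : ∀ f : E N → ℝ, MemLp f 2 (mu N R) → MemLp (fun x => b x (f x)) 2 (mu N R))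
    {q : E N → E N} (hq : MemLp q 2 (mu N R)) :
    ∃ D ∈ W N R, ∀ Ψ ∈ W N R, (∫ x, b x (D.fst x) * Ψ.fst x ∂(mu N R))
      + ∫ x, ⟪c.A x (D.snd x) + q x, Ψ.snd x⟫_ℝ ∂(mu N R) = 0 := by
  obtain ⟨lam, hlam, hell⟩ := elliptic c R
  obtain ⟨Lam, hLam, hAb⟩ := A_bound c R
  have m1 : ∀ Φ : HH N R, MemLp (fun x => b x (Φ.fst x)) 2 (mu N R) :=
    fun Φ => hmem _ (Lp.memLp Φ.fst)
  have m2 : ∀ Φ : HH N R, MemLp (fun x => c.A x (Φ.snd x) + q x) 2 (mu N R) :=
    fun Φ => (memLp_A c (Lp.memLp Φ.snd)).add hq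
  let G : HH N R → HH N R := fun Φ => pr _ _ (m1 Φ) (m2 Φ)
  have hG1 : ∀ Φ Ψ : HH N R, ((G Φ - G Ψ).fst : E N → ℝ) =ᵐ[mu N R]
      fun x => b x (Φ.fst x) - b x (Ψ.fst x) := by
    intro Φ Ψ
    have h5 : (G Φ - G Ψ).fst = (G Φ).fst - (G Ψ).fst := rfl
    rw [h5]
    filter_upwards [Lp.coeFn_sub (G Φ).fst (G Ψ).fst, pr_fst _ _ (m1 Φ) (m2 Φ),
      pr_fst _ _ (m1 Ψ) (m2 Ψ)] with x h1 h2 h3
    rw [h1, Pi.sub_apply]
    exact congrArg₂ (· - ·) h2 h3
  have hG2 : ∀ Φ Ψ : HH N R, ((G Φ - G Ψ).snd : E N → E N) =ᵐ[mu N R]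
      fun x => c.A x (Φ.snd x - Ψ.snd x) := by
    intro Φ Ψ
    have h5 : (G Φ - G Ψ).snd = (G Φ).snd - (G Ψ).snd := rfl
    rw [h5]
    filter_upwards [Lp.coeFn_sub (G Φ).snd (G Ψ).snd, pr_snd _ _ (m1 Φ) (m2 Φ),
      pr_snd _ _ (m1 Ψ) (m2 Ψ)] with x h1 h2 h3
    rw [h1, Pi.sub_apply]
    have := congrArg₂ (· - ·) h2 h3
    refine this.trans ?_
    simp only [map_sub]
    abel
  have hd1 : ∀ Φ Ψ : HH N R, ((Φ - Ψ).fst : E N → ℝ) =ᵐ[mu N R]
      fun x => Φ.fst x - Ψ.fst x := by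
    intro Φ Ψ
    have h5 : (Φ - Ψ).fst = Φ.fst - Ψ.fst := rfl
    rw [h5]
    exact Lp.coeFn_sub _ _
  have hd2 : ∀ Φ Ψ : HH N R, ((Φ - Ψ).snd : E N → E N) =ᵐ[mu N R]
      fun x => Φ.snd x - Ψ.snd x := by
    intro Φ Ψ
    have h5 : (Φ - Ψ).snd = Φ.snd - Ψ.snd := rfl
    rw [h5]
    exact Lp.coeFn_sub _ _
  set K := max Kb Lam with hK
  have hKpos : 0 < K := lt_of_lt_of_le hLam (le_max_right _ _)
  have hGlip : ∀ x ∈ W N R, ∀ y ∈ W N R, ‖G x - G y‖ ≤ K * ‖x - y‖ := by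
    intro Φ _ Ψ _
    have h1 : ‖(G Φ - G Ψ).fst‖ ≤ K * ‖(Φ - Ψ).fst‖ := by
      refine Lp.norm_le_mul_norm_of_ae_le_mul ?_
      filter_upwards [hG1 Φ Ψ, hd1 Φ Ψ, ae_mem_ball R] with x h1 h2 hx
      rw [h1, h2]
      exact (hlip x hx _ _).trans (mul_le_mul_of_nonneg_right (le_max_left _ _) (abs_nonneg _))
    have h2 : ‖(G Φ - G Ψ).snd‖ ≤ K * ‖(Φ - Ψ).snd‖ := by
      refine Lp.norm_le_mul_norm_of_ae_le_mul ?_
      filter_upwards [hG2 Φ Ψ, hd2 Φ Ψ, ae_mem_ball R] with x h1 h2 hx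
      rw [h1, h2]
      exact (c.A x).le_of_opNorm_le ((hAb x hx).trans (le_max_right _ _)) _
    have h3 : ‖G Φ - G Ψ‖ ^ 2 ≤ (K * ‖Φ - Ψ‖) ^ 2 := by
      rw [mul_pow, WithLp.prod_norm_sq_eq_of_L2, WithLp.prod_norm_sq_eq_of_L2]
      have := pow_le_pow_left₀ (norm_nonneg _) h1 2
      have := pow_le_pow_left₀ (norm_nonneg _) h2 2
      nlinarith
    exact abs_le_of_sq_le_sq' h3 (by positivity) |>.2
  obtain ⟨c0, hc0, hc0'⟩ : ∃ c0 : ℝ, 0 < c0 ∧ c0 * (4 * R ^ 2 + 1) ≤ lam :=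
    ⟨lam / (4 * R ^ 2 + 1), by positivity, by rw [div_mul_cancel₀]; positivity⟩
  have hGmono : ∀ x ∈ W N R, ∀ y ∈ W N R, c0 * ‖x - y‖ ^ 2 ≤ ⟪G x - G y, x - y⟫_ℝ := by
    intro Φ hΦ Ψ hΨ
    have hP := W_poincare hN (Φ - Ψ) ((W N R).sub_mem hΦ hΨ)
    rw [WithLp.prod_norm_sq_eq_of_L2, inner_HH]
    have h1 : 0 ≤ ∫ x, (G Φ - G Ψ).fst x * (Φ - Ψ).fst x ∂(mu N R) := by
      refine integral_nonneg_of_ae ?_
      filter_upwards [hG1 Φ Ψ, hd1 Φ Ψ, ae_mem_ball R] with x h1 h2 hx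
      rw [h1, h2]
      exact hmono x hx _ _
    have h2 : lam * ‖(Φ - Ψ).snd‖ ^ 2
        ≤ ∫ x, ⟪(G Φ - G Ψ).snd x, (Φ - Ψ).snd x⟫_ℝ ∂(mu N R) := by
      rw [norm_sq_Lp, ← integral_const_mul]
      refine integral_mono_ae ?_ ?_ ?_
      · exact (Lp.memLp (Φ - Ψ).snd).integrable_norm_pow (by norm_num) |>.const_mul _
      · exact L2.integrable_inner _ _
      · filter_upwards [hG2 Φ Ψ, hd2 Φ Ψ, ae_mem_ball R] with x h1 h2 hx
        rw [h1, h2]
        exact hell x hx _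
    nlinarith [sq_nonneg ‖(Φ - Ψ).snd‖]
  obtain ⟨D, hD, hD'⟩ := abs_solve (W N R) (isClosed_W R) G hc0 hGlip hGmono
  refine ⟨D, hD, fun Ψ hΨ => ?_⟩
  have := hD' Ψ hΨ
  rw [inner_pr] at this
  exact this

end Pool.Agent.MP909527
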