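import Pool.Agent.Work.MP_909527_an.Beta

/-! # One step of the implicit scheme -/

set_option autoImplicit false

open MeasureTheory Set Filter Topology
open scoped ContDiff InnerProductSpace ENNReal

namespace Pool.Agent.MP909527

variable {N : ℕ}

theorem w_bound (c : Coef N) (R : ℝ) : ∃ Wb > 0, ∀ x ∈ Metric.closedBall (0 : E N) R,
    |c.w x| ≤ Wb := by
  obtain ⟨C, hC⟩ := (isCompact_closedBall (0 : E N) R).exists_bound_of_continuousOn
    c.smoothw.continuous.continuousOn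
  exact ⟨max C 1, lt_of_lt_of_le one_pos (le_max_right _ _),
    fun x hx => (hC x hx).trans (le_max_left _ _)⟩

theorem memLp_w_mul (c : Coef N) {R : ℝ} {q : ℝ≥0∞} {f : E N → ℝ} (hf : MemLp f q (mu N R)) :
    MemLp (fun x => c.w x * f x) q (mu N R) := by
  obtain ⟨Wb, _, hb⟩ := w_bound c R
  refine MemLp.of_le_mul (c := Wb) hf (c.smoothw.continuous.aestronglyMeasurable.mul hf.1) ?_
  filter_upwards [ae_mem_ball R] with x hx
  rw [Real.norm_eq_abs, abs_mul]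
  exact mul_le_mul_of_nonneg_right (hb x hx) (abs_nonneg _)

theorem memLp_beta {m ε : ℝ} (hm : 1 < m) (hε : 0 < ε) {R : ℝ} {f : E N → ℝ}
    (hf : MemLp f 2 (mu N R)) : MemLp (fun x => beta m ε (f x)) 2 (mu N R) := by
  refine MemLp.of_le_mul (c := (ε ^ (m - 1))⁻¹ + 1) hf
    ((beta_continuous hm hε).comp_aestronglyMeasurable hf.1) (ae_of_all _ fun x => ?_)
  have := beta_lip hm hε (f x) 0
  rw [beta_zero hm hε] at this
  simpa [Real.norm_eq_abs] using this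

theorem memLp_arg {R τ : ℝ} {f U : E N → ℝ} (hf : MemLp f 2 (mu N R)) (hU : Continuous U) :
    MemLp (fun x => (f x + U x) / τ) 2 (mu N R) := by
  have h1 : MemLp (fun x => f x + U x) 2 (mu N R) := hf.add (memLp_continuous hU)
  have h2 := h1.const_mul (τ⁻¹)
  simpa only [div_eq_inv_mul] using h2

/-- `∫ ⟨A ξ, ξ⟩ θ ≥ 0` type positivity. -/
theorem A_nonneg (c : Coef N) (x v : E N) : 0 ≤ ⟪c.A x v, v⟫_ℝ := by
  by_cases hv : v = 0
  · simp [hv]
  · exact (c.pos x v hv).le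

theorem step_exists (c : Coef N) {R : ℝ} (hN : 0 < N) {m ε τ : ℝ} (hm : 1 < m) (hε : 0 < ε)
    (hτ : 0 < τ) {a F U : E N → ℝ} (ha : MemLp a 2 (mu N R)) (ha0 : ∀ᵐ x ∂(mu N R), 0 ≤ a x)
    (hF : Continuous F) (hF0 : ∀ x, 0 ≤ F x) (hU : ContDiff ℝ ∞ U) (hU0 : ∀ x, 0 ≤ U x) :
    ∃ D ∈ W N R,
      (∀ Ψ ∈ W N R, (∫ x, c.w x * (beta m ε ((D.fst x + U x) / τ) - a x - F x) * Ψ.fst x
          ∂(mu N R))
        + ∫ x, ⟪c.A x (D.snd x + gradient U x), Ψ.snd x⟫_ℝ ∂(mu N R) = 0) ∧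
      ∀ᵐ x ∂(mu N R), 0 ≤ D.fst x + U x := by
  obtain ⟨Wb, hWb, hwb⟩ := w_bound c R
  set K := (ε ^ (m - 1))⁻¹ + 1 with hK
  have hKpos : 0 < K := by positivity
  have hU1 : ContDiff ℝ 1 U := hU.of_le (by simp)
  have hgU : Continuous (gradient U) := continuous_gradient hU1
  have hL : ∀ x ∈ Metric.closedBall (0 : E N) R, ∀ s t : ℝ,
      |c.w x * (beta m ε ((s + U x) / τ) - a x - F x)
        - c.w x * (beta m ε ((t + U x) / τ) - a x - F x)| ≤ Wb * (K * τ⁻¹) * |s - t| := by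
    intro x hx s t
    have h1 : c.w x * (beta m ε ((s + U x) / τ) - a x - F x)
        - c.w x * (beta m ε ((t + U x) / τ) - a x - F x)
        = c.w x * (beta m ε ((s + U x) / τ) - beta m ε ((t + U x) / τ)) := by ring
    rw [h1, abs_mul]
    have h2 := beta_lip hm hε ((s + U x) / τ) ((t + U x) / τ)
    have h3 : |(s + U x) / τ - (t + U x) / τ| = τ⁻¹ * |s - t| := by
      rw [← sub_div, div_eq_inv_mul, abs_mul, abs_of_pos (inv_pos.2 hτ)]
      congr 2; ring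
    rw [h3] at h2
    calc |c.w x| * |beta m ε ((s + U x) / τ) - beta m ε ((t + U x) / τ)|
        ≤ Wb * (K * (τ⁻¹ * |s - t|)) :=
          mul_le_mul (hwb x hx) h2 (abs_nonneg _) hWb.le
      _ = _ := by ring
  have hMo : ∀ x ∈ Metric.closedBall (0 : E N) R, ∀ s t : ℝ,
      0 ≤ (c.w x * (beta m ε ((s + U x) / τ) - a x - F x)
        - c.w x * (beta m ε ((t + U x) / τ) - a x - F x)) * (s - t) := by
    intro x hx s t
    have h1 : c.w x * (beta m ε ((s + U x) / τ) - a x - F x)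
        - c.w x * (beta m ε ((t + U x) / τ) - a x - F x)
        = c.w x * (beta m ε ((s + U x) / τ) - beta m ε ((t + U x) / τ)) := by ring
    rw [h1, mul_assoc]
    refine mul_nonneg (c.wpos x).le ?_
    rcases le_total s t with h | h
    · exact mul_nonneg_of_nonpos_of_nonpos
        (sub_nonpos.2 (beta_mono hm hε (div_le_div_of_nonneg_right (by linarith) hτ.le)))
        (sub_nonpos.2 h)
    · exact mul_nonneg
        (sub_nonneg.2 (beta_mono hm hε (div_le_div_of_nonneg_right (by linarith) hτ.le)))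
        (sub_nonneg.2 h)
  have hMe : ∀ f : E N → ℝ, MemLp f 2 (mu N R) →
      MemLp (fun x => c.w x * (beta m ε ((f x + U x) / τ) - a x - F x)) 2 (mu N R) := by
    intro f hf
    exact memLp_w_mul c (((memLp_beta hm hε (memLp_arg hf hU.continuous)).sub ha).sub
      (memLp_continuous hF))
  obtain ⟨D, hD, hD'⟩ := solve c (R := R) hN
    (b := fun x s => c.w x * (beta m ε ((s + U x) / τ) - a x - F x)) (Kb := Wb * (K * τ⁻¹))
    hL hMo hMe (memLp_A c (memLp_continuous hgU))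
  -- the equation
  have heq : ∀ Ψ ∈ W N R, (∫ x, c.w x * (beta m ε ((D.fst x + U x) / τ) - a x - F x) * Ψ.fst x
          ∂(mu N R))
        + ∫ x, ⟪c.A x (D.snd x + gradient U x), Ψ.snd x⟫_ℝ ∂(mu N R) = 0 := by
    intro Ψ hΨ
    have := hD' Ψ hΨ
    simp only [map_add]
    exact this
  refine ⟨D, hD, heq, ?_⟩
  -- positivity
  obtain ⟨C, hq⟩ := qd_trunc (δ := 1) one_pos
  have hb1 : ContDiff ℝ 1 fun x => τ⁻¹ * U x := contDiff_const.mul hU1
  have hb0 : ∀ x, 0 ≤ τ⁻¹ * U x := fun x => mul_nonneg (inv_pos.2 hτ).le (hU0 x)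
  have hDm : (-τ⁻¹) • D ∈ W N R := (W N R).smul_mem _ hD
  have hch := chain hq hb1 hb0 hDm
  have hPsi := heq _ (Wp_subset_W R hch)
  set T := pr (fun x => qd 1 (((-τ⁻¹) • D).fst x - τ⁻¹ * U x))
    (fun x => deriv (qd 1) (((-τ⁻¹) • D).fst x - τ⁻¹ * U x) • (((-τ⁻¹) • D).snd x
      - gradient (fun x => τ⁻¹ * U x) x))
      (hq.memLp1 (Lp.memLp ((-τ⁻¹) • D).fst) hb1) (hq.memLp2 (Lp.memLp ((-τ⁻¹) • D).fst)
        (Lp.memLp ((-τ⁻¹) • D).snd) hb1) with hT
  have hs1 : (((-τ⁻¹) • D).fst : E N → ℝ) =ᵐ[mu N R] fun x => -τ⁻¹ * D.fst x := by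
    have h5 : ((-τ⁻¹) • D).fst = (-τ⁻¹) • D.fst := rfl
    rw [h5]
    filter_upwards [Lp.coeFn_smul (-τ⁻¹) D.fst] with x hx
    rw [hx]; rfl
  have hs2 : (((-τ⁻¹) • D).snd : E N → E N) =ᵐ[mu N R] fun x => (-τ⁻¹) • D.snd x := by
    have h5 : ((-τ⁻¹) • D).snd = (-τ⁻¹) • D.snd := rfl
    rw [h5]
    filter_upwards [Lp.coeFn_smul (-τ⁻¹) D.snd] with x hx
    rw [hx]; rfl
  have hT1 : (T.fst : E N → ℝ) =ᵐ[mu N R] fun x => qd 1 (-(τ⁻¹ * (D.fst x + U x))) := by
    filter_upwards [pr_fst _ _ (hq.memLp1 (Lp.memLp ((-τ⁻¹) • D).fst) hb1)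
      (hq.memLp2 (Lp.memLp ((-τ⁻¹) • D).fst) (Lp.memLp ((-τ⁻¹) • D).snd) hb1), hs1]
      with x h1 h2
    rw [hT, h1, h2]
    congr 1; ring
  have hgb : ∀ x, gradient (fun x => τ⁻¹ * U x) x = τ⁻¹ • gradient U x := fun x =>
    gradient_const_mul τ⁻¹ (hU1.differentiable one_ne_zero x)
  have hT2 : (T.snd : E N → E N) =ᵐ[mu N R] fun x =>
      (-(τ⁻¹ * deriv (qd 1) (-(τ⁻¹ * (D.fst x + U x))))) • (D.snd x + gradient U x) := by
    filter_upwards [pr_snd _ _ (hq.memLp1 (Lp.memLp ((-τ⁻¹) • D).fst) hb1)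
      (hq.memLp2 (Lp.memLp ((-τ⁻¹) • D).fst) (Lp.memLp ((-τ⁻¹) • D).snd) hb1), hs1, hs2]
      with x h1 h2 h3
    rw [hT, h1, h2, h3, hgb]
    have e1 : -τ⁻¹ * D.fst x - τ⁻¹ * U x = -(τ⁻¹ * (D.fst x + U x)) := by ring
    rw [e1]
    module
  have hneg : ∫ x, ⟪c.A x (D.snd x + gradient U x), T.snd x⟫_ℝ ∂(mu N R) ≤ 0 := by
    refine integral_nonpos_of_ae ?_
    filter_upwards [hT2] with x hx
    rw [hx, real_inner_smul_right, Pi.zero_apply]
    have h1 := qd_deriv_nonneg (δ := 1) one_pos (-(τ⁻¹ * (D.fst x + U x)))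
    have h2 := A_nonneg c x (D.snd x + gradient U x)
    have h3 : 0 < τ⁻¹ := inv_pos.2 hτ
    have h4 := mul_nonneg (mul_nonneg h3.le h1) h2
    linarith
  have hpos : 0 ≤ ∫ x, c.w x * (beta m ε ((D.fst x + U x) / τ) - a x - F x) * T.fst x
          ∂(mu N R) := by linarith
  -- integrand is `≤ 0`
  have hle : ∀ᵐ x ∂(mu N R),
      c.w x * (beta m ε ((D.fst x + U x) / τ) - a x - F x) * T.fst x ≤ 0 := by
    filter_upwards [hT1, ha0] with x h1 h2
    rw [h1]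
    by_cases hx : D.fst x + U x < 0
    · have h3 : beta m ε ((D.fst x + U x) / τ) < 0 :=
        beta_neg hm hε (div_neg_of_neg_of_pos hx hτ)
      have h4 : beta m ε ((D.fst x + U x) / τ) - a x - F x ≤ 0 := by linarith [hF0 x]
      exact mul_nonpos_of_nonpos_of_nonneg (mul_nonpos_of_nonneg_of_nonpos (c.wpos x).le h4)
        (qd_nonneg _ _)
    · have h3 : qd 1 (-(τ⁻¹ * (D.fst x + U x))) = 0 := by
        refine qd_zero one_pos ?_
        have := mul_nonneg (inv_pos.2 hτ).le (not_lt.1 hx)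
        linarith
      rw [h3, mul_zero]
  have hint : Integrable (fun x => c.w x * (beta m ε ((D.fst x + U x) / τ) - a x - F x)
      * T.fst x) (mu N R) :=
    MemLp.integrable_mul (memLp_w_mul c (((memLp_beta hm hε (memLp_arg (Lp.memLp D.fst)
      hU.continuous)).sub ha).sub (memLp_continuous hF))) (Lp.memLp T.fst)
  have hz : ∀ᵐ x ∂(mu N R),
      -(c.w x * (beta m ε ((D.fst x + U x) / τ) - a x - F x) * T.fst x) = 0 := by
    have h1 : 0 ≤ᵐ[mu N R] fun x =>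
        -(c.w x * (beta m ε ((D.fst x + U x) / τ) - a x - F x) * T.fst x) := by
      filter_upwards [hle] with x hx
      simpa using hx
    refine (integral_eq_zero_iff_of_nonneg_ae h1 hint.neg).1 ?_
    refine le_antisymm ?_ (integral_nonneg_of_ae h1)
    rw [integral_neg]
    linarith
  filter_upwards [hz, hT1, ha0] with x h1 h2 h3
  by_contra hx
  rw [not_le] at hx
  have h4 : beta m ε ((D.fst x + U x) / τ) < 0 := beta_neg hm hε (div_neg_of_neg_of_pos hx hτ)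
  have h5 : beta m ε ((D.fst x + U x) / τ) - a x - F x < 0 := by linarith [hF0 x]
  have h6 : 0 < qd 1 (-(τ⁻¹ * (D.fst x + U x))) := by
    refine qd_pos one_pos ?_
    have := mul_pos (inv_pos.2 hτ) (neg_pos.2 hx)
    linarith
  rw [h2] at h1
  have h7 : c.w x * (beta m ε ((D.fst x + U x) / τ) - a x - F x)
      * qd 1 (-(τ⁻¹ * (D.fst x + U x))) < 0 :=
    mul_neg_of_neg_of_pos (mul_neg_of_pos_of_neg (c.wpos x) h5) h6
  linarith

end Pool.Agent.MP909527
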